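import Pool.Agent.V11189.FeNeg

set_option autoImplicit false
set_option linter.unusedSectionVars false

open Function Filter Topology

namespace Pool.Agent.V11189.FE

variable {f : ℝ → ℝ}

theorem const_sign {g : ℝ → ℝ} (hg : Continuous g) (hne : ∀ x, g x = 0 → x = 0) :
    ((∀ x, 0 < x → 0 < g x) ∨ (∀ x, 0 < x → g x < 0)) ∧
      ((∀ x, x < 0 → 0 < g x) ∨ (∀ x, x < 0 → g x < 0)) := by
  have key : ∀ a b : ℝ, 0 < a * b → 0 < g a → g b < 0 → False := by
    intro a b hab ha hb
    obtain ⟨z, hz, hgz⟩ := intermediate_value_uIcc (a := a) (b := b) hg.continuousOn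
      (show (0 : ℝ) ∈ Set.uIcc (g a) (g b) by
        rw [Set.mem_uIcc]
        exact Or.inr ⟨hb.le, ha.le⟩)
    have := hne z hgz
    rw [this, Set.mem_uIcc] at hz
    rcases hz with hz | hz <;> nlinarith
  constructor
  · rcases lt_trichotomy (g 1) 0 with h1 | h1 | h1
    · right
      intro x hx
      by_contra h2
      push Not at h2
      have h3 : 0 < g x := lt_of_le_of_ne h2 fun h4 => hx.ne' (hne x h4.symm)
      exact key x 1 (by linarith) h3 h1
    · exact absurd (hne 1 h1) one_ne_zero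
    · left
      intro x hx
      by_contra h2
      push Not at h2
      have h3 : g x < 0 := lt_of_le_of_ne h2 fun h4 => hx.ne' (hne x h4)
      exact key 1 x (by linarith) h1 h3
  · rcases lt_trichotomy (g (-1)) 0 with h1 | h1 | h1
    · right
      intro x hx
      by_contra h2
      push Not at h2
      have h3 : 0 < g x := lt_of_le_of_ne h2 fun h4 => hx.ne (hne x h4.symm)
      exact key x (-1) (by linarith) h3 h1
    · have := hne (-1) h1
      norm_num at this
    · left
      intro x hx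
      by_contra h2
      push Not at h2
      have h3 : g x < 0 := lt_of_le_of_ne h2 fun h4 => hx.ne (hne x h4)
      exact key (-1) x (by linarith) h1 h3

/-! ### Type C: strongly expanding -/

theorem Sol.typeC (h : Sol f) (hn : ∀ x, 0 < x → f x < 0) (hp : ∀ x, x < 0 → 0 < f x)
    (hG1 : ∀ x, 0 < x → G f x < 0) (hG2 : ∀ x, x < 0 → 0 < G f x) : ∃ a, ∀ x, f x = a * x := by
  have hrel : ∀ x, |f x| = |x| + |G f x| := by
    intro x
    rcases lt_trichotomy x 0 with h1 | h1 | h1
    · rw [abs_of_pos (hp x h1), abs_of_neg h1, abs_of_pos (hG2 x h1)]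
      unfold G
      ring
    · rw [h1, h.zero, h.G0]
      simp
    · rw [abs_of_neg (hn x h1), abs_of_pos h1, abs_of_neg (hG1 x h1)]
      unfold G
      ring
  have hfs : Surjective f := by
    intro y
    apply mem_range_of_exists_le_of_exists_ge h.c
    · refine ⟨|y|, ?_⟩
      rcases eq_or_ne y 0 with rfl | hy
      · rw [abs_zero, h.zero]
      · have := hG1 |y| (abs_pos.2 hy)
        unfold G at this
        linarith [neg_abs_le y]
    · refine ⟨-|y|, ?_⟩
      rcases eq_or_ne y 0 with rfl | hy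
      · rw [abs_zero, neg_zero, h.zero]
      · have := hG2 (-|y|) (neg_neg_of_pos (abs_pos.2 hy))
        unfold G at this
        linarith [le_abs_self y]
  have hge : ∀ n : ℕ, ∀ x, |x| ≤ |f^[n] x| := by
    intro n
    induction n with
    | zero => exact fun x => le_rfl
    | succ n ih =>
      intro x
      rw [iterate_succ_apply', hrel]
      linarith [ih x, abs_nonneg (G f (f^[n] x))]
  have hGf : ∀ n : ℕ, ∀ x, G f (f^[n] x) = f^[n] (G f x) := fun n x =>
    (h.commute.symm.iterate_right n) x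
  have hgrow : ∀ n : ℕ, ∀ x, |x| + n * |G f x| ≤ |f^[n] x| := by
    intro n
    induction n with
    | zero => intro x; simp
    | succ n ih =>
      intro x
      rw [iterate_succ_apply', hrel, hGf]
      push_cast
      linarith [ih x, hge n (G f x)]
  have hGs : Surjective (G f) := by
    intro y
    have hz : G f 1 ≠ 0 := (hG1 1 one_pos).ne
    have hz2 : 0 < |G f (G f 1)| := abs_pos.2 (hG2 _ (hG1 1 one_pos)).ne'
    obtain ⟨n, hn'⟩ := exists_nat_gt (|y| / |G f (G f 1)|)
    rw [div_lt_iff₀ hz2] at hn'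
    have h1 : |y| ≤ |G f (f^[n] 1)| := by
      rw [hGf]
      linarith [hgrow n (G f 1), abs_nonneg (G f 1)]
    have h2 : |y| ≤ |G f (f^[n + 1] 1)| := by
      rw [hGf, iterate_succ_apply', hrel, ← hGf]
      linarith [abs_nonneg (G f (G f (f^[n] 1)))]
    have h3 : G f (f^[n + 1] 1) = f (G f (f^[n] 1)) := by
      rw [hGf, iterate_succ_apply', hGf]
    have hne : G f (f^[n] 1) ≠ 0 := by
      intro h0
      have h4 := hGf n 1
      rw [h0] at h4
      have h5 := hge n (G f 1)
      rw [← h4, abs_zero] at h5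
      exact hz (abs_eq_zero.1 (le_antisymm h5 (abs_nonneg _)))
    rcases lt_or_gt_of_ne hne with h4 | h4
    · have h5 : 0 < G f (f^[n + 1] 1) := by
        rw [h3]
        exact hp _ h4
      rw [abs_of_neg h4] at h1
      rw [abs_of_pos h5] at h2
      exact mem_range_of_exists_le_of_exists_ge h.cG ⟨f^[n] 1, by linarith [neg_abs_le y]⟩
        ⟨_, (le_abs_self y).trans h2⟩
    · have h5 : G f (f^[n + 1] 1) < 0 := by
        rw [h3]
        exact hn _ h4
      rw [abs_of_pos h4] at h1
      rw [abs_of_neg h5] at h2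
      exact mem_range_of_exists_le_of_exists_ge h.cG ⟨f^[n + 1] 1, by linarith [neg_abs_le y]⟩
        ⟨_, (le_abs_self y).trans h1⟩
  have hP : Pair (G f) f :=
    { ca := h.cG
      cb := h.c
      za := by
        intro x hx
        rcases lt_trichotomy x 0 with h1 | h1 | h1
        · exact absurd hx (hG2 x h1).ne'
        · exact h1
        · exact absurd hx (hG1 x h1).ne
      b0 := h.zero
      sa := hGs
      sb := hfs
      comm := fun x => (h.commute x).symm
      rel := hrel }
  obtain ⟨z, hz0, hz⟩ := hP.linear (Or.inr (Or.inr hG2))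
  refine ⟨-(1 + z), fun x => ?_⟩
  have h1 := hz x
  rcases lt_trichotomy x 0 with h2 | h2 | h2
  · rw [abs_of_neg h2, abs_of_pos (hG2 x h2)] at h1
    unfold G at h1
    linarith
  · rw [h2, h.zero, mul_zero]
  · rw [abs_of_pos h2, abs_of_neg (hG1 x h2)] at h1
    unfold G at h1
    linarith

/-! ### Type B: contracting -/

/-- Type B hypotheses. -/
structure TB (f : ℝ → ℝ) : Prop where
  h : Sol f
  hn : ∀ x, 0 < x → f x < 0
  hp : ∀ x, x < 0 → 0 < f x
  g1 : ∀ x, 0 < x → 0 < G f x
  g2 : ∀ x, x < 0 → G f x < 0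

theorem G_mirror (f : ℝ → ℝ) (x : ℝ) : G (fun x => -f (-x)) x = -G f (-x) := by
  unfold G
  ring

theorem TB.mirror (t : TB f) : TB fun x => -f (-x) where
  h := t.h.mirror
  hn := fun x hx => by linarith [t.hp (-x) (by linarith)]
  hp := fun x hx => by linarith [t.hn (-x) (by linarith)]
  g1 := fun x hx => by
    rw [G_mirror]
    linarith [t.g2 (-x) (by linarith)]
  g2 := fun x hx => by
    rw [G_mirror]
    linarith [t.g1 (-x) (by linarith)]

theorem TB.rel (t : TB f) (x : ℝ) : |x| = |f x| + |G f x| := by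
  rcases lt_trichotomy x 0 with h1 | h1 | h1
  · rw [abs_of_pos (t.hp x h1), abs_of_neg h1, abs_of_neg (t.g2 x h1)]
    unfold G
    ring
  · rw [h1, t.h.zero, t.h.G0]
    simp
  · rw [abs_of_neg (t.hn x h1), abs_of_pos h1, abs_of_pos (t.g1 x h1)]
    unfold G
    ring

theorem lower_of {g : ℝ → ℝ} (hg : Continuous g) (hne : ∀ x, g x = 0 → x = 0) {L : ℝ} (hL : 0 < L)
    (M : ℝ) : ∃ c, 0 < c ∧ ∀ x, L ≤ |x| → |x| ≤ M → c ≤ |g x| := by
  rcases Set.eq_empty_or_nonempty {x : ℝ | L ≤ |x| ∧ |x| ≤ M} with he | hnem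
  · refine ⟨1, one_pos, fun x h1 h2 => ?_⟩
    have : x ∈ {x : ℝ | L ≤ |x| ∧ |x| ≤ M} := ⟨h1, h2⟩
    rw [he] at this
    exact absurd this (Set.notMem_empty x)
  · obtain ⟨z, hz, hmin⟩ := (isCompact_annulus L M).exists_isMinOn hnem (hg.abs.continuousOn)
    refine ⟨|g z|, abs_pos.2 fun h0 => ?_, fun x h1 h2 => hmin ⟨h1, h2⟩⟩
    have := hne z h0
    rw [this] at hz
    have h1 := hz.1
    rw [abs_zero] at h1
    linarith

/-- Orbits of a map `p` with `|x| = |p x| + |g x|` tend to zero. -/
theorem tends {p g : ℝ → ℝ} (hg : Continuous g) (hne : ∀ x, g x = 0 → x = 0)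
    (hrel : ∀ x, |x| = |p x| + |g x|) (x : ℝ) {ε : ℝ} (hε : 0 < ε) :
    ∃ n, ∀ m, n ≤ m → |p^[m] x| < ε := by
  have hanti : Antitone fun n => |p^[n] x| := antitone_nat_of_succ_le fun n => by
    rw [iterate_succ_apply']
    linarith [hrel (p^[n] x), abs_nonneg (g (p^[n] x))]
  have h1 : ∃ n, |p^[n] x| < ε := by
    by_contra hcon
    push Not at hcon
    obtain ⟨c, hc, h2⟩ := lower_of hg hne hε |x|
    have h3 : ∀ n : ℕ, |p^[n] x| ≤ |x| - n * c := by
      intro n
      induction n with
      | zero => simp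
      | succ n ih =>
        have h4 : |p^[n] x| ≤ |p^[0] x| := hanti (Nat.zero_le n)
        have h5 := h2 _ (hcon n) h4
        rw [iterate_succ_apply']
        push_cast
        linarith [hrel (p^[n] x)]
    obtain ⟨n, hn⟩ := exists_nat_gt (|x| / c)
    rw [div_lt_iff₀ hc] at hn
    linarith [h3 n, abs_nonneg (p^[n] x)]
  obtain ⟨n, hn⟩ := h1
  exact ⟨n, fun m hm => (hanti hm).trans_lt hn⟩

theorem TB.f0 (t : TB f) {x : ℝ} (hx : f x = 0) : x = 0 := by
  rcases lt_trichotomy x 0 with h1 | h1 | h1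
  · exact absurd hx (t.hp x h1).ne'
  · exact h1
  · exact absurd hx (t.hn x h1).ne

theorem TB.g0 (t : TB f) {x : ℝ} (hx : G f x = 0) : x = 0 := by
  rcases lt_trichotomy x 0 with h1 | h1 | h1
  · exact absurd hx (t.g2 x h1).ne
  · exact h1
  · exact absurd hx (t.g1 x h1).ne'

theorem TB.ginj (t : TB f) : Injective (G f) := by
  intro x y hxy
  by_contra hne
  have hd : 0 < |x - y| := abs_pos.2 (sub_ne_zero.2 hne)
  obtain ⟨n1, h1⟩ := tends t.h.cG (fun x => t.g0) t.rel x (half_pos hd)
  obtain ⟨n2, h2⟩ := tends t.h.cG (fun x => t.g0) t.rel y (half_pos hd)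
  have h3 : ∀ n : ℕ, |f^[n] x - f^[n] y| = |x - y| := by
    intro n
    induction n with
    | zero => rfl
    | succ n ih =>
      have h4 : G f (f^[n] x) = G f (f^[n] y) := by
        rw [(t.h.commute.symm.iterate_right n) x, (t.h.commute.symm.iterate_right n) y, hxy]
      unfold G at h4
      rw [iterate_succ_apply', iterate_succ_apply', ← ih]
      rw [show f (f^[n] x) - f (f^[n] y) = -(f^[n] x - f^[n] y) by linarith, abs_neg]
  have h4 := h1 (max n1 n2) (le_max_left _ _)
  have h5 := h2 (max n1 n2) (le_max_right _ _)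
  have h6 := abs_sub (f^[max n1 n2] x) (f^[max n1 n2] y)
  rw [h3] at h6
  linarith

theorem TB.finj (t : TB f) : Injective f := by
  intro x y hxy
  by_contra hne
  have hd : 0 < |x - y| := abs_pos.2 (sub_ne_zero.2 hne)
  have hrel : ∀ x, |x| = |G f x| + |f x| := fun x => by rw [t.rel x, add_comm]
  obtain ⟨n1, h1⟩ := tends t.h.c (fun x => t.f0) hrel x (half_pos hd)
  obtain ⟨n2, h2⟩ := tends t.h.c (fun x => t.f0) hrel y (half_pos hd)
  have h3 : ∀ n : ℕ, (G f)^[n] x - (G f)^[n] y = x - y := by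
    intro n
    induction n with
    | zero => rfl
    | succ n ih =>
      rw [iter_succ, iter_succ, t.h.iter, t.h.iter, hxy]
      linarith
  have h4 := h1 (max n1 n2) (le_max_left _ _)
  have h5 := h2 (max n1 n2) (le_max_right _ _)
  have h6 := abs_sub ((G f)^[max n1 n2] x) ((G f)^[max n1 n2] y)
  rw [h3] at h6
  linarith

theorem TB.gmono (t : TB f) : StrictMono (G f) := by
  rcases t.h.cG.strictMono_of_inj t.ginj with h1 | h1
  · exact h1
  · have := h1 one_pos
    rw [t.h.G0] at this
    linarith [t.g1 1 one_pos]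

theorem TB.fanti (t : TB f) : StrictAnti f := by
  rcases t.h.c.strictMono_of_inj t.finj with h1 | h1
  · have := h1 one_pos
    rw [t.h.zero] at this
    linarith [t.hn 1 one_pos]
  · exact h1

theorem TB.lt_abs_f (t : TB f) {x : ℝ} (hx : x ≠ 0) : |f x| < |x| := by
  have h1 := t.rel x
  have h2 : 0 < |G f x| := abs_pos.2 fun h0 => hx (t.g0 h0)
  linarith

theorem TB.lt_abs_g (t : TB f) {x : ℝ} (hx : x ≠ 0) : |G f x| < |x| := by
  have h1 := t.rel x
  have h2 : 0 < |f x| := abs_pos.2 fun h0 => hx (t.f0 h0)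
  linarith

theorem TB.g_unbdd (t : TB f) (C : ℝ) : ∃ x, C < G f x := by
  by_contra hcon
  push Not at hcon
  have hb : BddAbove (Set.range (G f)) := ⟨C, by rintro _ ⟨x, rfl⟩; exact hcon x⟩
  have hne : (Set.range (G f)).Nonempty := ⟨_, 0, rfl⟩
  set K := sSup (Set.range (G f)) with hK
  have hlt : ∀ x, G f x < K := fun x =>
    (t.gmono (lt_add_one x)).trans_le (le_csSup hb ⟨x + 1, rfl⟩)
  have hK0 : 0 < K := by
    have := hlt 0
    rwa [t.h.G0] at this
  -- `f` takes all negative values on the positive half-line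
  have h1 : ∀ y, y < 0 → ∃ x, 0 < x ∧ f x = y := by
    intro y hy
    have hX : f (K - y) ≤ y := by
      have := hlt (K - y)
      unfold G at this
      linarith
    obtain ⟨x, hx, hfx⟩ := intermediate_value_Icc' (show (0 : ℝ) ≤ K - y by linarith)
      t.h.c.continuousOn (show y ∈ Set.Icc (f (K - y)) (f 0) by
        rw [t.h.zero]
        exact ⟨hX, hy.le⟩)
    refine ⟨x, lt_of_le_of_ne hx.1 ?_, hfx⟩
    rintro rfl
    rw [t.h.zero] at hfx
    linarith
  have h2 : ∀ y, y < 0 → f K < G f y := by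
    intro y hy
    obtain ⟨x, hx, hfx⟩ := h1 y hy
    have := t.h.commute x
    rw [hfx] at this
    rw [← this]
    exact t.fanti (hlt x)
  have hfK : f K < 0 := t.hn K hK0
  have hfK2 : -f K < K := by
    have := t.lt_abs_f hK0.ne'
    rwa [abs_of_neg hfK, abs_of_pos hK0] at this
  have h3 : ∀ y, 0 < y → ∃ x, x < 0 ∧ f x = y := by
    intro y hy
    have hX : y ≤ f (f K - y) := by
      have := h2 (f K - y) (by linarith)
      unfold G at this
      linarith
    obtain ⟨x, hx, hfx⟩ := intermediate_value_Icc' (show f K - y ≤ (0 : ℝ) by linarith)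
      t.h.c.continuousOn (show y ∈ Set.Icc (f 0) (f (f K - y)) by
        rw [t.h.zero]
        exact ⟨hy.le, hX⟩)
    refine ⟨x, lt_of_le_of_ne hx.2 ?_, hfx⟩
    rintro rfl
    rw [t.h.zero] at hfx
    linarith
  have h4 : ∀ x, 0 < x → G f x < -f K := by
    intro x hx
    obtain ⟨y, hy, hfy⟩ := h3 x hx
    have h5 := t.h.commute y
    rw [hfy] at h5
    have h6 : f (G f y) < f (f K) := t.fanti (h2 y hy)
    have h7 := t.lt_abs_f hfK.ne
    rw [abs_of_pos (t.hp _ hfK), abs_of_neg hfK] at h7
    linarith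
  have h5 : K ≤ -f K := by
    apply csSup_le hne
    rintro _ ⟨x, rfl⟩
    rcases lt_trichotomy x 0 with h6 | h6 | h6
    · linarith [t.g2 x h6]
    · rw [h6, t.h.G0]
      linarith
    · exact (h4 x h6).le
  linarith

theorem TB.gsurj (t : TB f) : Surjective (G f) := by
  intro y
  apply mem_range_of_exists_le_of_exists_ge t.h.cG
  · obtain ⟨x, hx⟩ := t.mirror.g_unbdd (-y)
    rw [G_mirror] at hx
    exact ⟨-x, by linarith⟩
  · obtain ⟨x, hx⟩ := t.g_unbdd y
    exact ⟨x, hx.le⟩

theorem TB.f_unbdd (t : TB f) (C : ℝ) : ∃ x, f x < C := by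
  by_contra hcon
  push Not at hcon
  have hb : BddBelow (Set.range f) := ⟨C, by rintro _ ⟨x, rfl⟩; exact hcon x⟩
  have hne : (Set.range f).Nonempty := ⟨_, 0, rfl⟩
  set K := sInf (Set.range f) with hK
  have hlt : ∀ x, K < f x := fun x =>
    (csInf_le hb ⟨x + 1, rfl⟩).trans_lt (t.fanti (lt_add_one x))
  have hK0 : K < 0 := by
    have := hlt 0
    rwa [t.h.zero] at this
  have h1 : ∀ x, G f K ≤ f x := by
    intro x
    obtain ⟨y, hy⟩ := t.gsurj x
    rw [← hy, t.h.commute y]
    exact (t.gmono (hlt y)).le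
  have h2 : G f K ≤ K := le_csInf hne (by rintro _ ⟨x, rfl⟩; exact h1 x)
  have h3 := t.lt_abs_g hK0.ne
  rw [abs_of_neg (t.g2 K hK0), abs_of_neg hK0] at h3
  linarith

theorem TB.fsurj (t : TB f) : Surjective f := by
  intro y
  apply mem_range_of_exists_le_of_exists_ge t.h.c
  · obtain ⟨x, hx⟩ := t.f_unbdd y
    exact ⟨x, hx.le⟩
  · obtain ⟨x, hx⟩ := t.mirror.f_unbdd (-y)
    exact ⟨-x, by linarith⟩

theorem TB.linear (t : TB f) : ∃ a, ∀ x, f x = a * x := by
  let e : ℝ ≃o ℝ := StrictMono.orderIsoOfSurjective (G f) t.gmono t.gsurj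
  have he : ∀ x, G f (e.symm x) = x := fun x => e.apply_symm_apply x
  have he' : ∀ x, e.symm (G f x) = x := fun x => e.symm_apply_apply x
  have hcomm : ∀ y, f (e.symm y) = e.symm (f y) := by
    intro y
    rw [← he' (f (e.symm y)), ← t.h.commute (e.symm y), he]
  have hneg : ∀ x, x < 0 → e.symm x < 0 := by
    intro x hx
    by_contra h1
    push Not at h1
    have h2 := t.gmono.monotone h1
    rw [he, t.h.G0] at h2
    linarith
  have hP : Pair (fun x => f (e.symm x)) e.symm :=
    { ca := t.h.c.comp e.symm.continuous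
      cb := e.symm.continuous
      za := by
        intro x hx
        have h1 := t.f0 hx
        rw [← he x, h1, t.h.G0]
      b0 := by
        apply t.gmono.injective
        rw [he, t.h.G0]
      sa := t.fsurj.comp e.symm.surjective
      sb := e.symm.surjective
      comm := fun x => by
        show f (e.symm (e.symm x)) = e.symm (f (e.symm x))
        exact hcomm (e.symm x)
      rel := fun x => by
        have := t.rel (e.symm x)
        rw [he] at this
        linarith }
  obtain ⟨z, hz0, hz⟩ := hP.linear (Or.inr (Or.inr fun x hx => t.hp _ (hneg x hx)))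
  refine ⟨-z / (1 + z), fun y => ?_⟩
  have h1 := hz (G f y)
  simp only [he'] at h1
  have h2 : (1 + z) ≠ 0 := by positivity
  rw [div_mul_eq_mul_div, eq_div_iff h2]
  rcases lt_trichotomy y 0 with h3 | h3 | h3
  · rw [abs_of_pos (t.hp y h3), abs_of_neg (t.g2 y h3)] at h1
    unfold G at h1
    linarith
  · rw [h3, t.h.zero]
    ring
  · rw [abs_of_neg (t.hn y h3), abs_of_pos (t.g1 y h3)] at h1
    unfold G at h1
    linarith

/-! ### The classification -/

theorem classification (h : Sol f) : (∃ a, ∀ x, f x = a * x) ∨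
    ∃ a b, 0 ≤ a ∧ 0 ≤ b ∧ ∀ x, f x = if 0 ≤ x then a * x else b * x := by
  by_cases h1 : ∀ x, 0 ≤ x → 0 ≤ f x
  · obtain ⟨a, ha, hf1⟩ := h.half h1
    obtain ⟨b, hb, hf2⟩ := h.half' (h.mix' h1)
    right
    refine ⟨a, b, ha, hb, fun x => ?_⟩
    split_ifs with hx
    · exact hf1 x hx
    · exact hf2 x (not_le.1 hx).le
  by_cases h2 : ∀ x, x ≤ 0 → f x ≤ 0
  · exact absurd (h.mix h2) h1
  left
  have hP : P2 f := by
    constructor
    · intro ε hε
      by_contra hcon
      push Not at hcon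
      apply h1
      apply h.germ (half_pos hε)
      intro x hx0 hxε
      rcases hx0.lt_or_eq with h3 | h3
      · exact hcon x h3 (by linarith)
      · rw [← h3, h.zero]
    · intro ε hε
      by_contra hcon
      push Not at hcon
      apply h2
      apply h.germ' (half_pos hε)
      intro x hx0 hxε
      rcases hxε.lt_or_eq with h3 | h3
      · exact hcon x (by linarith) h3
      · rw [h3, h.zero]
  have hn := h.neg_all hP
  have hp := h.pos_all hP
  by_cases hK : ∃ w, w ≠ 0 ∧ G f w = 0
  · obtain ⟨w, hw0, hw⟩ := hK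
    refine ⟨-1, fun x => ?_⟩
    have := h.invol hn hp hw0 hw x
    unfold G at this
    linarith
  push Not at hK
  have hK' : ∀ x, G f x = 0 → x = 0 := fun x hx => by
    by_contra h3
    exact hK x h3 hx
  obtain ⟨hs1, hs2⟩ := const_sign h.cG hK'
  rcases hs1 with hs1 | hs1 <;> rcases hs2 with hs2 | hs2
  · have h3 := h.commute 1
    have h4 := hn _ (hs1 1 one_pos)
    have h5 := hs2 _ (hn 1 one_pos)
    linarith
  · exact TB.linear ⟨h, hn, hp, hs1, hs2⟩
  · exact h.typeC hn hp hs1 hs2
  · have h3 := h.commute 1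
    have h4 := hp _ (hs1 1 one_pos)
    have h5 := hs2 _ (hn 1 one_pos)
    linarith

end Pool.Agent.V11189.FE
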