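import Mathlib

set_option autoImplicit false

/-!
A countably infinite compact `T₁` space `Z` in which every compact set is closed and any two
nonempty open sets meet.  It is built from a maximal almost disjoint family of subsets of `ℕ`
containing the branches of the tree of finite sequences, every member of the family being given a
limit point.
-/

open Set Topology Filter

namespace Pool.Agent.V11189.AntiHausdorff

/-- The code of the first `n` values of `x`. -/
def code (x : ℕ → ℕ) (n : ℕ) : ℕ := Encodable.encode (List.ofFn (fun i : Fin n => x i))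

theorem code_inj {x y : ℕ → ℕ} {n m : ℕ} (h : code x n = code y m) :
    n = m ∧ ∀ i < n, x i = y i := by
  have h1 : List.ofFn (fun i : Fin n => x i) = List.ofFn (fun i : Fin m => y i) :=
    Encodable.encode_injective h
  have hl : n = m := by
    have := congrArg List.length h1
    simpa using this
  subst hl
  refine ⟨rfl, fun i hi => ?_⟩
  have h2 := List.ofFn_injective h1
  exact congrFun h2 ⟨i, hi⟩

/-- The branch of `x`. -/
def br (x : ℕ → ℕ) : Set ℕ := range (code x)

theorem br_infinite (x : ℕ → ℕ) : (br x).Infinite :=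
  infinite_range_of_injective fun _ _ h => (code_inj h).1

theorem br_inter {x y : ℕ → ℕ} (h : x ≠ y) : (br x ∩ br y).Finite := by
  obtain ⟨k, hk⟩ := Function.ne_iff.1 h
  apply ((Set.finite_Iic k).image (code x)).subset
  rintro _ ⟨⟨n, rfl⟩, ⟨m, hm⟩⟩
  refine ⟨n, ?_, rfl⟩
  rw [mem_Iic]
  by_contra hn
  push Not at hn
  obtain ⟨h1, h2⟩ := code_inj hm
  exact hk (h2 k (by omega)).symm

theorem br_injective : Function.Injective br := by
  intro x y h
  by_contra hne
  have := br_inter hne
  rw [h, inter_self] at this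
  exact br_infinite y this

/-- Almost disjoint families of infinite sets. -/
def AD (F : Set (Set ℕ)) : Prop :=
  (∀ A ∈ F, A.Infinite) ∧ ∀ A ∈ F, ∀ B ∈ F, A ≠ B → (A ∩ B).Finite

theorem ad_range : AD (range br) := by
  constructor
  · rintro _ ⟨x, rfl⟩
    exact br_infinite x
  · rintro _ ⟨x, rfl⟩ _ ⟨y, rfl⟩ h
    exact br_inter fun hxy => h (by rw [hxy])

theorem exists_mad : ∃ M : Set (Set ℕ), range br ⊆ M ∧ AD M ∧
    ∀ B : Set ℕ, B.Infinite → ∃ A ∈ M, (A ∩ B).Infinite := by
  obtain ⟨M, hM, hmax⟩ := zorn_subset_nonempty {F | AD F} (by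
    intro c hc hchain _
    refine ⟨⋃₀ c, ?_, fun s hs => subset_sUnion_of_mem hs⟩
    constructor
    · rintro A ⟨F, hF, hA⟩
      exact (hc hF).1 A hA
    · rintro A ⟨F, hF, hA⟩ B ⟨G, hG, hB⟩ hAB
      rcases hchain.total hF hG with h | h
      · exact (hc hG).2 A (h hA) B hB hAB
      · exact (hc hF).2 A hA B (h hB) hAB) (range br) ad_range
  refine ⟨M, hM, hmax.prop, fun B hB => ?_⟩
  by_contra hcon
  push Not at hcon
  have hfin : ∀ A ∈ M, (A ∩ B).Finite := hcon
  have hAD : AD (insert B M) := by
    constructor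
    · rintro A (rfl | hA)
      · exact hB
      · exact hmax.prop.1 A hA
    · rintro A (rfl | hA) C (rfl | hC) hAC
      · exact absurd rfl hAC
      · rw [inter_comm]
        exact hfin C hC
      · exact hfin A hA
      · exact hmax.prop.2 A hA C hC hAC
  have hBM : B ∈ M := hmax.le_of_ge hAD (subset_insert B M) (mem_insert B M)
  have := hfin B hBM
  rw [inter_self] at this
  exact hB this

/-- The maximal almost disjoint family. -/
noncomputable def M : Set (Set ℕ) := exists_mad.choose

theorem br_mem (x : ℕ → ℕ) : br x ∈ M := exists_mad.choose_spec.1 ⟨x, rfl⟩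

theorem ad_M : AD M := exists_mad.choose_spec.2.1

theorem mad_M (B : Set ℕ) (hB : B.Infinite) : ∃ A ∈ M, (A ∩ B).Infinite :=
  exists_mad.choose_spec.2.2 B hB

/-- `x` is eventually equal to `m`. -/
def Ev (x : ℕ → ℕ) (m : ℕ) : Prop := ∃ N, ∀ i ≥ N, x i = m

theorem ev_unique {x : ℕ → ℕ} {m m' : ℕ} (h : Ev x m) (h' : Ev x m') : m = m' := by
  obtain ⟨N, hN⟩ := h
  obtain ⟨N', hN'⟩ := h'
  rw [← hN (max N N') (le_max_left _ _), ← hN' (max N N') (le_max_right _ _)]

open Classical in
/-- The label of a sequence: its eventual value, if there is one, and its first value if not. -/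
noncomputable def g (x : ℕ → ℕ) : ℕ := if h : ∃ m, Ev x m then h.choose else x 0

theorem g_ev {x : ℕ → ℕ} {m : ℕ} (h : Ev x m) : g x = m := by
  have hex : ∃ m, Ev x m := ⟨m, h⟩
  rw [g, dif_pos hex]
  exact ev_unique hex.choose_spec h

theorem g_not {x : ℕ → ℕ} (h : ∀ m, ¬ Ev x m) : g x = x 0 := by
  rw [g, dif_neg]
  rintro ⟨m, hm⟩
  exact h m hm

open Classical in
/-- The limit point given to a set. -/
noncomputable def f (A : Set ℕ) : ℕ := if h : ∃ x, br x = A then g h.choose else 0

theorem f_br (x : ℕ → ℕ) : f (br x) = g x := by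
  have hex : ∃ y, br y = br x := ⟨x, rfl⟩
  rw [f, dif_pos hex]
  exact congrArg g (br_injective hex.choose_spec)

/-- The underlying set of the space. -/
def Z : Type := ℕ

/-- A set is open iff it contains almost all elements of each member of the family whose limit
point it contains. -/
instance : TopologicalSpace Z where
  IsOpen U := ∀ A ∈ M, f A ∈ (U : Set ℕ) → (A \ (U : Set ℕ)).Finite
  isOpen_univ := by
    intro A _ _
    refine finite_empty.subset ?_
    rintro a ⟨_, ha⟩
    exact ha trivial
  isOpen_inter := by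
    intro U V hU hV A hA hf
    have h1 := hU A hA hf.1
    have h2 := hV A hA hf.2
    refine (h1.union h2).subset ?_
    rintro a ⟨haA, ha⟩
    by_cases haU : a ∈ (U : Set ℕ)
    · exact Or.inr ⟨haA, fun haV => ha ⟨haU, haV⟩⟩
    · exact Or.inl ⟨haA, haU⟩
  isOpen_sUnion := by
    rintro T hT A hA ⟨U, hU, hf⟩
    refine (hT U hU A hA hf).subset ?_
    rintro a ⟨haA, ha⟩
    exact ⟨haA, fun haU => ha ⟨U, hU, haU⟩⟩

theorem isOpen_Z {U : Set Z} :
    IsOpen U ↔ ∀ A ∈ M, f A ∈ (U : Set ℕ) → (A \ (U : Set ℕ)).Finite := Iff.rfl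

instance : T1Space Z := by
  constructor
  intro x
  rw [← isOpen_compl_iff, isOpen_Z]
  intro A _ _
  refine (finite_singleton (x : ℕ)).subset ?_
  rintro a ⟨_, ha⟩
  by_contra hax
  exact ha hax

instance : Infinite Z := inferInstanceAs (Infinite ℕ)

instance : CompactSpace Z := by
  constructor
  apply isCompact_of_finite_subcover
  intro ι U hUo hU
  by_contra hcon
  push Not at hcon
  have hex : ∀ n : Z, ∃ i, n ∈ U i := fun n => by simpa using hU (mem_univ n)
  choose i hi using hex
  have hb : ∀ n : ℕ, ∃ b : Z, ∀ j : ℕ, j ≤ n → b ∉ U (i j) := by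
    intro n
    classical
    have := hcon ((Finset.range (n + 1)).image i)
    rw [not_subset] at this
    obtain ⟨b, _, hb⟩ := this
    refine ⟨b, fun j hj hbj => hb ?_⟩
    rw [mem_iUnion₂]
    exact ⟨i j, Finset.mem_image_of_mem i (Finset.mem_range.2 (Nat.lt_succ_of_le hj)), hbj⟩
  choose b hb using hb
  have key : ∀ j : ℕ, (range (b : ℕ → ℕ) ∩ (U (i j) : Set ℕ)).Finite := by
    intro j
    refine ((finite_Iio j).image b).subset ?_
    rintro _ ⟨⟨n, rfl⟩, hn⟩
    refine ⟨n, ?_, rfl⟩
    rw [mem_Iio]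
    by_contra hjn
    push Not at hjn
    exact hb n j hjn hn
  have hinf : (range (b : ℕ → ℕ)).Infinite := by
    intro hfin
    obtain ⟨v, hv⟩ : ∃ v : ℕ, {n : ℕ | b n = v}.Infinite := by
      by_contra hno
      push Not at hno
      have : (univ : Set ℕ) ⊆ ⋃ v ∈ range (b : ℕ → ℕ), {n : ℕ | b n = v} := by
        intro n _
        rw [mem_iUnion₂]
        exact ⟨b n, ⟨n, rfl⟩, rfl⟩
      exact infinite_univ ((hfin.biUnion fun v _ => hno v).subset this)
    have hlt : {n : ℕ | b n = v} ⊆ Iio v := by
      intro n hn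
      rw [mem_Iio]
      by_contra hvn
      push Not at hvn
      apply hb n v hvn
      have hn' : b n = v := hn
      rw [hn']
      exact hi v
    exact hv ((finite_Iio v).subset hlt)
  obtain ⟨A, hA, hAB⟩ := mad_M _ hinf
  have h1 : (A \ (U (i (f A)) : Set ℕ)).Finite := isOpen_Z.1 (hUo (i (f A))) A hA (hi (f A))
  apply hAB
  refine (h1.union (key (f A))).subset ?_
  rintro a ⟨haA, haB⟩
  by_cases haU : a ∈ (U (i (f A)) : Set ℕ)
  · exact Or.inr ⟨haB, haU⟩
  · exact Or.inl ⟨haA, haU⟩

/-- Compact subsets of `Z` are closed. -/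
theorem isClosed_of_isCompact {K : Set Z} (hK : IsCompact K) : IsClosed K := by
  rw [← isOpen_compl_iff, isOpen_Z]
  intro A hA hfA
  by_contra hinf
  have hinf' : (A ∩ (K : Set ℕ)).Infinite := by
    intro hfin
    apply hinf
    refine hfin.subset ?_
    rintro a ⟨haA, haK⟩
    refine ⟨haA, ?_⟩
    by_contra h
    exact haK h
  have hfK : (f A : Z) ∉ K := hfA
  let V : Z → Set Z := fun b => {y : Z | (y ∉ (A : Set ℕ) ∨ y = b) ∧ y ≠ (f A : Z)}
  have hV : ∀ b, IsOpen (V b) := by
    intro b
    rw [isOpen_Z]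
    intro A' hA' hf
    have hne : A' ≠ A := by
      rintro rfl
      exact hf.2 rfl
    have h1 := ad_M.2 A' hA' A hA hne
    refine (h1.union (finite_singleton (f A))).subset ?_
    rintro a ⟨haA', ha⟩
    by_cases haf : a = f A
    · exact Or.inr haf
    · left
      refine ⟨haA', ?_⟩
      by_contra haA
      exact ha ⟨Or.inl haA, haf⟩
  obtain ⟨t, ht⟩ := hK.elim_finite_subcover V hV (by
    intro b hb
    rw [mem_iUnion]
    refine ⟨b, Or.inr rfl, ?_⟩
    rintro rfl
    exact hfK hb)
  apply hinf'
  refine (t.finite_toSet).subset ?_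
  rintro a ⟨haA, haK⟩
  have := ht haK
  rw [mem_iUnion₂] at this
  obtain ⟨b, hbt, hab⟩ := this
  rcases hab.1 with h | h
  · exact absurd haA h
  · have h' : a = b := h
    rw [h']
    exact hbt

/-- Changing a sequence to the constant `m` from `L` on. -/
def cut (x : ℕ → ℕ) (m L : ℕ) : ℕ → ℕ := fun i => if i < L then x i else m

theorem tendsto_cut (x : ℕ → ℕ) (m : ℕ) : Tendsto (fun L => cut x m L) atTop (𝓝 x) := by
  rw [tendsto_pi_nhds]
  intro i
  apply tendsto_const_nhds.congr'
  filter_upwards [eventually_gt_atTop i] with L hL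
  simp [cut, hL]

theorem ev_cut (x : ℕ → ℕ) (m L : ℕ) : Ev (cut x m L) m :=
  ⟨L, fun i hi => by simp [cut, not_lt.2 hi]⟩

/-- Any two nonempty open sets of `Z` meet. -/
theorem open_inter {U V : Set Z} (hU : IsOpen U) (hV : IsOpen V) (hUn : U.Nonempty)
    (hVn : V.Nonempty) : (U ∩ V).Nonempty := by
  obtain ⟨n, hn⟩ := hUn
  obtain ⟨m, hm⟩ := hVn
  let E : ℕ → Set (ℕ → ℕ) := fun k => {x | ∀ j ≥ k, code x j ∈ (U : Set ℕ)}
  have hE : ∀ k, IsClosed (E k) := by
    intro k
    have : E k = ⋂ j ≥ k, {x | code x j ∈ (U : Set ℕ)} := by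
      ext x
      simp [E]
    rw [this]
    refine isClosed_iInter fun j => isClosed_iInter fun _ => ?_
    have hc : Continuous (fun x : ℕ → ℕ => code x j) := by
      have h1 : Continuous (fun x : ℕ → ℕ => fun i : Fin j => x i) := by fun_prop
      have h2 : Continuous (fun y : Fin j → ℕ => Encodable.encode (List.ofFn y)) :=
        continuous_of_discreteTopology
      exact h2.comp h1
    let U' : Set ℕ := U
    have hU' : IsClosed U' := isClosed_discrete U'
    exact hU'.preimage hc
  let F : ℕ × ℕ → Set (ℕ → ℕ) := fun p => {x | ∀ i ≥ p.2, x i = p.1}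
  have hF : ∀ p, IsClosed (F p) := by
    intro p
    have : F p = ⋂ i ≥ p.2, {x | x i = p.1} := by
      ext x
      simp [F]
    rw [this]
    refine isClosed_iInter fun i => isClosed_iInter fun _ => ?_
    exact isClosed_eq (continuous_apply i) continuous_const
  let W : Set (ℕ → ℕ) := {x | x 0 = (n : ℕ)}
  have hc0 : Continuous (fun x : ℕ → ℕ => x 0) := continuous_apply 0
  let n' : ℕ := n
  have hn' : IsOpen ({n'} : Set ℕ) := isOpen_discrete _
  have hWo : IsOpen W := hn'.preimage hc0
  let G : Option (ℕ ⊕ (ℕ × ℕ)) → Set (ℕ → ℕ) := fun o =>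
    match o with
    | none => Wᶜ
    | some (Sum.inl k) => E k
    | some (Sum.inr p) => F p
  have hG : ∀ o, IsClosed (G o) := by
    intro o
    match o with
    | none => exact hWo.isClosed_compl
    | some (Sum.inl k) => exact hE k
    | some (Sum.inr p) => exact hF p
  have hcov : ⋃ o, G o = univ := by
    rw [eq_univ_iff_forall]
    intro x
    rw [mem_iUnion]
    by_cases hx : x ∈ W
    · by_cases hev : ∃ a, Ev x a
      · obtain ⟨a, N, hN⟩ := hev
        exact ⟨some (Sum.inr (a, N)), hN⟩
      · push Not at hev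
        have hgx : g x = (n : ℕ) := by rw [g_not hev]; exact hx
        have hfin : (br x \ (U : Set ℕ)).Finite := by
          apply isOpen_Z.1 hU (br x) (br_mem x)
          rw [f_br, hgx]
          exact hn
        have hpre : {j | code x j ∉ (U : Set ℕ)}.Finite := by
          have hinj : Function.Injective (code x) := fun _ _ h => (code_inj h).1
          refine Set.Finite.of_finite_image (f := code x) (hfin.subset ?_) hinj.injOn
          rintro _ ⟨j, hj, rfl⟩
          exact ⟨⟨j, rfl⟩, hj⟩
        obtain ⟨k, hk⟩ := hpre.bddAbove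
        refine ⟨some (Sum.inl (k + 1)), fun j hj => ?_⟩
        by_contra hcon
        have := hk hcon
        omega
    · exact ⟨none, hx⟩
  haveI : BaireSpace (ℕ → ℕ) := by
    letI := TopologicalSpace.upgradeIsCompletelyMetrizable (ℕ → ℕ)
    infer_instance
  have hdense := dense_iUnion_interior_of_closed hG hcov
  obtain ⟨x, hxW, hx⟩ := hdense.inter_open_nonempty W hWo ⟨fun _ => (n : ℕ), rfl⟩
  rw [mem_iUnion] at hx
  obtain ⟨o, ho⟩ := hx
  match o, ho with
  | none, ho => exact absurd hxW (interior_subset ho)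
  | some (Sum.inr p), ho =>
    exfalso
    have h1 := (tendsto_cut x (p.1 + 1)).eventually (isOpen_interior.mem_nhds ho)
    obtain ⟨L, hL⟩ := h1.exists
    have h2 := interior_subset hL
    have h3 : cut x (p.1 + 1) L (max L p.2) = p.1 := h2 (max L p.2) (le_max_right _ _)
    simp [cut] at h3
  | some (Sum.inl k), ho =>
    have h1 := (tendsto_cut x (m : ℕ)).eventually (isOpen_interior.mem_nhds ho)
    obtain ⟨L, hL⟩ := h1.exists
    have h2 : cut x (m : ℕ) L ∈ E k := interior_subset hL
    set y := cut x (m : ℕ) L with hy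
    have hgy : g y = (m : ℕ) := g_ev (ev_cut x m L)
    have hfin : (br y \ (V : Set ℕ)).Finite := by
      apply isOpen_Z.1 hV (br y) (br_mem y)
      rw [f_br, hgy]
      exact hm
    have hfin2 : (br y \ (U : Set ℕ)).Finite := by
      refine ((finite_Iio k).image (code y)).subset ?_
      rintro _ ⟨⟨j, rfl⟩, hj⟩
      refine ⟨j, ?_, rfl⟩
      rw [mem_Iio]
      by_contra hkj
      push Not at hkj
      exact hj (h2 j hkj)
    have : (br y \ ((br y \ (V : Set ℕ)) ∪ (br y \ (U : Set ℕ)))).Infinite :=
      (br_infinite y).diff (hfin.union hfin2)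
    obtain ⟨a, ha, ha'⟩ := this.nonempty
    refine ⟨a, ?_, ?_⟩
    · by_contra h
      exact ha' (Or.inr ⟨ha, h⟩)
    · by_contra h
      exact ha' (Or.inl ⟨ha, h⟩)

/-- `Z` is not the union of two proper compact subsets. -/
theorem not_union {K L : Set Z} (hK : IsCompact K) (hL : IsCompact L) (h : K ∪ L = univ) :
    K = univ ∨ L = univ := by
  by_contra hcon
  push Not at hcon
  obtain ⟨h1, h2⟩ := hcon
  have h3 := open_inter (isClosed_of_isCompact hK).isOpen_compl
    (isClosed_of_isCompact hL).isOpen_compl (nonempty_compl.2 h1) (nonempty_compl.2 h2)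
  rw [← compl_union, h, compl_univ] at h3
  exact not_nonempty_empty h3

end Pool.Agent.V11189.AntiHausdorff
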