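import Pool.Agent.V11189.AntiHausdorff

set_option autoImplicit false

/-! Co-sober spaces: definitions and basic facts. -/

open Set Topology

namespace Pool.Agent.V11189.CoSober

variable {X : Type} [TopologicalSpace X]

/-- The specialization order: `x ≤ y` iff `x` lies in the closure of `{y}`. -/
def Le (x y : X) : Prop := x ∈ closure {y}

/-- Saturated sets: intersections of open sets. -/
def IsSat (A : Set X) : Prop := ∃ T : Set (Set X), (∀ U ∈ T, IsOpen U) ∧ A = ⋂₀ T

/-- `A ∈ K(X)`: `A` is a nonempty compact saturated set. -/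
def IsKSet (A : Set X) : Prop := A.Nonempty ∧ IsCompact A ∧ IsSat A

/-- `G ∈ K(X)` is k-irreducible: it is not the union of two other members of `K(X)`. -/
def IsKIrreducible (G : Set X) : Prop :=
  IsKSet G ∧ ∀ K₁ K₂ : Set X, IsKSet K₁ → IsKSet K₂ → G = K₁ ∪ K₂ → G = K₁ ∨ G = K₂

variable (X) in
/-- Co-sober spaces: `T₀` spaces in which every k-irreducible set is the up-set of a point. -/
def IsCoSober : Prop :=
  T0Space X ∧ ∀ G : Set X, IsKIrreducible G → ∃ k : X, G = {y | Le k y}

theorem le_iff {x y : X} : Le x y ↔ ∀ U, IsOpen U → x ∈ U → y ∈ U := by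
  rw [Le, ← specializes_iff_mem_closure, specializes_iff_forall_open]

theorem le_refl' (x : X) : Le x x := le_iff.2 fun _ _ h => h

theorem sat_iff {A : Set X} : IsSat A ↔ ∀ x ∈ A, ∀ y, Le x y → y ∈ A := by
  constructor
  · rintro ⟨T, hT, rfl⟩ x hx y hxy U hU
    exact le_iff.1 hxy U (hT U hU) (hx U hU)
  · intro h
    refine ⟨{U | IsOpen U ∧ A ⊆ U}, fun U hU => hU.1, ?_⟩
    apply Subset.antisymm
    · intro x hx U hU
      exact hU.2 hx
    · intro y hy
      by_contra hyA
      have h1 : (closure {y})ᶜ ∈ {U : Set X | IsOpen U ∧ A ⊆ U} := by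
        refine ⟨isClosed_closure.isOpen_compl, fun x hx hxy => hyA (h x hx y hxy)⟩
      exact hy _ h1 (subset_closure rfl)

theorem sat_of_t1 [T1Space X] (A : Set X) : IsSat A := by
  rw [sat_iff]
  intro x hx y hxy
  have : x = y := by
    have h : x ∈ closure {y} := hxy
    rwa [closure_singleton, mem_singleton_iff] at h
  rwa [← this]

theorem up_t1 [T1Space X] (x : X) : {y | Le x y} = {x} := by
  ext y
  have : Le x y ↔ y = x := by
    show x ∈ closure {y} ↔ y = x
    rw [closure_singleton, mem_singleton_iff, eq_comm]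
  exact this

/-- A `T₁` space in which all subsets are compact is co-sober. -/
theorem coSober_of_all_compact [T1Space X] (h : ∀ A : Set X, IsCompact A) : IsCoSober X := by
  refine ⟨inferInstance, fun G hG => ?_⟩
  obtain ⟨x, hx⟩ := hG.1.1
  refine ⟨x, ?_⟩
  rw [up_t1]
  by_contra hne
  have hne2 : (G \ {x}).Nonempty := by
    by_contra hemp
    rw [not_nonempty_iff_eq_empty] at hemp
    apply hne
    apply Subset.antisymm
    · intro y hy
      by_contra hyx
      have : y ∈ G \ {x} := ⟨hy, hyx⟩
      rw [hemp] at this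
      exact this
    · rintro y rfl
      exact hx
  have hu : G = {x} ∪ (G \ {x}) := by
    ext y
    constructor
    · intro hy
      by_cases hyx : y = x
      · exact Or.inl hyx
      · exact Or.inr ⟨hy, hyx⟩
    · rintro (hy | hy)
      · rw [mem_singleton_iff.1 hy]; exact hx
      · exact hy.1
  rcases hG.2 {x} (G \ {x}) ⟨singleton_nonempty x, h _, sat_of_t1 _⟩ ⟨hne2, h _, sat_of_t1 _⟩ hu
    with h1 | h1
  · exact hne h1
  · rw [h1] at hx
    exact hx.2 rfl

end Pool.Agent.V11189.CoSober
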