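import Pool.Agent.V11189.KChains

set_option autoImplicit false

open Set Topology Cardinal Pool.Agent.V11189.KChains

namespace Pool.Agent.V11189.Fan

/-- The Cantor space. -/
abbrev C : Type := ℕ → Bool

theorem exists_inj : ∃ a : W 0 → C, Function.Injective a := by
  have h1 : #(W 0) ≤ #C := by
    rw [mk_W]
    have h2 : #C = 𝔠 := by simp
    rw [h2]
    exact Order.succ_le_of_lt (cantor' _ (by norm_num : (1 : Cardinal) < 2)) |>.trans
      (by rw [two_power_aleph0])
  obtain ⟨f⟩ := h1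
  exact ⟨f, f.injective⟩

/-- An injection of `ω₁` into the Cantor space. -/
noncomputable def a : W 0 → C := exists_inj.choose

theorem a_inj : Function.Injective a := exists_inj.choose_spec

theorem countable_Iio (x : W 0) : Countable (Iio x) := by
  have h : #(Iio x) < c 0 := by
    have h1 := Cardinal.mk_Iio_lt x (by
      rw [mk_W]
      exact (Ordinal.type_toType _).symm)
    rwa [mk_W] at h1
  rw [← mk_le_aleph0_iff]
  exact Order.lt_succ_iff.1 h

/-- The space. -/
inductive X : Type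
  | base (c : C) : X
  | iso (α : W 0) (n j : ℕ) : X

instance : TopologicalSpace X where
  IsOpen U := IsOpen {c : C | X.base c ∈ U} ∧ ∀ c, X.base c ∈ U → ∃ V : Set C, IsOpen V ∧ c ∈ V ∧
    ∃ m : ℕ, ∀ α, a α ∈ V → ∀ n j, (a α ≠ c ∨ m ≤ n) → X.iso α n j ∈ U
  isOpen_univ := ⟨isOpen_univ, fun _ _ => ⟨univ, isOpen_univ, trivial, 0, fun _ _ _ _ _ => trivial⟩⟩
  isOpen_inter := by
    rintro U V ⟨hU1, hU2⟩ ⟨hV1, hV2⟩
    refine ⟨hU1.inter hV1, ?_⟩
    rintro c ⟨h1, h2⟩
    obtain ⟨W1, h3, h4, m1, h5⟩ := hU2 c h1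
    obtain ⟨W2, h6, h7, m2, h8⟩ := hV2 c h2
    refine ⟨W1 ∩ W2, h3.inter h6, ⟨h4, h7⟩, max m1 m2, ?_⟩
    rintro α ⟨h9, h10⟩ n j h11
    refine ⟨h5 α h9 n j (h11.imp id fun h => (le_max_left _ _).trans h),
      h8 α h10 n j (h11.imp id fun h => (le_max_right _ _).trans h)⟩
  isOpen_sUnion := by
    intro T hT
    constructor
    · have : {c : C | X.base c ∈ ⋃₀ T} = ⋃ U ∈ T, {c : C | X.base c ∈ U} := by
        ext x
        simp
      rw [this]
      exact isOpen_biUnion fun U hU => (hT U hU).1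
    · rintro c ⟨U, hU, hc⟩
      obtain ⟨V, h1, h2, m, h3⟩ := (hT U hU).2 c hc
      exact ⟨V, h1, h2, m, fun α h4 n j h5 => ⟨U, hU, h3 α h4 n j h5⟩⟩

theorem isOpen_X {U : Set X} : IsOpen U ↔ IsOpen {c : C | X.base c ∈ U} ∧ ∀ c, X.base c ∈ U →
    ∃ V : Set C, IsOpen V ∧ c ∈ V ∧ ∃ m : ℕ, ∀ α, a α ∈ V → ∀ n j, (a α ≠ c ∨ m ≤ n) →
      X.iso α n j ∈ U := Iff.rfl

/-- Sets of isolated points are open. -/
theorem isOpen_iso {S : Set X} (hS : ∀ c, X.base c ∉ S) : IsOpen S := by
  rw [isOpen_X]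
  constructor
  · have : {c : C | X.base c ∈ S} = ∅ := eq_empty_of_forall_notMem fun c hc => hS c hc
    rw [this]
    exact isOpen_empty
  · intro c hc
    exact absurd hc (hS c)

/-- Basic neighbourhoods of the points of the Cantor space. -/
def nb (V : Set C) (m : ℕ) (c : C) : Set X :=
  {x | (∃ c', x = X.base c' ∧ c' ∈ V) ∨ ∃ α n j, x = X.iso α n j ∧ a α ∈ V ∧ (a α ≠ c ∨ m ≤ n)}

theorem base_mem_nb {V : Set C} {m : ℕ} {c c' : C} : X.base c' ∈ nb V m c ↔ c' ∈ V := by
  constructor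
  · rintro (⟨d, hd, h⟩ | ⟨α, n, j, h, _⟩)
    · cases hd
      exact h
    · cases h
  · intro h
    exact Or.inl ⟨c', rfl, h⟩

theorem iso_mem_nb {V : Set C} {m : ℕ} {c : C} {α : W 0} {n j : ℕ} :
    X.iso α n j ∈ nb V m c ↔ a α ∈ V ∧ (a α ≠ c ∨ m ≤ n) := by
  constructor
  · rintro (⟨d, hd, h⟩ | ⟨α', n', j', h, h'⟩)
    · cases hd
    · cases h
      exact h'
  · intro h
    exact Or.inr ⟨α, n, j, rfl, h⟩

theorem isOpen_nb {V : Set C} (hV : IsOpen V) (m : ℕ) (c : C) : IsOpen (nb V m c) := by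
  rw [isOpen_X]
  constructor
  · have : {c' : C | X.base c' ∈ nb V m c} = V := by
      ext c'
      exact base_mem_nb
    rw [this]
    exact hV
  · intro c' hc'
    rw [base_mem_nb] at hc'
    by_cases h : c' = c
    · subst h
      refine ⟨V, hV, hc', m, fun α h1 n j h2 => ?_⟩
      rw [iso_mem_nb]
      exact ⟨h1, h2⟩
    · refine ⟨V ∩ {c}ᶜ, hV.inter isOpen_compl_singleton, ⟨hc', h⟩, 0, fun α h1 n j _ => ?_⟩
      rw [iso_mem_nb]
      exact ⟨h1.1, Or.inl h1.2⟩

theorem isClosed_iso (α : W 0) (n j : ℕ) : IsClosed ({X.iso α n j} : Set X) := by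
  rw [← isOpen_compl_iff, isOpen_X]
  constructor
  · have : {c : C | X.base c ∈ ({X.iso α n j} : Set X)ᶜ} = Set.univ :=
      eq_univ_of_forall fun c h => by cases h
    rw [this]
    exact isOpen_univ
  · intro c _
    by_cases hc : a α = c
    · refine ⟨univ, isOpen_univ, trivial, n + 1, ?_⟩
      rintro β _ n' j' h1 h2
      cases h2
      rcases h1 with h1 | h1
      · exact h1 hc
      · omega
    · refine ⟨{a α}ᶜ, isOpen_compl_singleton, fun h => hc h.symm, 0, ?_⟩
      rintro β hβ n' j' _ h2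
      cases h2
      exact hβ rfl

instance : T2Space X := by
  constructor
  intro x y hxy
  cases x with
  | iso α n j =>
    refine ⟨{X.iso α n j}, {X.iso α n j}ᶜ, isOpen_iso (fun c h => by cases h),
      (isClosed_iso α n j).isOpen_compl, rfl, fun h => hxy h.symm, disjoint_compl_right⟩
  | base c =>
    cases y with
    | iso α n j =>
      refine ⟨{X.iso α n j}ᶜ, {X.iso α n j}, (isClosed_iso α n j).isOpen_compl,
        isOpen_iso (fun c h => by cases h), fun h => hxy h, rfl, disjoint_compl_left⟩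
    | base d =>
      have hcd : c ≠ d := fun h => hxy (by rw [h])
      obtain ⟨V, V', hV, hV', hc, hd, hdis⟩ := t2_separation hcd
      refine ⟨nb V 0 c, nb V' 0 d, isOpen_nb hV 0 c, isOpen_nb hV' 0 d, base_mem_nb.2 hc,
        base_mem_nb.2 hd, ?_⟩
      rw [Set.disjoint_left]
      intro z hz hz'
      cases z with
      | base e => exact Set.disjoint_left.1 hdis (base_mem_nb.1 hz) (base_mem_nb.1 hz')
      | iso α n j =>
        exact Set.disjoint_left.1 hdis (iso_mem_nb.1 hz).1 (iso_mem_nb.1 hz').1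

instance : FirstCountableTopology X := by
  constructor
  intro x
  cases x with
  | iso α n j =>
    have h1 : 𝓝 (X.iso α n j) = pure (X.iso α n j) := by
      apply le_antisymm _ (pure_le_nhds _)
      rw [Filter.le_pure_iff]
      exact (isOpen_iso (S := {X.iso α n j}) (fun c h => by cases h)).mem_nhds rfl
    rw [h1]
    infer_instance
  | base c =>
    obtain ⟨V, hV⟩ := (𝓝 c).exists_antitone_basis
    have hb : (𝓝 (X.base c)).HasBasis (fun _ : ℕ => True) (fun k => nb (V k) k c) := by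
      constructor
      intro S
      constructor
      · intro hS
        obtain ⟨U, hUS, hU, hcU⟩ := mem_nhds_iff.1 hS
        obtain ⟨V', h1, h2, m, h3⟩ := (isOpen_X.1 hU).2 c hcU
        obtain ⟨k, hk⟩ := hV.mem_iff.1 (Filter.inter_mem (h1.mem_nhds h2)
          ((isOpen_X.1 hU).1.mem_nhds hcU))
        refine ⟨max k m, trivial, ?_⟩
        intro x hx
        apply hUS
        have hk' : V (max k m) ⊆ V' ∩ {c : C | X.base c ∈ U} :=
          (hV.antitone (le_max_left k m)).trans hk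
        cases x with
        | base d => exact (hk' (base_mem_nb.1 hx)).2
        | iso α n j =>
          obtain ⟨h4, h5⟩ := iso_mem_nb.1 hx
          exact h3 α (hk' h4).1 n j (h5.imp id fun h => (le_max_right k m).trans h)
      · rintro ⟨k, _, hk⟩
        obtain ⟨V', h1, h2, h3⟩ := mem_nhds_iff.1 (hV.mem_of_mem trivial : V k ∈ 𝓝 c)
        refine Filter.mem_of_superset ((isOpen_nb h2 k c).mem_nhds (base_mem_nb.2 h3)) ?_
        refine Subset.trans ?_ hk
        intro x hx
        cases x with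
        | base d => exact base_mem_nb.2 (h1 (base_mem_nb.1 hx))
        | iso α n j =>
          obtain ⟨h4, h5⟩ := iso_mem_nb.1 hx
          exact iso_mem_nb.2 ⟨h1 h4, h5⟩
    exact hb.isCountablyGenerated

/-! ### The compact sets -/

/-- The compact set of non-isolated points. -/
def base : Set X := range X.base

theorem isCompact_base : IsCompact base := by
  have : Continuous X.base := by
    rw [continuous_def]
    intro U hU
    exact hU.1
  exact isCompact_range this

/-- Open sets around `base` contain almost all columns. -/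
theorem open_base {U : Set X} (hU : IsOpen U) (hb : base ⊆ U) :
    ∃ m : W 0 →₀ ℕ, {α | ∃ n j, X.iso α n j ∉ U}.Finite ∧ ∀ α n j, m α ≤ n → X.iso α n j ∈ U := by
  classical
  have h1 : ∀ c : C, ∃ V : Set C, IsOpen V ∧ c ∈ V ∧ ∃ m : ℕ, ∀ α, a α ∈ V → ∀ n j,
      (a α ≠ c ∨ m ≤ n) → X.iso α n j ∈ U := fun c => (isOpen_X.1 hU).2 c (hb ⟨c, rfl⟩)
  choose V hV hcV m hm using h1
  obtain ⟨t, ht⟩ := isCompact_univ.elim_finite_subcover V hV (fun c _ => mem_iUnion.2 ⟨c, hcV c⟩)
  have hfin : {α : W 0 | a α ∈ t}.Finite :=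
    t.finite_toSet.preimage (a_inj.injOn)
  have hgood : ∀ α, a α ∉ t → ∀ n j, X.iso α n j ∈ U := by
    intro α hα n j
    obtain ⟨c, hc, hcα⟩ := mem_iUnion₂.1 (ht (mem_univ (a α)))
    exact hm c α hcα n j (Or.inl fun h => hα (h ▸ hc))
  refine ⟨Finsupp.onFinset hfin.toFinset (fun α => if a α ∈ t then m (a α) else 0) ?_, ?_, ?_⟩
  · intro α hα
    rw [Set.Finite.mem_toFinset]
    by_contra h
    apply hα
    exact if_neg h
  · apply hfin.subset
    rintro α ⟨n, j, h⟩
    by_contra hα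
    exact h (hgood α hα n j)
  · intro α n j hn
    by_cases hα : a α ∈ t
    · have h2 : m (a α) ≤ n := by
        have : (if a α ∈ t then m (a α) else 0) ≤ n := hn
        rwa [if_pos hα] at this
      exact hm (a α) α (hcV _) n j (Or.inr h2)
    · exact hgood α hα n j

/-- A code for functions supported below `x`. -/
noncomputable def code (x : W 0) (m : W 0 →₀ ℕ) : ℕ :=
  haveI := countable_Iio x
  (exists_injective_nat (Iio x →₀ ℕ)).choose (m.subtypeDomain (fun y => y ∈ Iio x))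

theorem code_inj (x : W 0) {m m' : W 0 →₀ ℕ} (hm : ∀ y ∈ m.support, y < x)
    (hm' : ∀ y ∈ m'.support, y < x) (h : code x m = code x m') : m = m' := by
  have := countable_Iio x
  have h1 := (exists_injective_nat (Iio x →₀ ℕ)).choose_spec h
  ext y
  by_cases hy : y < x
  · have := DFunLike.congr_fun h1 ⟨y, hy⟩
    simpa using this
  · have h2 : m y = 0 := by
      by_contra h2
      exact hy (hm y (Finsupp.mem_support_iff.2 h2))
    have h3 : m' y = 0 := by
      by_contra h3
      exact hy (hm' y (Finsupp.mem_support_iff.2 h3))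
    rw [h2, h3]

/-- The sets `S_m`. -/
def S (m : W 0 →₀ ℕ) : Set X := {x | ∃ α, x = X.iso α (m α) (code α m)}

theorem isCompact_union (m : W 0 →₀ ℕ) : IsCompact (base ∪ S m) := by
  classical
  apply isCompact_of_finite_subcover
  intro ι U hU hcov
  obtain ⟨t, ht⟩ := isCompact_base.elim_finite_subcover U hU (subset_union_left.trans hcov)
  obtain ⟨_, hfin, _⟩ := open_base (isOpen_biUnion fun i (_ : i ∈ t) => hU i) ht
  have h1 : ∀ α : W 0, ∃ i, X.iso α (m α) (code α m) ∈ U i := fun α =>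
    mem_iUnion.1 (hcov (Or.inr ⟨α, rfl⟩))
  choose i hi using h1
  refine ⟨t ∪ hfin.toFinset.image i, ?_⟩
  rintro x (hx | ⟨α, rfl⟩)
  · obtain ⟨k, hk, hxk⟩ := mem_iUnion₂.1 (ht hx)
    exact mem_iUnion₂.2 ⟨k, Finset.mem_union_left _ hk, hxk⟩
  · by_cases h2 : X.iso α (m α) (code α m) ∈ ⋃ i ∈ t, U i
    · obtain ⟨k, hk, hxk⟩ := mem_iUnion₂.1 h2
      exact mem_iUnion₂.2 ⟨k, Finset.mem_union_left _ hk, hxk⟩
    · exact mem_iUnion₂.2 ⟨i α, Finset.mem_union_right _ (Finset.mem_image_of_mem i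
        (hfin.mem_toFinset.2 ⟨_, _, h2⟩)), hi α⟩

/-- A compact set contains only finitely many of the sets `S_m`. -/
theorem finite_S {L : Set X} (hL : IsCompact L) : {m : W 0 →₀ ℕ | S m ⊆ L}.Finite := by
  classical
  by_contra hinf
  have hinf' : {m : W 0 →₀ ℕ | S m ⊆ L}.Infinite := hinf
  let f := hinf'.natEmbedding
  have h1 : ∀ k, ∃ w : W 0, ∀ y ∈ ((f k : {m : W 0 →₀ ℕ | S m ⊆ L}) : W 0 →₀ ℕ).support, y ≤ w := by
    intro k
    obtain ⟨w, hw⟩ := ((f k : {m : W 0 →₀ ℕ | S m ⊆ L}) : W 0 →₀ ℕ).support.bddAbove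
    exact ⟨w, fun y hy => hw hy⟩
  choose w hw using h1
  obtain ⟨x, hx⟩ := bdd_nat w
  have hsupp : ∀ k, ∀ y ∈ ((f k : {m : W 0 →₀ ℕ | S m ⊆ L}) : W 0 →₀ ℕ).support, y < x :=
    fun k y hy => (hw k y hy).trans_lt (hx k)
  -- the closed discrete set
  let D : Set X := {z | ∃ j, z = X.iso x 0 j}
  have hD : IsClosed D := by
    rw [← isOpen_compl_iff, isOpen_X]
    constructor
    · have : {c : C | X.base c ∈ Dᶜ} = Set.univ :=
        eq_univ_of_forall fun c h => by
          obtain ⟨j, hj⟩ := h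
          cases hj
      rw [this]
      exact isOpen_univ
    · intro c _
      by_cases hc : a x = c
      · refine ⟨univ, isOpen_univ, trivial, 1, ?_⟩
        rintro β _ n' j' h1 ⟨j, h2⟩
        cases h2
        rcases h1 with h1 | h1
        · exact h1 hc
        · omega
      · refine ⟨{a x}ᶜ, isOpen_compl_singleton, fun h => hc h.symm, 0, ?_⟩
        rintro β hβ n' j' _ ⟨j, h2⟩
        cases h2
        exact hβ rfl
  obtain ⟨t, ht⟩ := (hL.inter_right hD).elim_finite_subcover (fun j : ℕ => {X.iso x 0 j})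
    (fun j => isOpen_iso (fun c h => by cases h)) (by
      rintro z ⟨_, j, rfl⟩
      exact mem_iUnion.2 ⟨j, rfl⟩)
  -- infinitely many points of `L ∩ D`
  let g : ℕ → ℕ := fun k => code x ((f k : {m : W 0 →₀ ℕ | S m ⊆ L}) : W 0 →₀ ℕ)
  have hg : Function.Injective g := by
    intro k l hkl
    apply f.injective
    apply Subtype.ext
    exact code_inj x (hsupp k) (hsupp l) hkl
  have hgt : range g ⊆ (t : Set ℕ) := by
    rintro _ ⟨k, rfl⟩
    have h2 : ((f k : {m : W 0 →₀ ℕ | S m ⊆ L}) : W 0 →₀ ℕ) x = 0 := by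
      by_contra h2
      exact lt_irrefl _ (hsupp k x (Finsupp.mem_support_iff.2 h2))
    have h3 : X.iso x 0 (g k) ∈ L := by
      have h4 := (f k).2
      apply h4
      refine ⟨x, ?_⟩
      rw [h2]
    obtain ⟨j, hj, hj'⟩ := mem_iUnion₂.1 (ht ⟨h3, g k, rfl⟩)
    have h5 : X.iso x 0 (g k) = X.iso x 0 j := hj'
    injection h5 with _ _ h6
    rw [h6]
    exact hj
  exact infinite_range_of_injective hg (t.finite_toSet.subset hgt)

end Pool.Agent.V11189.Fan
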