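import Pool.Agent.V11189.FeHausdorff

set_option autoImplicit false

open Function

namespace Pool.Agent.V11189.FE

/-- Two commuting maps of the line, `β` expanding, with `|β x| = |x| + |α x|`. -/
structure Pair (α β : ℝ → ℝ) : Prop where
  ca : Continuous α
  cb : Continuous β
  za : ∀ x, α x = 0 → x = 0
  b0 : β 0 = 0
  sa : Surjective α
  sb : Surjective β
  comm : ∀ x, α (β x) = β (α x)
  rel : ∀ x, |β x| = |x| + |α x|

variable {α β : ℝ → ℝ}

theorem Pair.zb (h : Pair α β) {x : ℝ} (hx : β x = 0) : x = 0 := by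
  have := h.rel x
  rw [hx, abs_zero] at this
  have h1 := abs_nonneg x
  have h2 := abs_nonneg (α x)
  exact abs_eq_zero.1 (by linarith)

theorem Pair.a0 (h : Pair α β) : α 0 = 0 := by
  have := h.rel 0
  rw [h.b0, abs_zero, zero_add] at this
  exact abs_eq_zero.1 this.symm

theorem Pair.commute (h : Pair α β) : Function.Commute α β := h.comm

/-- Auxiliary points for the construction of arrays. -/
def V (α β : ℝ → ℝ) (y : ℕ → ℝ) (N a b : ℕ) : ℝ := α^[a] (β^[b] (y N))

theorem V_a (y : ℕ → ℝ) (N a b : ℕ) : α (V α β y N a b) = V α β y N (a + 1) b :=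
  (iterate_succ_apply' α a _).symm

theorem V_b (h : Pair α β) (y : ℕ → ℝ) (N a b : ℕ) :
    β (V α β y N a b) = V α β y N a (b + 1) := by
  unfold V
  rw [iterate_succ_apply' β b]
  exact ((h.commute.iterate_left a) _).symm

theorem V_diag (h : Pair α β) (y : ℕ → ℝ) (hy : ∀ k, α (β (y (k + 1))) = y k) (N a b : ℕ) :
    V α β y (N + 1) (a + 1) (b + 1) = V α β y N a b := by
  unfold V
  rw [iterate_succ_apply α a, iterate_succ_apply β b, (h.commute.iterate_right b) _, hy]

theorem V_diag' (h : Pair α β) (y : ℕ → ℝ) (hy : ∀ k, α (β (y (k + 1))) = y k) (m n : ℤ)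
    (N : ℕ) (h1 : 0 ≤ m + N) (h2 : 0 ≤ -m - n + N) (k : ℕ) :
    V α β y (N + k) (m + (N + k : ℕ)).toNat (-m - n + (N + k : ℕ)).toNat =
      V α β y N (m + N).toNat (-m - n + N).toNat := by
  induction k with
  | zero => rfl
  | succ k ih =>
    rw [← ih]
    have h3 : (m + (N + (k + 1) : ℕ)).toNat = (m + (N + k : ℕ)).toNat + 1 := by
      push_cast
      omega
    have h4 : (-m - n + (N + (k + 1) : ℕ)).toNat = (-m - n + (N + k : ℕ)).toNat + 1 := by
      push_cast
      omega
    rw [h3, h4, ← Nat.add_assoc, V_diag h y hy]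

/-- The data of a two-sided orbit array. -/
structure Arr (α β : ℝ → ℝ) (U : ℤ → ℤ → ℝ) : Prop where
  hb : ∀ m n, β (U m (n + 1)) = U m n
  ha : ∀ m n, α (U m (n + 1)) = U (m + 1) n
  ne : ∀ m n, U m n ≠ 0

theorem exists_arr (h : Pair α β) {x : ℝ} (hx : x ≠ 0) : ∃ U, Arr α β U ∧ U 0 0 = x := by
  -- a backward orbit of `α ∘ β`
  have hT : Surjective (α ∘ β) := h.sa.comp h.sb
  let y : ℕ → ℝ := fun k => Nat.rec x (fun _ z => Function.surjInv hT z) k
  have hy : ∀ k, α (β (y (k + 1))) = y k := fun k => Function.surjInv_eq hT (y k)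
  have hy0 : ∀ k, y k ≠ 0 := by
    intro k
    induction k with
    | zero => exact hx
    | succ k ih =>
      intro h0
      apply ih
      rw [← hy k, h0, h.b0, h.a0]
  have ha0 : ∀ a (z : ℝ), z ≠ 0 → α^[a] z ≠ 0 := by
    intro a
    induction a with
    | zero => exact fun z hz => hz
    | succ a ih =>
      intro z hz h0
      rw [iterate_succ_apply' α a] at h0
      exact ih z hz (h.za _ h0)
  have hb0 : ∀ a (z : ℝ), z ≠ 0 → β^[a] z ≠ 0 := by
    intro a
    induction a with
    | zero => exact fun z hz => hz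
    | succ a ih =>
      intro z hz h0
      rw [iterate_succ_apply' β a] at h0
      exact ih z hz (h.zb h0)
  let N0 : ℤ → ℤ → ℕ := fun m n => m.natAbs + n.natAbs
  let U : ℤ → ℤ → ℝ := fun m n =>
    V α β y (N0 m n) (m + N0 m n).toNat (-m - n + N0 m n).toNat
  have hU : ∀ m n (N : ℕ), N0 m n ≤ N →
      U m n = V α β y N (m + N).toNat (-m - n + N).toNat := by
    intro m n N hN
    obtain ⟨k, rfl⟩ := Nat.exists_eq_add_of_le hN
    exact (V_diag' h y hy m n (N0 m n) (by simp only [N0, Nat.cast_add]; omega)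
      (by simp only [N0, Nat.cast_add]; omega) k).symm
  refine ⟨U, ⟨?_, ?_, ?_⟩, ?_⟩
  · intro m n
    let N := N0 m n + N0 m (n + 1)
    rw [hU m (n + 1) N (Nat.le_add_left _ _), hU m n N (Nat.le_add_right _ _), V_b h]
    congr 1
    simp only [N, N0, Nat.cast_add]
    omega
  · intro m n
    let N := N0 m (n + 1) + N0 (m + 1) n
    rw [hU m (n + 1) N (Nat.le_add_right _ _), hU (m + 1) n N (Nat.le_add_left _ _),
      V_a (α := α) (β := β)]
    congr 1
    · simp only [N, N0, Nat.cast_add]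
      omega
    · simp only [N, N0, Nat.cast_add]
      omega
  · intro m n
    exact ha0 _ _ (hb0 _ _ (hy0 _))
  · simp only [U, N0, V]
    rfl

/-! ### Absolute values of arrays -/

section
variable {U : ℤ → ℤ → ℝ}

theorem Arr.pascal (h : Pair α β) (hU : Arr α β U) (m n : ℤ) :
    |U m n| = |U (m + 1) n| + |U m (n + 1)| := by
  have := h.rel (U m (n + 1))
  rw [hU.hb, hU.ha] at this
  rw [this, add_comm]

theorem Arr.pos (hU : Arr α β U) (m n : ℤ) : 0 < |U m n| := abs_pos.2 (hU.ne m n)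

/-- Log-convexity for nonnegative Pascal arrays on `ℤ × ℤ`, first direction. -/
theorem lc1 (H : ℤ → ℤ → ℝ) (h0 : ∀ m n, 0 ≤ H m n)
    (hr : ∀ m n, H m n = H (m + 1) n + H m (n + 1)) (m n : ℤ) :
    H (m + 1) n ^ 2 ≤ H m n * H (m + 2) n := by
  have := log_convex (fun a b => H (m + a) (n + b)) (fun a b => h0 _ _) (fun a b => by
    have := hr (m + a) (n + b)
    push_cast
    rw [this]
    ring_nf)
  push_cast at this
  simpa using this

theorem lc2 (H : ℤ → ℤ → ℝ) (h0 : ∀ m n, 0 ≤ H m n)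
    (hr : ∀ m n, H m n = H (m + 1) n + H m (n + 1)) (m n : ℤ) :
    H m (n + 1) ^ 2 ≤ H m n * H m (n + 2) :=
  lc1 (fun a b => H b a) (fun a b => h0 b a) (fun a b => by
    have := hr b a
    linarith) n m

/-- The expansion ratio. -/
noncomputable def Q (U : ℤ → ℤ → ℝ) (m n : ℤ) : ℝ := |U m (n - 1)| / |U m n|

theorem Q_eq (hU : Arr α β U) (m n : ℤ) : Q U m n = |β (U m n)| / |U m n| := by
  unfold Q
  have := hU.hb m (n - 1)
  rw [sub_add_cancel] at this
  rw [this]

theorem Q_n (h : Pair α β) (hU : Arr α β U) (m n : ℤ) : Q U m (n + 1) ≤ Q U m n := by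
  unfold Q
  rw [add_sub_cancel_right, div_le_div_iff₀ (hU.pos _ _) (hU.pos _ _)]
  have := lc2 (fun m n => |U m n|) (fun _ _ => abs_nonneg _) (hU.pascal h) m (n - 1)
  rw [sub_add_cancel, show n - 1 + 2 = n + 1 by ring] at this
  nlinarith

theorem Q_m (h : Pair α β) (hU : Arr α β U) (m n : ℤ) : Q U m n ≤ Q U (m + 1) n := by
  unfold Q
  rw [div_le_div_iff₀ (hU.pos _ _) (hU.pos _ _)]
  have h1 := lc1 (fun m n => |U m n|) (fun _ _ => abs_nonneg _) (hU.pascal h) m (n - 1)
  have h2 := hU.pascal h m (n - 1)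
  have h3 := hU.pascal h (m + 1) (n - 1)
  rw [sub_add_cancel] at h2 h3
  rw [show m + 1 + 1 = m + 2 by ring] at h3
  have h4 : |U m n| = |U m (n - 1)| - |U (m + 1) (n - 1)| := by linarith
  have h5 : |U (m + 1) n| = |U (m + 1) (n - 1)| - |U (m + 2) (n - 1)| := by linarith
  rw [h4, h5]
  nlinarith

theorem Q_mono (h : Pair α β) (hU : Arr α β U) {m m' n n' : ℤ} (hm : m ≤ m') (hn : n' ≤ n) :
    Q U m n ≤ Q U m' n' := by
  have h1 : Q U m n ≤ Q U m' n := by
    have : Monotone fun k => Q U k n := monotone_int_of_le_succ fun k => Q_m h hU k n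
    exact this hm
  have h2 : Q U m' n ≤ Q U m' n' := by
    have : Antitone fun k => Q U m' k := antitone_int_of_succ_le fun k => Q_n h hU m' k
    exact this hn
  exact h1.trans h2

end

end Pool.Agent.V11189.FE
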