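import Pool.Agent.V11189.FeLevel

set_option autoImplicit false

open Function Filter Topology

namespace Pool.Agent.V11189.FE

variable {α β : ℝ → ℝ} {U : ℤ → ℤ → ℝ} {q q' t s y : ℝ}

theorem M.beta (hM : M α β q t) (h : Pair α β) : M α β q (β t) :=
  ⟨fun h0 => hM.1 (h.zb h0), fun k l => by
    rw [← iterate_succ_apply β l]
    exact hM.2 k (l + 1)⟩

theorem M.alpha (hM : M α β q t) (h : Pair α β) : M α β q (α t) :=
  ⟨fun h0 => hM.1 (h.za _ h0), fun k l => by
    rw [← (h.commute.iterate_right l) t, ← iterate_succ_apply α k]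
    exact hM.2 (k + 1) l⟩

/-- The defect array. -/
theorem defect (h : Pair α β) (hU : Arr α β U) (hq : ∀ m n, Q U m n ≤ q) :
    (∀ m n, 0 ≤ q * |U m n| - |U m (n - 1)|) ∧
    (∀ m n, q * |U m n| - |U m (n - 1)| = (q * |U (m + 1) n| - |U (m + 1) (n - 1)|) +
      (q * |U m (n + 1)| - |U m (n + 1 - 1)|)) := by
  constructor
  · intro m n
    have := hq m n
    unfold Q at this
    rw [div_le_iff₀ (hU.pos _ _)] at this
    linarith
  · intro m n
    have h1 := hU.pascal h m n
    have h2 := hU.pascal h m (n - 1)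
    rw [sub_add_cancel] at h2
    rw [add_sub_cancel_right, h1]
    linarith

theorem M_iff (hU : Arr α β U) (h : Pair α β) (m n : ℤ) :
    M α β q (U m n) ↔ ∀ k l : ℕ, q * |U (m + k) (n - k - l)| - |U (m + k) (n - k - l - 1)| = 0 := by
  constructor
  · intro hM k l
    have := hM.2 k l
    rw [hU.shift h] at this
    have h1 := hU.hb (m + k) (n - k - l - 1)
    rw [sub_add_cancel] at h1
    rw [h1] at this
    linarith
  · intro hM
    refine ⟨hU.ne _ _, fun k l => ?_⟩
    have := hM k l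
    rw [hU.shift h]
    have h1 := hU.hb (m + k) (n - k - l - 1)
    rw [sub_add_cancel] at h1
    rw [h1]
    linarith

theorem Q_le_of (h : Pair α β) (hU : Arr α β U) {m0 n0 : ℤ} (hM : M α β q (U m0 n0)) (m n : ℤ) :
    Q U m n ≤ q := by
  let k : ℕ := (m - m0).toNat
  let l : ℕ := (n0 - n).toNat
  have h1 : Q U m n ≤ Q U (m0 + k) (n0 - k - l) := Q_mono h hU (by omega) (by omega)
  have h2 : Q U (m0 + k) (n0 - k - l) = q := by
    rw [Q_eq hU, ← hU.shift h, hM.2 k l]
    rw [hU.shift h]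
    exact mul_div_cancel_right₀ _ (hU.pos _ _).ne'
  rw [← h2]
  exact h1

theorem M_of_beta (h : Pair α β) (hy : M α β q (β y)) : M α β q y := by
  have hy0 : y ≠ 0 := by
    rintro rfl
    exact hy.1 h.b0
  obtain ⟨U, hU, hU0⟩ := exists_arr h hy0
  have h1 : β y = U 0 (-1) := by
    rw [← hU0, ← hU.hb 0 (-1)]
    simp
  rw [h1] at hy
  obtain ⟨hD, hP⟩ := defect h hU (Q_le_of h hU hy)
  rw [M_iff hU h] at hy
  rw [← hU0, M_iff hU h]
  intro k l
  have h2 := hy k l
  have h3 := hP (0 + k) (-1 - k - l)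
  rw [h2] at h3
  have h4 := hD (0 + k + 1) (-1 - k - l)
  have h5 := hD (0 + k) (-1 - k - l + 1)
  have h6 : (-1 - (k : ℤ) - l + 1) = 0 - k - l := by ring
  rw [h6] at h3 h5
  linarith

theorem M_of_alpha (h : Pair α β) (hy : M α β q (α y)) : M α β q y := by
  have hy0 : y ≠ 0 := by
    rintro rfl
    exact hy.1 h.a0
  obtain ⟨U, hU, hU0⟩ := exists_arr h hy0
  have h1 : α y = U 1 (-1) := by
    have := hU.ha 0 (-1)
    norm_num at this
    rw [← hU0, this]
  rw [h1] at hy
  obtain ⟨hD, hP⟩ := defect h hU (Q_le_of h hU hy)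
  rw [M_iff hU h] at hy
  rw [← hU0, M_iff hU h]
  -- the column `m = 0`
  have hcol : ∀ l : ℕ, q * |U 0 (-1 - l)| - |U 0 (-1 - l - 1)| = 0 := by
    intro l
    have h2 := lc1 (fun m n => q * |U m n| - |U m (n - 1)|) hD hP (-1) (-1 - l)
    have h3 := hy 0 l
    norm_num at h2 h3
    rw [h3, mul_zero] at h2
    have h4 : (q * |U 0 (-1 - l)| - |U 0 (-1 - l - 1)|) ^ 2 = 0 := le_antisymm h2 (sq_nonneg _)
    exact pow_eq_zero_iff (two_ne_zero) |>.1 h4
  intro k l
  rcases Nat.eq_zero_or_pos k with rfl | hk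
  · rcases Nat.eq_zero_or_pos l with rfl | hl
    · have h2 := hP 0 (-1)
      have h3 := hcol 0
      have h4 := hD (0 + 1) (-1)
      have h5 := hD 0 0
      norm_num at h2 h3 h4 h5 ⊢
      linarith
    · have h3 := hcol (l - 1)
      have h4 : (-1 - ((l - 1 : ℕ) : ℤ)) = 0 - (0 : ℕ) - l := by
        push_cast [Nat.cast_sub hl]
        ring
      rw [h4] at h3
      simpa using h3
  · have h2 := hy (k - 1) l
    have h4 : (1 + ((k - 1 : ℕ) : ℤ)) = 0 + k := by
      push_cast [Nat.cast_sub hk]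
      ring
    have h5 : (-1 - ((k - 1 : ℕ) : ℤ) - l) = 0 - k - l := by
      push_cast [Nat.cast_sub hk]
      ring
    rw [h4, h5] at h2
    exact h2

/-- Signs: `β ∘ β` preserves the sign. -/
theorem beta_beta_pos (h : Pair α β) {x : ℝ} (hx : 0 < x) : 0 < β (β x) := by
  have hsgn : ∀ x y : ℝ, 0 < x → 0 < y → 0 < β x → 0 < β y := by
    intro x y hx hy hbx
    by_contra hcon
    push Not at hcon
    have h1 : (0 : ℝ) ∈ Set.uIcc (β x) (β y) := by
      rw [Set.mem_uIcc]
      exact Or.inr ⟨hcon, hbx.le⟩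
    obtain ⟨z, hz, hz0⟩ := intermediate_value_uIcc h.cb.continuousOn h1
    have := h.zb hz0
    rw [this, Set.mem_uIcc] at hz
    rcases hz with hz | hz <;> linarith
  have hsgn' : ∀ x y : ℝ, x < 0 → y < 0 → 0 < β x → 0 < β y := by
    intro x y hx hy hbx
    by_contra hcon
    push Not at hcon
    have h1 : (0 : ℝ) ∈ Set.uIcc (β x) (β y) := by
      rw [Set.mem_uIcc]
      exact Or.inr ⟨hcon, hbx.le⟩
    obtain ⟨z, hz, hz0⟩ := intermediate_value_uIcc h.cb.continuousOn h1
    have := h.zb hz0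
    rw [this, Set.mem_uIcc] at hz
    rcases hz with hz | hz <;> linarith
  have hne : ∀ x : ℝ, x ≠ 0 → β x ≠ 0 := fun x hx h0 => hx (h.zb h0)
  by_cases hb : 0 < β x
  · exact hsgn _ _ hx hb hb
  · have hb' : β x < 0 := lt_of_le_of_ne (not_lt.1 hb) (hne x hx.ne')
    obtain ⟨z, hz⟩ := h.sb 1
    have hz0 : z ≠ 0 := by
      rintro rfl
      rw [h.b0] at hz
      exact zero_ne_one hz
    rcases lt_or_gt_of_ne hz0 with hz1 | hz1
    · exact hsgn' z _ hz1 hb' (by rw [hz]; exact one_pos)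
    · exact absurd (hsgn z x hz1 hx (by rw [hz]; exact one_pos)) hb

theorem beta_beta_neg (h : Pair α β) {x : ℝ} (hx : x < 0) : β (β x) < 0 := by
  have hsgn : ∀ x y : ℝ, 0 < x → 0 < y → β x < 0 → β y < 0 := by
    intro x y hx hy hbx
    by_contra hcon
    push Not at hcon
    have h1 : (0 : ℝ) ∈ Set.uIcc (β x) (β y) := by
      rw [Set.mem_uIcc]
      exact Or.inl ⟨hbx.le, hcon⟩
    obtain ⟨z, hz, hz0⟩ := intermediate_value_uIcc h.cb.continuousOn h1
    have := h.zb hz0
    rw [this, Set.mem_uIcc] at hz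
    rcases hz with hz | hz <;> linarith
  have hsgn' : ∀ x y : ℝ, x < 0 → y < 0 → β x < 0 → β y < 0 := by
    intro x y hx hy hbx
    by_contra hcon
    push Not at hcon
    have h1 : (0 : ℝ) ∈ Set.uIcc (β x) (β y) := by
      rw [Set.mem_uIcc]
      exact Or.inl ⟨hbx.le, hcon⟩
    obtain ⟨z, hz, hz0⟩ := intermediate_value_uIcc h.cb.continuousOn h1
    have := h.zb hz0
    rw [this, Set.mem_uIcc] at hz
    rcases hz with hz | hz <;> linarith
  have hne : ∀ x : ℝ, x ≠ 0 → β x ≠ 0 := fun x hx h0 => hx (h.zb h0)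
  by_cases hb : β x < 0
  · exact hsgn' _ _ hx hb hb
  · have hb' : 0 < β x := lt_of_le_of_ne (not_lt.1 hb) (hne x hx.ne).symm
    obtain ⟨z, hz⟩ := h.sb (-1)
    have hz0 : z ≠ 0 := by
      rintro rfl
      rw [h.b0] at hz
      linarith
    rcases lt_or_gt_of_ne hz0 with hz1 | hz1
    · exact absurd (hsgn' z x hz1 hx (by rw [hz]; linarith)) hb
    · exact hsgn z _ hz1 hb' (by rw [hz]; linarith)

theorem M.abs_beta (hM : M α β q t) : |β t| = q * |t| := hM.2 0 0

theorem M.beta_beta (hM : M α β q t) (h : Pair α β) (ht : 0 < t) : β (β t) = q ^ 2 * t := by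
  have h1 := hM.abs_beta
  have h2 := (hM.beta h).abs_beta
  rw [abs_of_pos (beta_beta_pos h ht), h1, abs_of_pos ht] at h2
  rw [h2]
  ring

theorem M.q_gt (hM : M α β q t) (h : Pair α β) : 1 < q := by
  have h1 := hM.abs_beta
  rw [h.rel] at h1
  have h2 : 0 < |α t| := abs_pos.2 fun h0 => hM.1 (h.za _ h0)
  have h3 : 0 < |t| := abs_pos.2 hM.1
  by_contra hcon
  push Not at hcon
  nlinarith

theorem M.div (hM : M α β q s) (h : Pair α β) (hs : 0 < s) : M α β q (s / q ^ 2) := by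
  obtain ⟨y, hy⟩ := (h.sb.comp h.sb) s
  simp only [comp_apply] at hy
  have hy1 : M α β q y := M_of_beta h (M_of_beta h (by rw [hy]; exact hM))
  have hy2 : 0 < y := by
    rcases lt_trichotomy y 0 with h1 | h1 | h1
    · have := beta_beta_neg h h1
      linarith
    · exact absurd h1 hy1.1
    · exact h1
  have h3 := hy1.beta_beta h hy2
  have hq := hM.q_gt h
  have h4 : s / q ^ 2 = y := by
    rw [← hy, h3]
    field_simp
  rw [h4]
  exact hy1

theorem M.iter (hM : M α β q t) (h : Pair α β) (ht : 0 < t) (n : ℕ) :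
    (β ∘ β)^[n] t = (q ^ 2) ^ n * t ∧ M α β q ((β ∘ β)^[n] t) := by
  induction n with
  | zero => simpa using hM
  | succ n ih =>
    obtain ⟨h1, h2⟩ := ih
    have hq := hM.q_gt h
    have hpos : 0 < (β ∘ β)^[n] t := by
      rw [h1]
      positivity
    rw [iterate_succ_apply' (β ∘ β) n]
    refine ⟨?_, (h2.beta h).beta h⟩
    rw [comp_apply, h2.beta_beta h hpos, h1]
    ring

theorem M_of_iter (h : Pair α β) (n : ℕ) : ∀ y, M α β q ((β ∘ β)^[n] y) → M α β q y := by
  induction n with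
  | zero => exact fun y hy => hy
  | succ n ih =>
    intro y hy
    rw [iterate_succ_apply (β ∘ β) n] at hy
    exact M_of_beta h (M_of_beta h (ih _ hy))

/-- The ratio is unique. -/
theorem M_unique_lt (h : Pair α β) (ht : 0 < t) (hs : 0 < s) (hMt : M α β q t)
    (hMs : M α β q' s) (hlt : q < q') : False := by
  have hq := hMt.q_gt h
  have hq' := hMs.q_gt h
  -- elements of `M q'` below `t`
  have hsmall : ∀ k : ℕ, M α β q' (s / (q' ^ 2) ^ k) := by
    intro k
    induction k with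
    | zero => simpa using hMs
    | succ k ih =>
      have := ih.div h (by positivity)
      rw [div_div, ← pow_succ] at this
      exact this
  let A : Set ℝ := {x | 0 < x ∧ x ≤ t ∧ M α β q' x}
  have hA : A.Nonempty := by
    have h1 : (1 : ℝ) < q' ^ 2 := by nlinarith
    obtain ⟨k, hk⟩ := ((tendsto_pow_atTop_atTop_of_one_lt h1).eventually_ge_atTop (s / t)).exists
    refine ⟨s / (q' ^ 2) ^ k, by positivity, ?_, hsmall k⟩
    rw [div_le_iff₀ (by positivity)]
    rw [div_le_iff₀ ht] at hk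
    linarith
  have hAb : BddAbove A := ⟨t, fun x hx => hx.2.1⟩
  obtain ⟨a, haA⟩ := hA
  have hs1pos : 0 < sSup A := haA.1.trans_le (le_csSup hAb haA)
  have hs1t : sSup A ≤ t := csSup_le ⟨a, haA⟩ fun x hx => hx.2.1
  have hcl : sSup A ∈ closure A := csSup_mem_closure ⟨a, haA⟩ hAb
  have hMs1 : M α β q' (sSup A) := by
    refine ⟨hs1pos.ne', fun k l => ?_⟩
    have hc : Continuous fun x => α^[k] (β^[l] x) := (h.ca.iterate k).comp (h.cb.iterate l)
    have hcl' : IsClosed {x | |β (α^[k] (β^[l] x))| = q' * |α^[k] (β^[l] x)|} :=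
      isClosed_eq (h.cb.comp hc).abs (continuous_const.mul hc.abs)
    exact (hcl'.closure_subset_iff.2 (fun x hx => hx.2.2.2 k l)) hcl
  have hne : sSup A ≠ t := by
    intro h0
    rw [h0] at hMs1
    have h1 := hMt.abs_beta
    rw [hMs1.abs_beta] at h1
    have h2 : 0 < |t| := abs_pos.2 ht.ne'
    nlinarith
  -- a large power
  have h1 : (1 : ℝ) < q' ^ 2 / q ^ 2 := by
    rw [one_lt_div (by positivity)]
    nlinarith
  obtain ⟨n, hn⟩ := ((tendsto_pow_atTop_atTop_of_one_lt h1).eventually_ge_atTop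
    (q' ^ 2 * t / sSup A)).exists
  rw [div_pow, div_le_div_iff₀ hs1pos (by positivity)] at hn
  have hF1 := (hMs1.iter h hs1pos n).1
  have hF2 := (hMt.iter h ht n).1
  have hFM := (hMs1.iter h hs1pos n).2
  have hY : M α β q' ((q' ^ 2) ^ n * sSup A / q' ^ 2) := by
    rw [hF1] at hFM
    exact hFM.div h (by positivity)
  have hFc : Continuous ((β ∘ β)^[n]) := (h.cb.comp h.cb).iterate n
  have hYmem : (q' ^ 2) ^ n * sSup A / q' ^ 2 ∈
      Set.Icc ((β ∘ β)^[n] t) ((β ∘ β)^[n] (sSup A)) := by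
    rw [hF1, hF2]
    constructor
    · rw [le_div_iff₀ (by positivity)]
      nlinarith
    · rw [div_le_iff₀ (by positivity)]
      have : (1 : ℝ) ≤ q' ^ 2 := by nlinarith
      have h3 : 0 ≤ (q' ^ 2) ^ n * sSup A := by positivity
      nlinarith
  obtain ⟨y, hy, hyY⟩ := intermediate_value_Icc' hs1t hFc.continuousOn hYmem
  have hyM : M α β q' y := M_of_iter h n y (by rw [hyY]; exact hY)
  have hyA : y ∈ A := ⟨hs1pos.trans_le hy.1, hy.2, hyM⟩
  have hy1 : y = sSup A := le_antisymm (le_csSup hAb hyA) hy.1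
  rw [hy1, hF1, eq_div_iff (by positivity)] at hyY
  have h3 : 0 < (q' ^ 2) ^ n * sSup A := by positivity
  have h4 : (1 : ℝ) < q' ^ 2 := by nlinarith
  nlinarith

/-- Symmetry hypothesis. -/
def Sym (α β : ℝ → ℝ) : Prop :=
  (∀ x, α (-x) = -α x ∧ β (-x) = -β x) ∨ (∀ x < 0, 0 < β x) ∨ (∀ x < 0, 0 < α x)

theorem exists_pos (h : Pair α β) (hS : Sym α β) (hM : M α β q t) : ∃ t', 0 < t' ∧ M α β q t' := by
  rcases lt_or_gt_of_ne hM.1 with ht | ht
  · rcases hS with hS | hS | hS
    · refine ⟨-t, neg_pos.2 ht, neg_ne_zero.2 hM.1, fun k l => ?_⟩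
      have hb : ∀ l : ℕ, ∀ x, β^[l] (-x) = -β^[l] x := by
        intro l
        induction l with
        | zero => exact fun x => rfl
        | succ l ih =>
          intro x
          rw [iterate_succ_apply, (hS x).2, ih, iterate_succ_apply]
      have ha : ∀ l : ℕ, ∀ x, α^[l] (-x) = -α^[l] x := by
        intro l
        induction l with
        | zero => exact fun x => rfl
        | succ l ih =>
          intro x
          rw [iterate_succ_apply, (hS x).1, ih, iterate_succ_apply]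
      rw [hb, ha, (hS _).2, abs_neg, abs_neg]
      exact hM.2 k l
    · exact ⟨β t, hS t ht, hM.beta h⟩
    · exact ⟨α t, hS t ht, hM.alpha h⟩
  · exact ⟨t, ht, hM⟩

theorem M_unique (h : Pair α β) (hS : Sym α β) (hMt : M α β q t) (hMs : M α β q' s) : q = q' := by
  obtain ⟨t', ht', h1⟩ := exists_pos h hS hMt
  obtain ⟨s', hs', h2⟩ := exists_pos h hS hMs
  rcases lt_trichotomy q q' with h3 | h3 | h3
  · exact (M_unique_lt h ht' hs' h1 h2 h3).elim
  · exact h3
  · exact (M_unique_lt h hs' ht' h2 h1 h3).elim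

/-- The general linearity theorem. -/
theorem Pair.linear (h : Pair α β) (hS : Sym α β) : ∃ z, 0 ≤ z ∧ ∀ x, |α x| = z * |x| := by
  obtain ⟨U, hU, -⟩ := exists_arr h one_ne_zero
  obtain ⟨q, -, ⟨t, hq⟩, -, -⟩ := hU.ends h
  refine ⟨q - 1, by linarith [hq.q_gt h], fun x => ?_⟩
  rcases eq_or_ne x 0 with rfl | hx
  · simp [h.a0]
  · obtain ⟨W, hW, hW0⟩ := exists_arr h hx
    obtain ⟨q1, q2, ⟨t1, h1⟩, ⟨t2, h2⟩, h3⟩ := hW.ends h
    have e1 : q1 = q := M_unique h hS h1 hq
    have e2 : q2 = q := M_unique h hS h2 hq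
    have h4 := h3 0 0
    rw [e1, e2] at h4
    have h5 : Q W 0 0 = q := le_antisymm h4.2 h4.1
    rw [Q_eq hW, hW0, div_eq_iff (abs_ne_zero.2 hx), h.rel] at h5
    linarith

end Pool.Agent.V11189.FE
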