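import Mathlib

set_option autoImplicit false

open Finset

namespace Pool.Agent.V11189.FE

/-- Expansion of a Pascal type array. -/
theorem sum_choose (h : ℕ → ℕ → ℝ) (hr : ∀ m n, h m n = h (m + 1) n + h m (n + 1)) (N : ℕ) :
    ∀ m n, ∑ ij ∈ antidiagonal N, (N.choose ij.1 : ℝ) * h (m + ij.1) (n + ij.2) = h m n := by
  induction N with
  | zero =>
    intro m n
    simp
  | succ N ih =>
    intro m n
    rw [Finset.sum_antidiagonal_choose_succ_mul (fun i j => h (m + i) (n + j)) N]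
    rw [← ih m n, ← Finset.sum_add_distrib]
    apply Finset.sum_congr rfl
    rintro ⟨i, j⟩ hij
    have hij' : i + j = N := mem_antidiagonal.1 hij
    have h1 : N.choose j = N.choose i := by
      rw [← hij']
      exact (Nat.choose_symm_add).symm
    simp only
    rw [h1, hr (m + i) (n + j)]
    ring_nf

theorem sum_first (h : ℕ → ℕ → ℝ) (hr : ∀ m n, h m n = h (m + 1) n + h m (n + 1)) (n : ℕ) :
    ∑ ij ∈ antidiagonal (n + 1), (ij.1 : ℝ) * (((n + 1).choose ij.1 : ℝ) * h ij.1 ij.2) =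
      (n + 1) * h 1 0 := by
  rw [Finset.Nat.antidiagonal_succ, Finset.sum_cons]
  simp only [Nat.cast_zero, zero_mul, zero_add, Finset.sum_map]
  rw [← sum_choose h hr n 1 0, Finset.mul_sum]
  apply Finset.sum_congr rfl
  rintro ⟨i, j⟩ _
  change ((i + 1 : ℕ) : ℝ) * (((n + 1).choose (i + 1) : ℝ) * h (i + 1) j) =
    (n + 1) * ((n.choose i : ℝ) * h (1 + i) (0 + j))
  have h1 : ((n + 1 : ℕ) : ℝ) * (n.choose i : ℝ) = ((n + 1).choose (i + 1) : ℝ) * ((i + 1 : ℕ) : ℝ) := by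
    exact_mod_cast Nat.add_one_mul_choose_eq n i
  push_cast at h1 ⊢
  rw [zero_add, add_comm 1 i]
  linear_combination (-(h (i + 1) j)) * h1

theorem sum_second (h : ℕ → ℕ → ℝ) (hr : ∀ m n, h m n = h (m + 1) n + h m (n + 1)) (n : ℕ) :
    ∑ ij ∈ antidiagonal (n + 2), ((ij.1 : ℝ) * ((ij.1 : ℝ) - 1)) *
      (((n + 2).choose ij.1 : ℝ) * h ij.1 ij.2) = (n + 2) * (n + 1) * h 2 0 := by
  rw [Finset.Nat.antidiagonal_succ, Finset.sum_cons]
  simp only [Nat.cast_zero, zero_mul, zero_add, Finset.sum_map]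
  have h2 := sum_first (fun m n => h (m + 1) n) (fun m n => hr (m + 1) n) n
  have h3 : (n + 2 : ℝ) * (n + 1) * h 2 0 = (n + 2) * ((n + 1) * h (1 + 1) 0) := by ring_nf
  rw [h3, ← h2, Finset.mul_sum]
  apply Finset.sum_congr rfl
  rintro ⟨i, j⟩ _
  change (((i + 1 : ℕ) : ℝ) * (((i + 1 : ℕ) : ℝ) - 1)) *
    (((n + 1 + 1).choose (i + 1) : ℝ) * h (i + 1) j) =
    (n + 2) * ((i : ℝ) * (((n + 1).choose i : ℝ) * h (i + 1) j))
  have h1 : ((n + 1 + 1 : ℕ) : ℝ) * ((n + 1).choose i : ℝ) =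
      ((n + 1 + 1).choose (i + 1) : ℝ) * ((i + 1 : ℕ) : ℝ) := by
    exact_mod_cast Nat.add_one_mul_choose_eq (n + 1) i
  push_cast at h1 ⊢
  linear_combination (-(h (i + 1) j) * i) * h1

/-- Log-convexity of Hausdorff moment arrays. -/
theorem log_convex (h : ℕ → ℕ → ℝ) (h0 : ∀ m n, 0 ≤ h m n)
    (hr : ∀ m n, h m n = h (m + 1) n + h m (n + 1)) : h 1 0 ^ 2 ≤ h 0 0 * h 2 0 := by
  have key : ∀ n : ℕ, ((n : ℝ) + 2) * h 1 0 ^ 2 ≤ h 0 0 * ((n + 1) * h 2 0 + h 1 0) := by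
    intro n
    have h1 := sum_choose h hr (n + 2) 0 0
    have h2 := sum_first h hr (n + 1)
    have h3 := sum_second h hr n
    simp only [zero_add] at h1
    have h4 := Finset.sum_sq_le_sum_mul_sum_of_sq_le_mul (antidiagonal (n + 2))
      (r := fun ij : ℕ × ℕ => (ij.1 : ℝ) * (((n + 2).choose ij.1 : ℝ) * h ij.1 ij.2))
      (f := fun ij : ℕ × ℕ => ((n + 2).choose ij.1 : ℝ) * h ij.1 ij.2)
      (g := fun ij : ℕ × ℕ => (ij.1 : ℝ) ^ 2 * (((n + 2).choose ij.1 : ℝ) * h ij.1 ij.2))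
      (fun ij _ => mul_nonneg (Nat.cast_nonneg _) (h0 _ _))
      (fun ij _ => mul_nonneg (sq_nonneg _) (mul_nonneg (Nat.cast_nonneg _) (h0 _ _)))
      (fun ij _ => le_of_eq (by ring))
    have h5 : ∑ ij ∈ antidiagonal (n + 2), (ij.1 : ℝ) ^ 2 * (((n + 2).choose ij.1 : ℝ) * h ij.1 ij.2)
        = (n + 2) * (n + 1) * h 2 0 + ((n + 1 : ℕ) + 1) * h 1 0 := by
      rw [← h3, ← h2, ← Finset.sum_add_distrib]
      apply Finset.sum_congr rfl
      rintro ⟨i, j⟩ _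
      ring
    rw [h5, h1, h2] at h4
    push_cast at h4
    have h6 : (0 : ℝ) < n + 2 := by positivity
    have h7 : ((n : ℝ) + 2) * (((n : ℝ) + 2) * h 1 0 ^ 2) ≤
        ((n : ℝ) + 2) * (h 0 0 * ((n + 1) * h 2 0 + h 1 0)) := by
      nlinarith [h4]
    exact le_of_mul_le_mul_left h7 h6
  by_contra hcon
  push Not at hcon
  obtain ⟨n, hn⟩ := exists_nat_gt ((h 0 0 * (h 1 0 - h 2 0)) / (h 1 0 ^ 2 - h 0 0 * h 2 0))
  rw [div_lt_iff₀ (by linarith)] at hn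
  have := key n
  nlinarith [this, hn]

end Pool.Agent.V11189.FE
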