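import Pool.Agent.V11189.FeArray

set_option autoImplicit false

open Function Filter Topology

namespace Pool.Agent.V11189.FE

variable {α β : ℝ → ℝ} {U : ℤ → ℤ → ℝ}

/-- Compactness of annuli. -/
theorem isCompact_annulus (L M : ℝ) : IsCompact {x : ℝ | L ≤ |x| ∧ |x| ≤ M} := by
  have h1 : {x : ℝ | L ≤ |x| ∧ |x| ≤ M} ⊆ Set.Icc (-M) M := fun x hx => abs_le.1 hx.2
  have h2 : IsClosed {x : ℝ | L ≤ |x| ∧ |x| ≤ M} :=
    (isClosed_le continuous_const continuous_abs).inter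
      (isClosed_le continuous_abs continuous_const)
  exact isCompact_Icc.of_isClosed_subset h2 h1

theorem alpha_lower (h : Pair α β) {L : ℝ} (hL : 0 < L) (M : ℝ) :
    ∃ c, 0 < c ∧ ∀ x, L ≤ |x| → |x| ≤ M → c ≤ |α x| := by
  rcases Set.eq_empty_or_nonempty {x : ℝ | L ≤ |x| ∧ |x| ≤ M} with he | hne
  · refine ⟨1, one_pos, fun x h1 h2 => ?_⟩
    have : x ∈ {x : ℝ | L ≤ |x| ∧ |x| ≤ M} := ⟨h1, h2⟩
    rw [he] at this
    exact absurd this (Set.notMem_empty x)
  · obtain ⟨z, hz, hmin⟩ := (isCompact_annulus L M).exists_isMinOn hne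
      (h.ca.abs.continuousOn)
    refine ⟨|α z|, abs_pos.2 fun h0 => ?_, fun x h1 h2 => hmin ⟨h1, h2⟩⟩
    have := h.za z h0
    rw [this, Set.mem_setOf_eq, abs_zero] at hz
    linarith [hz.1]

theorem beta_small (h : Pair α β) {L : ℝ} (hL : 0 < L) :
    ∃ δ, 0 < δ ∧ ∀ x, L ≤ |β x| → δ ≤ |x| := by
  obtain ⟨δ, hδ, h1⟩ := Metric.continuous_iff.1 h.cb 0 L hL
  refine ⟨δ, hδ, fun x hx => ?_⟩
  by_contra hcon
  push Not at hcon
  have := h1 x (by rwa [Real.dist_eq, sub_zero])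
  rw [h.b0, Real.dist_eq, sub_zero] at this
  linarith

theorem Arr.anti_n (h : Pair α β) (hU : Arr α β U) (m : ℤ) : Antitone fun n => |U m n| :=
  antitone_int_of_succ_le fun n => by
    have := hU.pascal h m n
    have h1 := hU.pos (m + 1) n
    linarith

theorem Arr.anti_m (h : Pair α β) (hU : Arr α β U) (n : ℤ) : Antitone fun m => |U m n| :=
  antitone_int_of_succ_le fun m => by
    have := hU.pascal h m n
    have h1 := hU.pos m (n + 1)
    linarith

/-- In the `n` direction the array runs through all levels. -/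
theorem Arr.small_n (h : Pair α β) (hU : Arr α β U) (m : ℤ) {ε : ℝ} (hε : 0 < ε) :
    ∃ n, |U m n| < ε := by
  by_contra hcon
  push Not at hcon
  obtain ⟨c, hc, h1⟩ := alpha_lower h hε |U m 0|
  have h2 : ∀ k : ℕ, |U m k| ≤ |U m 0| - k * c := by
    intro k
    induction k with
    | zero => simp
    | succ k ih =>
      have h3 : |U m (k : ℤ)| = |U (m + 1) k| + |U m (k + 1)| := hU.pascal h m k
      have h4 : c ≤ |U (m + 1) k| := by
        rw [← hU.ha]
        apply h1 _ (hcon _)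
        have : |U m (k + 1)| ≤ |U m 0| := hU.anti_n h m (by positivity : (0 : ℤ) ≤ (k : ℤ) + 1)
        exact this
      push_cast
      linarith
  obtain ⟨k, hk⟩ := exists_nat_gt (|U m 0| / c)
  rw [div_lt_iff₀ hc] at hk
  have := h2 k
  have h5 := abs_nonneg (U m k)
  linarith

theorem Arr.large_n (h : Pair α β) (hU : Arr α β U) (m : ℤ) (C : ℝ) : ∃ n, C < |U m n| := by
  by_contra hcon
  push Not at hcon
  obtain ⟨c, hc, h1⟩ := alpha_lower h (hU.pos m 0) C
  have h2 : ∀ k : ℕ, |U m 0| + k * c ≤ |U m (-k)| := by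
    intro k
    induction k with
    | zero => simp
    | succ k ih =>
      have h3 := hU.pascal h m (-((k : ℤ) + 1))
      rw [show -((k : ℤ) + 1) + 1 = -k by ring] at h3
      have h4 : c ≤ |U (m + 1) (-((k : ℤ) + 1))| := by
        rw [← hU.ha]
        apply h1 _ _ (hcon _)
        rw [show -((k : ℤ) + 1) + 1 = -k by ring]
        exact hU.anti_n h m (by omega : -(k : ℤ) ≤ 0)
      push_cast
      linarith
  obtain ⟨k, hk⟩ := exists_nat_gt (C / c)
  rw [div_lt_iff₀ hc] at hk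
  have := h2 k
  have h5 := hcon (-k)
  have h6 := abs_nonneg (U m 0)
  linarith

theorem Arr.small_m (h : Pair α β) (hU : Arr α β U) (n : ℤ) {ε : ℝ} (hε : 0 < ε) (m0 : ℤ) :
    ∃ m, m0 ≤ m ∧ |U m n| < ε := by
  by_contra hcon
  push Not at hcon
  obtain ⟨δ, hδ, h1⟩ := beta_small h hε
  have h2 : ∀ k : ℕ, |U (m0 + k) n| ≤ |U m0 n| - k * δ := by
    intro k
    induction k with
    | zero => simp
    | succ k ih =>
      have h3 := hU.pascal h (m0 + k) n
      have h4 : δ ≤ |U (m0 + k) (n + 1)| := by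
        apply h1
        rw [hU.hb]
        exact hcon _ (by omega)
      push_cast
      rw [show m0 + ((k : ℤ) + 1) = m0 + k + 1 by ring]
      linarith
  obtain ⟨k, hk⟩ := exists_nat_gt (|U m0 n| / δ)
  rw [div_lt_iff₀ hδ] at hk
  have := h2 k
  have h5 := abs_nonneg (U (m0 + k) n)
  linarith

theorem Arr.large_m (h : Pair α β) (hU : Arr α β U) (n : ℤ) (C : ℝ) (m0 : ℤ) :
    ∃ m, m ≤ m0 ∧ C < |U m n| := by
  by_contra hcon
  push Not at hcon
  obtain ⟨δ, hδ, h1⟩ := beta_small h (hU.pos m0 n)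
  have h2 : ∀ k : ℕ, |U m0 n| + k * δ ≤ |U (m0 - k) n| := by
    intro k
    induction k with
    | zero => simp
    | succ k ih =>
      have h3 := hU.pascal h (m0 - (k + 1)) n
      rw [show m0 - ((k : ℤ) + 1) + 1 = m0 - k by ring] at h3
      have h4 : δ ≤ |U (m0 - (k + 1)) (n + 1)| := by
        apply h1
        rw [hU.hb]
        exact hU.anti_m h n (by omega : m0 - ((k : ℤ) + 1) ≤ m0)
      push_cast
      linarith
  obtain ⟨k, hk⟩ := exists_nat_gt (C / δ)
  rw [div_lt_iff₀ hδ] at hk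
  have := h2 k
  have h5 := hcon (m0 - k) (by omega)
  have h6 := abs_nonneg (U m0 n)
  linarith

/-- The level path. -/
theorem Arr.level (h : Pair α β) (hU : Arr α β U) (m : ℤ) :
    ∃ n, |U m n| ≤ 1 ∧ 1 < |U m (n - 1)| := by
  obtain ⟨b, hb⟩ := hU.large_n h m 1
  obtain ⟨a, ha⟩ := hU.small_n h m one_pos
  obtain ⟨n, hn, hmin⟩ := Int.exists_least_of_bdd (P := fun n => |U m n| ≤ 1)
    ⟨b, fun z hz => by
      by_contra hcon
      push Not at hcon
      have : |U m b| ≤ |U m z| := hU.anti_n h m hcon.le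
      linarith⟩ ⟨a, ha.le⟩
  refine ⟨n, hn, ?_⟩
  by_contra hcon
  push Not at hcon
  have := hmin _ hcon
  omega

/-- The set of points whose whole forward orbit has ratio `q`. -/
def M (α β : ℝ → ℝ) (q t : ℝ) : Prop :=
  t ≠ 0 ∧ ∀ k l : ℕ, |β (α^[k] (β^[l] t))| = q * |α^[k] (β^[l] t)|

theorem Arr.shift (h : Pair α β) (hU : Arr α β U) (m n : ℤ) (k l : ℕ) :
    α^[k] (β^[l] (U m n)) = U (m + k) (n - k - l) := by
  induction k with
  | zero =>
    induction l with
    | zero => simp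
    | succ l ih =>
      rw [iterate_succ_apply' β l]
      simp only [iterate_zero, id, Nat.cast_zero, add_zero, sub_zero, Nat.cast_succ] at ih ⊢
      rw [ih]
      have := hU.hb m (n - (l + 1))
      rw [← this]
      congr 2
      ring
  | succ k ih =>
    rw [iterate_succ_apply' α k, ih]
    have := hU.ha (m + k) (n - (k + 1) - l)
    push_cast
    rw [show m + ((k : ℤ) + 1) = m + k + 1 by ring, ← this]
    congr 2
    ring

/-- Limits along the level path. -/
theorem Arr.limit (h : Pair α β) (hU : Arr α β U) {δ q : ℝ} (hδ : 0 < δ)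
    (H : ∀ i : ℕ, ∃ m n, δ ≤ |U m n| ∧ |U m n| ≤ 1 ∧ ∀ k l : ℕ, k ≤ i → l ≤ i →
      |Q U (m + k) (n - k - l) - q| ≤ 1 / ((i : ℝ) + 1)) : ∃ t, M α β q t := by
  choose m n h1 h2 h3 using H
  obtain ⟨t, ht, φ, hφ, hlim⟩ := (isCompact_annulus δ 1).tendsto_subseq
    (x := fun i => U (m i) (n i)) (fun i => ⟨h1 i, h2 i⟩)
  have ht0 : t ≠ 0 := by
    rintro rfl
    have := ht.1
    rw [abs_zero] at this
    linarith
  have hne : ∀ k l : ℕ, α^[k] (β^[l] t) ≠ 0 := by
    intro k l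
    obtain ⟨W, hW, hW0⟩ := exists_arr h ht0
    rw [← hW0, hW.shift h]
    exact hW.ne _ _
  refine ⟨t, ht0, fun k l => ?_⟩
  have hcont : Continuous fun x => α^[k] (β^[l] x) := (h.ca.iterate k).comp (h.cb.iterate l)
  have h4 : Tendsto (fun i => Q U (m (φ i) + k) (n (φ i) - k - l)) atTop
      (𝓝 (|β (α^[k] (β^[l] t))| / |α^[k] (β^[l] t)|)) := by
    have h5 : ∀ i, Q U (m (φ i) + k) (n (φ i) - k - l) =
        |β (α^[k] (β^[l] (U (m (φ i)) (n (φ i)))))| / |α^[k] (β^[l] (U (m (φ i)) (n (φ i))))| := by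
      intro i
      rw [Q_eq hU, hU.shift h]
    simp_rw [h5]
    exact ((h.cb.abs.tendsto _).comp ((hcont.tendsto t).comp hlim)).div
      ((continuous_abs.tendsto _).comp ((hcont.tendsto t).comp hlim)) (abs_ne_zero.2 (hne k l))
  have h6 : Tendsto (fun i => Q U (m (φ i) + k) (n (φ i) - k - l)) atTop (𝓝 q) := by
    rw [tendsto_iff_dist_tendsto_zero]
    have h7 : Tendsto (fun i : ℕ => 1 / ((φ i : ℝ) + 1)) atTop (𝓝 0) :=
      (tendsto_one_div_add_atTop_nhds_zero_nat).comp hφ.tendsto_atTop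
    refine squeeze_zero' (Eventually.of_forall fun _ => dist_nonneg) ?_ h7
    filter_upwards [eventually_ge_atTop (max k l)] with i hi
    rw [Real.dist_eq]
    have := hφ.id_le i
    exact h3 (φ i) k l ((le_max_left _ _).trans (hi.trans this))
      ((le_max_right _ _).trans (hi.trans this))
  have h8 := tendsto_nhds_unique h4 h6
  rw [div_eq_iff (abs_ne_zero.2 (hne k l))] at h8
  exact h8

/-- Both ends of the level path. -/
theorem Arr.ends (h : Pair α β) (hU : Arr α β U) :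
    ∃ q1 q2, (∃ t, M α β q1 t) ∧ (∃ t, M α β q2 t) ∧ ∀ m n, q1 ≤ Q U m n ∧ Q U m n ≤ q2 := by
  choose ν h1 h2 using fun m => hU.level h m
  obtain ⟨δ, hδ, h3⟩ := beta_small h one_pos
  have hδ1 : ∀ m, δ ≤ |U m (ν m)| := by
    intro m
    apply h3
    have := hU.hb m (ν m - 1)
    rw [sub_add_cancel] at this
    rw [this]
    exact (h2 m).le
  -- the path towards the two ends
  have hplus : ∀ m0 n0 : ℤ, ∃ m, m0 ≤ m ∧ ν m ≤ n0 := by
    intro m0 n0
    obtain ⟨m, hm, h4⟩ := hU.small_m h n0 one_pos m0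
    refine ⟨m, hm, ?_⟩
    by_contra hcon
    push Not at hcon
    have : |U m (ν m - 1)| ≤ |U m n0| := hU.anti_n h m (by omega : n0 ≤ ν m - 1)
    linarith [h2 m]
  have hminus : ∀ m0 n0 : ℤ, ∃ m, m ≤ m0 ∧ n0 ≤ ν m := by
    intro m0 n0
    obtain ⟨m, hm, h4⟩ := hU.large_m h n0 1 m0
    refine ⟨m, hm, ?_⟩
    by_contra hcon
    push Not at hcon
    have : |U m n0| ≤ |U m (ν m)| := hU.anti_n h m hcon.le
    linarith [h1 m]
  -- bounds
  obtain ⟨C, hC⟩ : ∃ C, ∀ m, Q U m (ν m) ≤ C := by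
    obtain ⟨B, hB⟩ := (isCompact_annulus δ 1).bddAbove_image
      (f := fun x => |β x| / |x|) (by
        apply ContinuousOn.div h.cb.abs.continuousOn continuous_abs.continuousOn
        rintro x hx h0
        rw [Set.mem_setOf_eq, h0] at hx
        linarith [hx.1])
    refine ⟨B, fun m => ?_⟩
    rw [Q_eq hU]
    exact hB ⟨U m (ν m), ⟨hδ1 m, h1 m⟩, rfl⟩
  have hup : ∀ m n, Q U m n ≤ C := by
    intro m n
    obtain ⟨m', hm', hn'⟩ := hplus m n
    exact (Q_mono h hU hm' hn').trans (hC m')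
  have hlow : ∀ m n, 0 ≤ Q U m n := fun m n => div_nonneg (abs_nonneg _) (abs_nonneg _)
  let S : Set ℝ := Set.range fun p : ℤ × ℤ => Q U p.1 p.2
  have hSne : S.Nonempty := ⟨_, (0, 0), rfl⟩
  have hSa : BddAbove S := ⟨C, by rintro _ ⟨p, rfl⟩; exact hup _ _⟩
  have hSb : BddBelow S := ⟨0, by rintro _ ⟨p, rfl⟩; exact hlow _ _⟩
  have hle : ∀ m n, sInf S ≤ Q U m n := fun m n => csInf_le hSb ⟨(m, n), rfl⟩
  have hge : ∀ m n, Q U m n ≤ sSup S := fun m n => le_csSup hSa ⟨(m, n), rfl⟩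
  refine ⟨sInf S, sSup S, ?_, ?_, fun m n => ⟨hle m n, hge m n⟩⟩
  · apply hU.limit h hδ
    intro i
    have hi : (0 : ℝ) < 1 / ((i : ℝ) + 1) := by positivity
    obtain ⟨_, ⟨⟨m0, n0⟩, rfl⟩, hlt⟩ := exists_lt_of_csInf_lt hSne
      (show sInf S < sInf S + 1 / ((i : ℝ) + 1) by linarith)
    obtain ⟨m, hm, hn⟩ := hminus (m0 - i) (n0 + 2 * i)
    refine ⟨m, ν m, hδ1 m, h1 m, fun k l hk hl => ?_⟩
    have h5 : Q U (m + k) (ν m - k - l) ≤ Q U m0 n0 :=
      Q_mono h hU (by omega) (by omega)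
    simp only at hlt
    rw [abs_le]
    constructor
    · linarith [hle (m + k) (ν m - k - l)]
    · linarith
  · apply hU.limit h hδ
    intro i
    have hi : (0 : ℝ) < 1 / ((i : ℝ) + 1) := by positivity
    obtain ⟨_, ⟨⟨m0, n0⟩, rfl⟩, hlt⟩ := exists_lt_of_lt_csSup hSne
      (show sSup S - 1 / ((i : ℝ) + 1) < sSup S by linarith)
    obtain ⟨m, hm, hn⟩ := hplus m0 n0
    refine ⟨m, ν m, hδ1 m, h1 m, fun k l hk hl => ?_⟩
    have h5 : Q U m0 n0 ≤ Q U (m + k) (ν m - k - l) :=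
      Q_mono h hU (by omega) (by omega)
    simp only at hlt
    rw [abs_le]
    constructor
    · linarith
    · linarith [hge (m + k) (ν m - k - l)]

end Pool.Agent.V11189.FE
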