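import Pool.Agent.V11189.FeSign

set_option autoImplicit false

open Function Filter Topology

namespace Pool.Agent.V11189.FE

variable {f : ℝ → ℝ}

/-- Both germs at `0` are of negative type. -/
def P2 (f : ℝ → ℝ) : Prop :=
  (∀ ε > 0, ∃ x, 0 < x ∧ x < ε ∧ f x < 0) ∧ (∀ ε > 0, ∃ x, -ε < x ∧ x < 0 ∧ 0 < f x)

theorem P2.mirror (hP : P2 f) : P2 fun x => -f (-x) := by
  constructor
  · intro ε hε
    obtain ⟨x, h1, h2, h3⟩ := hP.2 ε hε
    exact ⟨-x, by linarith, by linarith, by simp only [neg_neg]; linarith⟩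
  · intro ε hε
    obtain ⟨x, h1, h2, h3⟩ := hP.1 ε hε
    exact ⟨-x, by linarith, by linarith, by simp only [neg_neg]; linarith⟩

theorem Sol.neg_near (h : Sol f) (hP : P2 f) : ∃ ε > 0, ∀ x, 0 < x → x < ε → f x < 0 := by
  obtain ⟨x0, hx0, -, hfx0⟩ := hP.1 1 one_pos
  obtain ⟨y0, -, hy0, hfy0⟩ := hP.2 1 one_pos
  have h1 : ∃ ε > 0, ∀ δ, 0 < δ → δ < ε → f δ ≠ 0 := by
    by_contra hcon
    push Not at hcon
    have := h.dens (X := x0) (q := y0) (fun ε hε => by
      obtain ⟨δ, h1, h2, h3⟩ := hcon ε hε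
      exact ⟨δ, h1, h2, h3⟩) hx0.le (by linarith) hfy0
    linarith
  obtain ⟨ε, hε, h2⟩ := h1
  refine ⟨ε, hε, fun x hx hxε => ?_⟩
  by_contra hcon
  push Not at hcon
  obtain ⟨z, hz0, hzε, hfz⟩ := hP.1 ε hε
  obtain ⟨w, hw, hfw⟩ := intermediate_value_uIcc (a := z) (b := x) h.c.continuousOn
    (show (0 : ℝ) ∈ Set.uIcc (f z) (f x) by
      rw [Set.mem_uIcc]
      exact Or.inl ⟨hfz.le, hcon⟩)
  rw [Set.mem_uIcc] at hw
  rcases hw with hw | hw
  · exact h2 w (by linarith) (by linarith) hfw
  · exact h2 w (by linarith) (by linarith) hfw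

theorem Sol.pos_near (h : Sol f) (hP : P2 f) : ∃ ε > 0, ∀ x, -ε < x → x < 0 → 0 < f x := by
  obtain ⟨ε, hε, h1⟩ := h.mirror.neg_near hP.mirror
  refine ⟨ε, hε, fun x hx hx0 => ?_⟩
  have := h1 (-x) (by linarith) (by linarith)
  simp only [neg_neg] at this
  linarith

theorem Sol.neg_all (h : Sol f) (hP : P2 f) : ∀ x, 0 < x → f x < 0 := by
  obtain ⟨ε0, hε0, h0⟩ := h.neg_near hP
  obtain ⟨ε1, hε1, h1⟩ := h.pos_near hP
  by_contra hcon
  push Not at hcon
  obtain ⟨x1, hx1, hfx1⟩ := hcon
  -- the first zero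
  let Z : Set ℝ := {x | ε0 / 2 ≤ x ∧ f x = 0}
  have hzero : ∀ s, ε0 / 2 ≤ s → 0 ≤ f s → ∃ z, z ∈ Z ∧ z ≤ s := by
    intro s hs hfs
    obtain ⟨z, hz, hfz⟩ := intermediate_value_Icc hs h.c.continuousOn
      (show (0 : ℝ) ∈ Set.Icc (f (ε0 / 2)) (f s) from
        ⟨(h0 _ (by linarith) (by linarith)).le, hfs⟩)
    exact ⟨z, ⟨hz.1, hfz⟩, hz.2⟩
  have hx1' : ε0 / 2 ≤ x1 := by
    by_contra h2
    push Not at h2
    linarith [h0 x1 hx1 (by linarith)]
  have hZne : Z.Nonempty := by
    obtain ⟨z, hz, -⟩ := hzero x1 hx1' hfx1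
    exact ⟨z, hz⟩
  have hZb : BddBelow Z := ⟨ε0 / 2, fun z hz => hz.1⟩
  have hZc : IsClosed Z :=
    (isClosed_le continuous_const continuous_id).inter (isClosed_eq h.c continuous_const)
  have haZ : sInf Z ∈ Z := hZc.csInf_mem hZne hZb
  set a := sInf Z with ha
  have ha0 : 0 < a := by linarith [haZ.1]
  have hneg : ∀ s, 0 < s → s < a → f s < 0 := by
    intro s hs hsa
    by_contra h2
    push Not at h2
    rcases lt_or_ge s (ε0 / 2) with h3 | h3
    · linarith [h0 s hs (by linarith)]
    · obtain ⟨z, hz, hzs⟩ := hzero s h3 h2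
      linarith [csInf_le hZb hz]
  -- the minimum
  obtain ⟨m, hm, hmin⟩ := isCompact_Icc.exists_isMinOn (Set.nonempty_Icc.2 ha0.le)
    h.c.continuousOn
  have hfm : f m < 0 := lt_of_le_of_lt (hmin (show a / 2 ∈ Set.Icc 0 a from
    ⟨by linarith, by linarith⟩)) (hneg _ (by linarith) (by linarith))
  have hm0 : 0 < m := by
    rcases hm.1.lt_or_eq with h2 | h2
    · exact h2
    · rw [← h2, h.zero] at hfm
      exact absurd hfm (lt_irrefl _)
  have hma : m < a := by
    rcases hm.2.lt_or_eq with h2 | h2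
    · exact h2
    · rw [h2, haZ.2] at hfm
      exact absurd hfm (lt_irrefl _)
  let η := min (min (-f m) m) ε1
  have hη : 0 < η := by
    have : 0 < -f m := by linarith
    positivity
  have hηm : η ≤ -f m := (min_le_left _ _).trans (min_le_left _ _)
  have hηm' : η ≤ m := (min_le_left _ _).trans (min_le_right _ _)
  have hηε : η ≤ ε1 := min_le_right _ _
  have hpre : ∀ y, -η < y → y < 0 → ∃ s, m ≤ s ∧ s < a ∧ f s = y := by
    intro y hy hy0
    obtain ⟨s, hs, hfs⟩ := intermediate_value_Icc hma.le h.c.continuousOn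
      (show y ∈ Set.Icc (f m) (f a) by
        rw [haZ.2]
        exact ⟨by linarith, hy0.le⟩)
    refine ⟨s, hs.1, lt_of_le_of_ne hs.2 ?_, hfs⟩
    rintro h2
    rw [h2, haZ.2] at hfs
    linarith
  have hstep : ∀ y, -η < y → y < 0 → -η < G f y ∧ G f y < 0 := by
    intro y hy hy0
    obtain ⟨s, hs, hsa, hfs⟩ := hpre y hy hy0
    have h2 := hneg (s + y) (by linarith) (by linarith)
    have h3 := h.e s
    rw [hfs] at h3
    have h4 := h1 y (by linarith) hy0
    unfold G
    exact ⟨by linarith, by linarith⟩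
  have hiter : ∀ n : ℕ, -η < (G f)^[n] (-(η / 2)) ∧ (G f)^[n] (-(η / 2)) < 0 := by
    intro n
    induction n with
    | zero => exact ⟨by simp only [iterate_zero, id]; linarith, by simp only [iterate_zero, id]; linarith⟩
    | succ n ih =>
      rw [iterate_succ_apply']
      exact hstep _ ih.1 ih.2
  obtain ⟨s, hs, hsa, hfs⟩ := hpre (-(η / 2)) (by linarith) (by linarith)
  obtain ⟨s', hs', hfs'⟩ := intermediate_value_Icc' hm0.le h.c.continuousOn
    (show -(η / 2) ∈ Set.Icc (f m) (f 0) by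
      rw [h.zero]
      exact ⟨by linarith, by linarith⟩)
  have hss : s' < s := by
    rcases (hs'.2.trans hs).lt_or_eq with h2 | h2
    · exact h2
    · have h3 : s' = m := le_antisymm hs'.2 (by rw [h2]; exact hs)
      rw [h3] at hfs'
      linarith
  have hs'0 : 0 < s' := by
    rcases hs'.1.lt_or_eq with h2 | h2
    · exact h2
    · rw [← h2, h.zero] at hfs'
      linarith
  have hS' : ∀ n, 0 < (G f)^[n] s' := by
    intro n
    induction n with
    | zero => exact hs'0
    | succ n ih =>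
      have h2 := hiter n
      have h3 := hiter (n + 1)
      rw [← hfs', ← h.iter] at h2 h3
      have h4 : -ε1 < (G f)^[n + 1] s' := by
        rw [iter_succ]
        linarith [h2.1]
      by_contra h5
      push Not at h5
      rcases h5.lt_or_eq with h6 | h6
      · linarith [h1 _ h4 h6, h3.2]
      · rw [h6, h.zero] at h3
        linarith [h3.2]
  have hdiff : ∀ n, (G f)^[n] s - (G f)^[n] s' = s - s' := by
    intro n
    induction n with
    | zero => rfl
    | succ n ih =>
      rw [iter_succ, iter_succ, h.iter, h.iter, hfs, hfs']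
      linarith
  have hSle : ∀ n, (G f)^[n] s ≤ s := by
    intro n
    induction n with
    | zero => exact le_rfl
    | succ n ih =>
      rw [iter_succ, h.iter, hfs]
      linarith [(hiter n).2]
  obtain ⟨z, hz, hmax⟩ := isCompact_Icc.exists_isMaxOn
    (Set.nonempty_Icc.2 (show s - s' ≤ s by linarith)) h.c.continuousOn
  have hfz : f z < 0 := hneg z (by linarith [hz.1]) (by linarith [hz.2])
  have hgrow : ∀ n : ℕ, (G f)^[n] s ≤ s + n * f z := by
    intro n
    induction n with
    | zero => simp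
    | succ n ih =>
      have h2 : f ((G f)^[n] s) ≤ f z := hmax (show (G f)^[n] s ∈ Set.Icc (s - s') s from
        ⟨by linarith [hdiff n, hS' n], hSle n⟩)
      rw [iter_succ]
      push_cast
      linarith
  obtain ⟨n, hn⟩ := exists_nat_gt (s / (-f z))
  rw [div_lt_iff₀ (by linarith)] at hn
  linarith [hgrow n, hdiff n, hS' n]

theorem Sol.pos_all (h : Sol f) (hP : P2 f) : ∀ x, x < 0 → 0 < f x := by
  intro x hx
  have := h.mirror.neg_all hP.mirror (-x) (by linarith)
  simp only [neg_neg] at this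
  linarith

/-! ### Negative type: zeros of the companion map -/

set_option linter.unusedSectionVars false

section neg

variable (h : Sol f) (hn : ∀ x, 0 < x → f x < 0) (hp : ∀ x, x < 0 → 0 < f x)
include h hn hp

theorem Sol.fz {x : ℝ} (hx : f x = 0) : x = 0 := by
  rcases lt_trichotomy x 0 with h1 | h1 | h1
  · exact absurd hx (hp x h1).ne'
  · exact h1
  · exact absurd hx (hn x h1).ne

theorem Sol.K_neg {x : ℝ} (hx : G f x = 0) : G f (-x) = 0 := by
  have h1 : f x = -x := by
    unfold G at hx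
    linarith
  rw [← h1]
  have := h.commute x
  rw [hx, h.zero] at this
  exact this.symm

theorem Sol.K_back {x : ℝ} (hx : G f (f x) = 0) : G f x = 0 := by
  have := h.commute x
  rw [hx] at this
  exact h.fz hn hp this

theorem Sol.ff (x : ℝ) : f (f x) = x - G f x + f (G f x) := by
  have := h.commute x
  rw [this]
  unfold G
  ring

theorem Sol.inner_pos {w x : ℝ} (hw : G f w = 0) (hx : 0 < x) (hxw : x < w) :
    -w < f x ∧ f x < 0 := by
  refine ⟨?_, hn x hx⟩
  by_contra hcon
  push Not at hcon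
  obtain ⟨z, hz, hfz⟩ := intermediate_value_Icc' hx.le h.c.continuousOn
    (show -w ∈ Set.Icc (f x) (f 0) by
      rw [h.zero]
      exact ⟨hcon, by linarith⟩)
  have h1 : G f z = 0 := h.K_back hn hp (by rw [hfz]; exact h.K_neg hn hp hw)
  unfold G at h1
  linarith [hz.2]

theorem Sol.inner_neg {w x : ℝ} (hw : G f w = 0) (hx : x < 0) (hxw : -w < x) :
    0 < f x ∧ f x < w := by
  refine ⟨hp x hx, ?_⟩
  by_contra hcon
  push Not at hcon
  obtain ⟨z, hz, hfz⟩ := intermediate_value_Icc' hx.le h.c.continuousOn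
    (show w ∈ Set.Icc (f 0) (f x) by
      rw [h.zero]
      exact ⟨by linarith, hcon⟩)
  have h1 : G f z = 0 := h.K_back hn hp (by rw [hfz]; exact hw)
  unfold G at h1
  linarith [hz.1]

theorem Sol.inner2 {w x : ℝ} (hw : G f w = 0) (hx : 0 < x) (hxw : x < w) (n : ℕ) :
    0 < (f ∘ f)^[n] x ∧ (f ∘ f)^[n] x < w := by
  induction n with
  | zero => exact ⟨hx, hxw⟩
  | succ n ih =>
    rw [iterate_succ_apply' (f ∘ f)]
    have h1 := h.inner_pos hn hp hw ih.1 ih.2
    exact h.inner_neg hn hp hw h1.2 h1.1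

theorem Sol.G_ff (n : ℕ) (x : ℝ) : G f ((f ∘ f)^[n] x) = (f ∘ f)^[n] (G f x) := by
  have h1 : Function.Commute (G f) (f ∘ f) := (h.commute.symm).comp_right h.commute.symm
  exact (h1.iterate_right n) x

/-- An orbit with companion value in the zero set. -/
theorem Sol.K_orbit {x κ : ℝ} (hκ : G f x = κ) (hK : G f κ = 0) (n : ℕ) :
    (f ∘ f)^[n] x = x - 2 * n * κ ∧ G f ((f ∘ f)^[n] x) = κ := by
  have hfκ : f κ = -κ := by
    unfold G at hK
    linarith
  have hfκ' : f (-κ) = κ := by
    have := h.K_neg hn hp hK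
    unfold G at this
    linarith
  have h2 : G f ((f ∘ f)^[n] x) = κ := by
    rw [h.G_ff hn hp, hκ]
    induction n with
    | zero => rfl
    | succ n ih => rw [iterate_succ_apply, comp_apply, hfκ, hfκ', ih]
  refine ⟨?_, h2⟩
  clear h2
  induction n with
  | zero => simp
  | succ n ih =>
    have h3 : G f ((f ∘ f)^[n] x) = κ := by
      rw [h.G_ff hn hp, hκ]
      clear ih
      induction n with
      | zero => rfl
      | succ n ih => rw [iterate_succ_apply, comp_apply, hfκ, hfκ', ih]
    rw [iterate_succ_apply' (f ∘ f), comp_apply, h.ff hn hp, h3, hfκ, ih]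
    push_cast
    ring

/-- Below a zero of the companion map there are only zeros. -/
theorem Sol.K_below {w : ℝ} (hw : G f w = 0) : ∀ x, 0 < x → x < w → G f x = 0 := by
  by_contra hcon
  push Not at hcon
  obtain ⟨x1, hx1, hx1w, hGx1⟩ := hcon
  have hw0 : 0 < w := hx1.trans hx1w
  -- values of the companion map are not zeros of it
  have hval : ∀ x, 0 < x → x < w → G f x ≠ 0 → G f (G f x) ≠ 0 := by
    intro x hx hxw hne hK
    have hall : ∀ n : ℕ, 0 < x - 2 * n * G f x ∧ x - 2 * n * G f x < w := by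
      intro n
      rw [← (h.K_orbit hn hp rfl hK n).1]
      exact h.inner2 hn hp hw hx hxw n
    rcases lt_or_gt_of_ne hne with h1 | h1
    · obtain ⟨n, hn'⟩ := exists_nat_gt (w / (-G f x))
      rw [div_lt_iff₀ (by linarith)] at hn'
      have := (hall n).2
      have h2 : (0 : ℝ) ≤ n := Nat.cast_nonneg n
      nlinarith
    · obtain ⟨n, hn'⟩ := exists_nat_gt (w / (G f x))
      rw [div_lt_iff₀ h1] at hn'
      have := (hall n).1
      have h2 : (0 : ℝ) ≤ n := Nat.cast_nonneg n
      nlinarith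
  have hsm : ∀ y, 0 < y → y ≤ |G f x1| → G f y ≠ 0 := by
    intro y hy hyle hKy
    rcases lt_or_gt_of_ne hGx1 with h1 | h1
    · rw [abs_of_neg h1] at hyle
      obtain ⟨z, hz, hGz⟩ := intermediate_value_Icc' hx1.le h.cG.continuousOn
        (show -y ∈ Set.Icc (G f x1) (G f 0) by
          rw [h.G0]
          exact ⟨by linarith, by linarith⟩)
      have hz0 : z ≠ 0 := by
        rintro rfl
        rw [h.G0] at hGz
        linarith
      refine hval z (lt_of_le_of_ne hz.1 hz0.symm) (hz.2.trans_lt hx1w) ?_ ?_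
      · rw [hGz]
        linarith
      · rw [hGz]
        exact h.K_neg hn hp hKy
    · rw [abs_of_pos h1] at hyle
      obtain ⟨z, hz, hGz⟩ := intermediate_value_Icc hx1.le h.cG.continuousOn
        (show y ∈ Set.Icc (G f 0) (G f x1) by
          rw [h.G0]
          exact ⟨hy.le, hyle⟩)
      have hz0 : z ≠ 0 := by
        rintro rfl
        rw [h.G0] at hGz
        linarith
      refine hval z (lt_of_le_of_ne hz.1 hz0.symm) (hz.2.trans_lt hx1w) ?_ ?_
      · rw [hGz]
        exact hy.ne'
      · rw [hGz]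
        exact hKy
  -- the least positive zero
  let Z : Set ℝ := {x | |G f x1| ≤ x ∧ G f x = 0}
  have hb0 : 0 < |G f x1| := abs_pos.2 hGx1
  have hwZ : w ∈ Z := by
    refine ⟨?_, hw⟩
    by_contra h1
    push Not at h1
    exact hsm w hw0 h1.le hw
  have hZb : BddBelow Z := ⟨_, fun z hz => hz.1⟩
  have hZc : IsClosed Z :=
    (isClosed_le continuous_const continuous_id).inter (isClosed_eq h.cG continuous_const)
  have hZ := hZc.csInf_mem ⟨w, hwZ⟩ hZb
  set w0 := sInf Z with hw0def
  have hw00 : 0 < w0 := hb0.trans_le hZ.1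
  have hno : ∀ x, 0 < x → x < w0 → G f x ≠ 0 := by
    intro x hx hxw h1
    rcases le_or_gt x |G f x1| with h2 | h2
    · exact hsm x hx h2 h1
    · exact absurd (csInf_le hZb (show x ∈ Z from ⟨h2.le, h1⟩)) (not_le.2 hxw)
  -- two points with the same companion value
  obtain ⟨x, x', κ, hx0, hxx, hx'w, hκ, hGx, hGx'⟩ : ∃ x x' κ, 0 < x ∧ x < x' ∧ x' < w0 ∧
      κ ≠ 0 ∧ G f x = κ ∧ G f x' = κ := by
    have hμ := hno (w0 / 2) (by linarith) (by linarith)
    have h1 : G f (w0 / 2) / 2 ∈ Set.uIcc (G f 0) (G f (w0 / 2)) := by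
      rw [h.G0, Set.mem_uIcc]
      rcases lt_or_gt_of_ne hμ with h2 | h2
      · exact Or.inr ⟨by linarith, by linarith⟩
      · exact Or.inl ⟨by linarith, by linarith⟩
    have h1' : G f (w0 / 2) / 2 ∈ Set.uIcc (G f (w0 / 2)) (G f w0) := by
      rw [hZ.2, Set.mem_uIcc]
      rcases lt_or_gt_of_ne hμ with h2 | h2
      · exact Or.inl ⟨by linarith, by linarith⟩
      · exact Or.inr ⟨by linarith, by linarith⟩
    obtain ⟨x, hx, hGx⟩ := intermediate_value_uIcc (a := 0) (b := w0 / 2) h.cG.continuousOn h1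
    obtain ⟨x', hx', hGx'⟩ := intermediate_value_uIcc (a := w0 / 2) (b := w0)
      h.cG.continuousOn h1'
    rw [Set.uIcc_of_le (by linarith)] at hx hx'
    have hne : G f (w0 / 2) / 2 ≠ 0 := div_ne_zero hμ two_ne_zero
    have hne2 : G f (w0 / 2) / 2 ≠ G f (w0 / 2) := by
      intro h2
      apply hμ
      linarith
    have hx1 : x ≠ 0 := by
      rintro rfl
      rw [h.G0] at hGx
      exact hne hGx.symm
    have hx2 : x ≠ w0 / 2 := by
      rintro rfl
      exact hne2 hGx.symm
    have hx3 : x' ≠ w0 / 2 := by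
      rintro rfl
      exact hne2 hGx'.symm
    have hx4 : x' ≠ w0 := by
      rintro rfl
      rw [hZ.2] at hGx'
      exact hne hGx'.symm
    refine ⟨x, x', _, lt_of_le_of_ne hx.1 hx1.symm, ?_, lt_of_le_of_ne hx'.2 hx4, hne, hGx, hGx'⟩
    exact (lt_of_le_of_ne hx.2 hx2).trans (lt_of_le_of_ne hx'.1 hx3.symm)
  have hin := h.inner2 hn hp hZ.2 hx0 (hxx.trans hx'w)
  have hin' := h.inner2 hn hp hZ.2 (hx0.trans hxx) hx'w
  have hGG : ∀ n, G f ((f ∘ f)^[n] x) = G f ((f ∘ f)^[n] x') := by
    intro n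
    rw [h.G_ff hn hp, h.G_ff hn hp, hGx, hGx']
  have hstep : ∀ n x, (f ∘ f)^[n + 1] x =
      (f ∘ f)^[n] x - G f ((f ∘ f)^[n] x) + f (G f ((f ∘ f)^[n] x)) := by
    intro n x
    rw [iterate_succ_apply' (f ∘ f), comp_apply, h.ff hn hp]
  have hdiff : ∀ n, (f ∘ f)^[n] x' - (f ∘ f)^[n] x = x' - x := by
    intro n
    induction n with
    | zero => rfl
    | succ n ih =>
      rw [hstep, hstep, hGG]
      linarith
  -- sign of the companion values
  have hsign : ∀ n, (0 < κ → 0 < G f ((f ∘ f)^[n] x)) ∧ (κ < 0 → G f ((f ∘ f)^[n] x) < 0) := by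
    intro n
    rw [h.G_ff hn hp, hGx]
    induction n with
    | zero => exact ⟨fun h => h, fun h => h⟩
    | succ n ih =>
      rw [iterate_succ_apply' (f ∘ f), comp_apply]
      exact ⟨fun h1 => hp _ (hn _ (ih.1 h1)), fun h1 => hn _ (hp _ (ih.2 h1))⟩
  rcases lt_or_gt_of_ne hκ with hκn | hκp
  · -- increasing orbit of `x`, bounded by `w0 - (x' - x)`
    have hle : ∀ n, x ≤ (f ∘ f)^[n] x := by
      intro n
      induction n with
      | zero => exact le_rfl
      | succ n ih =>
        rw [hstep]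
        have h1 := (hsign n).2 hκn
        linarith [hp _ h1]
    obtain ⟨z, hz, hmax⟩ := isCompact_Icc.exists_isMaxOn
      (Set.nonempty_Icc.2 (show x ≤ w0 - (x' - x) by linarith)) h.cG.continuousOn
    have hz1 : G f z ≠ 0 := hno z (by linarith [hz.1]) (by linarith [hz.2])
    have hmem : ∀ n, (f ∘ f)^[n] x ∈ Set.Icc x (w0 - (x' - x)) := fun n =>
      ⟨hle n, by linarith [hdiff n, (hin' n).2]⟩
    have hz2 : G f z < 0 := by
      by_contra h1
      push Not at h1
      have h2 : 0 < G f z := lt_of_le_of_ne h1 hz1.symm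
      obtain ⟨v, hv, hGv⟩ := intermediate_value_uIcc (a := x) (b := z) h.cG.continuousOn
        (show (0 : ℝ) ∈ Set.uIcc (G f x) (G f z) by
          rw [hGx, Set.mem_uIcc]
          exact Or.inl ⟨hκn.le, h2.le⟩)
      rw [Set.uIcc_of_le hz.1] at hv
      exact hno v (by linarith [hv.1]) (by linarith [hv.2, hz.2]) hGv
    have hgrow : ∀ n : ℕ, x + n * (-G f z) ≤ (f ∘ f)^[n] x := by
      intro n
      induction n with
      | zero => simp
      | succ n ih =>
        rw [hstep]
        have h1 := hp _ ((hsign n).2 hκn)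
        have h2 : G f ((f ∘ f)^[n] x) ≤ G f z := hmax (hmem n)
        push_cast
        linarith
    obtain ⟨n, hn'⟩ := exists_nat_gt (w0 / (-G f z))
    rw [div_lt_iff₀ (by linarith)] at hn'
    linarith [hgrow n, (hin n).2]
  · -- decreasing orbit of `x'`, bounded below by `x' - x`
    have hle : ∀ n, (f ∘ f)^[n] x' ≤ x' := by
      intro n
      induction n with
      | zero => exact le_rfl
      | succ n ih =>
        rw [hstep, ← hGG]
        have h1 := (hsign n).1 hκp
        linarith [hn _ h1]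
    obtain ⟨z, hz, hmin⟩ := isCompact_Icc.exists_isMinOn
      (Set.nonempty_Icc.2 (show x' - x ≤ x' by linarith)) h.cG.continuousOn
    have hz1 : G f z ≠ 0 := hno z (by linarith [hz.1]) (by linarith [hz.2])
    have hmem : ∀ n, (f ∘ f)^[n] x' ∈ Set.Icc (x' - x) x' := fun n =>
      ⟨by linarith [hdiff n, (hin n).1], hle n⟩
    have hz2 : 0 < G f z := by
      by_contra h1
      push Not at h1
      have h2 : G f z < 0 := lt_of_le_of_ne h1 hz1
      obtain ⟨v, hv, hGv⟩ := intermediate_value_uIcc (a := z) (b := x') h.cG.continuousOn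
        (show (0 : ℝ) ∈ Set.uIcc (G f z) (G f x') by
          rw [hGx', Set.mem_uIcc]
          exact Or.inl ⟨h2.le, hκp.le⟩)
      rw [Set.uIcc_of_le hz.2] at hv
      exact hno v (by linarith [hv.1, hz.1]) (by linarith [hv.2]) hGv
    have hgrow : ∀ n : ℕ, (f ∘ f)^[n] x' ≤ x' - n * G f z := by
      intro n
      induction n with
      | zero => simp
      | succ n ih =>
        rw [hstep]
        have h1 := hn _ ((hsign n).1 hκp)
        rw [hGG] at h1
        have h2 : G f z ≤ G f ((f ∘ f)^[n] x') := hmin (hmem n)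
        push_cast
        linarith
    obtain ⟨n, hn'⟩ := exists_nat_gt (x' / (G f z))
    rw [div_lt_iff₀ hz2] at hn'
    linarith [hgrow n, (hin' n).1]

/-- A nonzero zero of the companion map forces `f = -id`. -/
theorem Sol.invol {w : ℝ} (hw0 : w ≠ 0) (hw : G f w = 0) : ∀ x, G f x = 0 := by
  -- a positive zero
  obtain ⟨w, hw0, hw⟩ : ∃ w, 0 < w ∧ G f w = 0 := by
    rcases lt_or_gt_of_ne hw0 with h1 | h1
    · exact ⟨-w, by linarith, h.K_neg hn hp hw⟩
    · exact ⟨w, h1, hw⟩
  have hpos : ∀ x, 0 < x → G f x = 0 := by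
    by_contra hcon
    push Not at hcon
    obtain ⟨X1, hX1, hGX1⟩ := hcon
    let A : Set ℝ := {x | 0 ≤ x ∧ G f x = 0}
    have hAb : BddAbove A := by
      refine ⟨X1, fun x hx => ?_⟩
      by_contra h1
      push Not at h1
      exact hGX1 (h.K_below hn hp hx.2 X1 hX1 h1)
    have hAc : IsClosed A :=
      (isClosed_le continuous_const continuous_id).inter (isClosed_eq h.cG continuous_const)
    have hWA := hAc.csSup_mem ⟨w, hw0.le, hw⟩ hAb
    set W := sSup A with hW
    have hWpos : 0 < W := hw0.trans_le (le_csSup hAb ⟨hw0.le, hw⟩)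
    have hbey : ∀ x, W < x → G f x ≠ 0 := fun x hx h1 =>
      absurd (le_csSup hAb (show x ∈ A from ⟨by linarith, h1⟩)) (not_le.2 hx)
    have hKin : ∀ x, -W ≤ x → x ≤ W → G f x = 0 := by
      intro x h1 h2
      rcases lt_trichotomy x 0 with h3 | h3 | h3
      · have : G f (-x) = 0 := by
          rcases (show -x ≤ W by linarith).lt_or_eq with h4 | h4
          · exact h.K_below hn hp hWA.2 _ (by linarith) h4
          · rw [h4]
            exact hWA.2
        have h5 := h.K_neg hn hp this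
        rwa [neg_neg] at h5
      · rw [h3]
        exact h.G0
      · rcases h2.lt_or_eq with h4 | h4
        · exact h.K_below hn hp hWA.2 _ h3 h4
        · rw [h4]
          exact hWA.2
    have hout : ∀ x, W < x → f x < -W := by
      intro x hx
      by_contra h1
      push Not at h1
      exact hbey x hx (h.K_back hn hp (hKin _ h1 ((hn x (by linarith)).le.trans hWpos.le)))
    have hout' : ∀ x, x < -W → W < f x := by
      intro x hx
      by_contra h1
      push Not at h1
      have h2 := h.K_back hn hp (hKin _ ((neg_neg_of_pos hWpos).le.trans (hp x (by linarith)).le) h1)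
      have h3 := h.K_neg hn hp h2
      exact hbey (-x) (by linarith) h3
    have hff : ∀ x, W < x → ∀ n, W < (f ∘ f)^[n] x := by
      intro x hx n
      induction n with
      | zero => exact hx
      | succ n ih =>
        rw [iterate_succ_apply' (f ∘ f)]
        exact hout' _ (hout _ ih)
    -- behaviour just beyond `W`
    have hnear : ∀ x, W < x → |G f x| ≤ W → G f x < 0 ∧ ∀ n : ℕ,
        G f (x - 2 * n * G f x) = G f x := by
      intro x hx hxW
      have hK := hKin (G f x) (abs_le.1 hxW).1 (abs_le.1 hxW).2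
      have horb := h.K_orbit hn hp (x := x) rfl hK
      refine ⟨?_, fun n => by rw [← (horb n).1]; exact (horb n).2⟩
      by_contra h1
      push Not at h1
      have h2 : 0 < G f x := lt_of_le_of_ne h1 (hbey x hx).symm
      obtain ⟨n, hn'⟩ := exists_nat_gt (x / (G f x))
      rw [div_lt_iff₀ h2] at hn'
      have h3 := hff x hx n
      rw [(horb n).1] at h3
      have h4 : (0 : ℝ) ≤ n := Nat.cast_nonneg n
      nlinarith
    -- the contradiction at `W + 1`
    have hX := hbey (W + 1) (by linarith)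
    have hXp : 0 < |G f (W + 1)| := abs_pos.2 hX
    obtain ⟨η, hη, h1⟩ := Metric.continuous_iff.1 h.cG (W + 1) (|G f (W + 1)| / 2) (by positivity)
    obtain ⟨ρ, hρ, h2⟩ := Metric.continuous_iff.1 h.cG W (min W (min (η / 2)
      (|G f (W + 1)| / 2))) (by positivity)
    have hx := h2 (W + min (ρ / 2) (1 / 2)) (by
      rw [Real.dist_eq, add_sub_cancel_left, abs_of_pos (by positivity)]
      exact (min_le_left _ _).trans_lt (by linarith))
    rw [hWA.2, Real.dist_eq, sub_zero] at hx
    have hxW : W < W + min (ρ / 2) (1 / 2) := by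
      have : 0 < min (ρ / 2) (1 / 2) := by positivity
      linarith
    have hx1 : W + min (ρ / 2) (1 / 2) < W + 1 := by
      have : min (ρ / 2) (1 / 2) ≤ 1 / 2 := min_le_right _ _
      linarith
    set x := W + min (ρ / 2) (1 / 2) with hxdef
    have hxa : |G f x| < W := hx.trans_le (min_le_left _ _)
    have hxb : |G f x| < η / 2 := hx.trans_le ((min_le_right _ _).trans (min_le_left _ _))
    have hxc : |G f x| < |G f (W + 1)| / 2 :=
      hx.trans_le ((min_le_right _ _).trans (min_le_right _ _))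
    obtain ⟨hκ, hgrid⟩ := hnear x hxW hxa.le
    rw [abs_of_neg hκ] at hxb
    have hδ : 0 < -(2 * G f x) := by linarith
    have hn0 : 0 ≤ (W + 1 - x) / -(2 * G f x) := div_nonneg (by linarith) hδ.le
    have hfl1 := Nat.floor_le hn0
    have hfl2 := Nat.lt_floor_add_one ((W + 1 - x) / -(2 * G f x))
    rw [le_div_iff₀ hδ] at hfl1
    rw [div_lt_iff₀ hδ] at hfl2
    have hg := hgrid ⌊(W + 1 - x) / -(2 * G f x)⌋₊
    have h3 := h1 (x - 2 * ⌊(W + 1 - x) / -(2 * G f x)⌋₊ * G f x) (by
      rw [Real.dist_eq, abs_lt]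
      constructor <;> nlinarith)
    rw [hg, Real.dist_eq] at h3
    have h4 := abs_sub_abs_le_abs_sub (G f (W + 1)) (G f x)
    rw [abs_sub_comm] at h4
    linarith
  intro x
  rcases lt_trichotomy x 0 with h1 | h1 | h1
  · have := h.K_neg hn hp (hpos (-x) (by linarith))
    rwa [neg_neg] at this
  · rw [h1]
    exact h.G0
  · exact hpos x h1

end neg

end Pool.Agent.V11189.FE
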