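import Pool.Agent.V11189.FeGL

set_option autoImplicit false

open Function Filter Topology

namespace Pool.Agent.V11189.FE

/-- A continuous solution of the functional equation. -/
structure Sol (f : ℝ → ℝ) : Prop where
  c : Continuous f
  e : ∀ x, f (x + f x) = f x + f (f x)

/-- The companion map. -/
def G (f : ℝ → ℝ) (x : ℝ) : ℝ := x + f x

variable {f : ℝ → ℝ}

theorem Sol.zero (h : Sol f) : f 0 = 0 := by
  have := h.e 0
  rw [zero_add] at this
  linarith

theorem Sol.mirror (h : Sol f) : Sol fun x => -f (-x) := by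
  refine ⟨(h.c.comp continuous_neg).neg, fun x => ?_⟩
  have := h.e (-x)
  have e1 : -(x + -f (-x)) = -x + f (-x) := by ring
  simp only [e1, this, neg_neg]
  ring

theorem Sol.cG (h : Sol f) : Continuous (G f) := continuous_id.add h.c

theorem Sol.commute (h : Sol f) : Function.Commute f (G f) := h.e

theorem Sol.iter (h : Sol f) (n : ℕ) (x : ℝ) : f ((G f)^[n] x) = (G f)^[n] (f x) :=
  (h.commute.iterate_right n) x

theorem iter_succ (f : ℝ → ℝ) (n : ℕ) (x : ℝ) :
    (G f)^[n + 1] x = (G f)^[n] x + f ((G f)^[n] x) := by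
  rw [iterate_succ_apply']
  rfl

theorem Sol.G0 (h : Sol f) : G f 0 = 0 := by
  unfold G
  rw [h.zero, add_zero]

theorem Sol.Gn0 (h : Sol f) (n : ℕ) : (G f)^[n] 0 = 0 := by
  induction n with
  | zero => rfl
  | succ n ih => rw [iter_succ, ih, h.zero, add_zero]

theorem Sol.grid (h : Sol f) {x c : ℝ} (h1 : f x = c) (h2 : f c = 0) (n : ℕ) :
    f (x + n * c) = c := by
  induction n with
  | zero => simpa using h1
  | succ n ih =>
    have := h.e (x + n * c)
    rw [ih, h2, add_zero] at this
    rw [show x + ((n + 1 : ℕ) : ℝ) * c = x + n * c + c by push_cast; ring]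
    exact this

/-- A nonnegative solution on `[0, c]` with a zero at `c` vanishes on `[0, c]`. -/
theorem Sol.zero_Icc (h : Sol f) {c : ℝ} (hc : 0 < c) (hf : ∀ x, 0 ≤ x → x ≤ c → 0 ≤ f x)
    (hfc : f c = 0) : ∀ x, 0 ≤ x → x ≤ c → f x = 0 := by
  -- the interval is invariant
  have hinv : ∀ n : ℕ, ∀ k ≤ n, ∀ s, 0 ≤ s → s ≤ c → 0 ≤ (G f)^[k] s ∧ (G f)^[k] s ≤ c := by
    intro n
    induction n with
    | zero =>
      intro k hk s h0 h1
      obtain rfl : k = 0 := by omega
      exact ⟨h0, h1⟩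
    | succ n ih =>
      intro k hk s h0 h1
      rcases Nat.lt_or_ge k (n + 1) with hk' | hk'
      · exact ih k (by omega) s h0 h1
      obtain rfl : k = n + 1 := by omega
      have h2 := ih n le_rfl s h0 h1
      have h3 := hf _ h2.1 h2.2
      constructor
      · rw [iter_succ]
        linarith [h2.1]
      by_contra hcon
      push Not at hcon
      have hcG : Continuous ((G f)^[n + 1]) := h.cG.iterate _
      obtain ⟨y, hy, hyc⟩ := intermediate_value_Icc h0 hcG.continuousOn
        (show c ∈ Set.Icc ((G f)^[n + 1] 0) ((G f)^[n + 1] s) by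
          rw [h.Gn0]
          exact ⟨hc.le, hcon.le⟩)
      have hys : y ≠ s := by
        rintro rfl
        rw [hyc] at hcon
        exact lt_irrefl _ hcon
      have hyc' : y < c := (lt_of_le_of_ne hy.2 hys).trans_le h1
      -- the sequence of values
      have hw : ∀ j ≤ n, 0 ≤ f ((G f)^[j] y) ∧ f ((G f)^[j] y) ≤ c := by
        intro j hj
        have h4 := ih j hj y hy.1 hyc'.le
        refine ⟨hf _ h4.1 h4.2, ?_⟩
        have h5 := iter_succ f j y
        have h6 : (G f)^[j + 1] y ≤ c := by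
          rcases Nat.lt_or_ge j n with hj' | hj'
          · exact (ih (j + 1) hj' y hy.1 hyc'.le).2
          · obtain rfl : j = n := by omega
            exact hyc.le
        linarith [h4.1]
      have hmono : ∀ j ≤ n, f ((G f)^[j] y) ≤ f ((G f)^[j + 1] y) := by
        intro j hj
        have h4 := hw j hj
        rw [iter_succ f j y, h.e]
        linarith [hf _ h4.1 h4.2]
      have hall : ∀ j ≤ n + 1, f y ≤ f ((G f)^[j] y) := by
        intro j
        induction j with
        | zero => intro _; exact le_rfl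
        | succ j ihj =>
          intro hj
          exact (ihj (by omega)).trans (hmono j (by omega))
      have h7 := hall (n + 1) le_rfl
      rw [hyc, hfc] at h7
      have h8 : f y = 0 := le_antisymm h7 (hf y hy.1 hyc'.le)
      have h9 : ∀ j, (G f)^[j] y = y := by
        intro j
        induction j with
        | zero => rfl
        | succ j ihj => rw [iter_succ, ihj, h8, add_zero]
      rw [h9] at hyc
      linarith
  intro x hx0 hxc
  by_contra hne
  have hpos : 0 < f x := lt_of_le_of_ne (hf x hx0 hxc) (Ne.symm hne)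
  have hin : ∀ n, 0 ≤ (G f)^[n] x ∧ (G f)^[n] x ≤ c := fun n => hinv n n le_rfl x hx0 hxc
  have hw : ∀ n, f x ≤ f ((G f)^[n] x) := by
    intro n
    induction n with
    | zero => exact le_rfl
    | succ n ih =>
      have h1 := hin n
      have h2 := hin (n + 1)
      rw [iter_succ] at h2
      have h3 : f ((G f)^[n] x) ≤ c := by linarith [h1.1, h2.2]
      rw [iter_succ, h.e]
      linarith [hf _ (hpos.le.trans ih) h3]
  have hgrow : ∀ n : ℕ, x + n * f x ≤ (G f)^[n] x := by
    intro n
    induction n with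
    | zero => simp
    | succ n ih =>
      rw [iter_succ]
      push_cast
      linarith [hw n]
  obtain ⟨n, hn⟩ := exists_nat_gt (c / f x)
  rw [div_lt_iff₀ hpos] at hn
  linarith [hgrow n, (hin n).2]

/-- If zeros accumulate at `0` from the right, `f` vanishes at many points. -/
theorem Sol.dens (h : Sol f) (hz : ∀ ε > 0, ∃ δ, 0 < δ ∧ δ < ε ∧ f δ = 0) {X q : ℝ} (hX : 0 ≤ X)
    (hq : q ≤ X) (hfq : 0 < f q) : f X = 0 := by
  by_contra hne
  have hpos : 0 < |f X| := abs_pos.2 hne
  obtain ⟨η, hη, h1⟩ := Metric.continuous_iff.1 h.c X (|f X| / 2) (by positivity)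
  obtain ⟨δ, hδ0, hδ, hfδ⟩ := hz (min η (min (|f X| / 2) (f q))) (by positivity)
  have hδη : δ < η := hδ.trans_le (min_le_left _ _)
  have hδX : δ < |f X| / 2 := hδ.trans_le ((min_le_right _ _).trans (min_le_left _ _))
  have hδq : δ < f q := hδ.trans_le ((min_le_right _ _).trans (min_le_right _ _))
  obtain ⟨x, hx, hfx⟩ := intermediate_value_uIcc (a := 0) (b := q) h.c.continuousOn
    (show δ ∈ Set.uIcc (f 0) (f q) by
      rw [h.zero, Set.mem_uIcc]
      exact Or.inl ⟨hδ0.le, hδq.le⟩)
  have hxX : x ≤ X := by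
    rw [Set.mem_uIcc] at hx
    rcases hx with hx | hx
    · exact hx.2.trans hq
    · exact hx.2.trans hX
  -- the grid point
  have hn0 : 0 ≤ (X - x) / δ := div_nonneg (by linarith) hδ0.le
  have hfl1 := Nat.floor_le hn0
  have hfl2 := Nat.lt_floor_add_one ((X - x) / δ)
  rw [le_div_iff₀ hδ0] at hfl1
  rw [div_lt_iff₀ hδ0] at hfl2
  have hg := h.grid hfx hfδ ⌊(X - x) / δ⌋₊
  have h2 := h1 (x + ⌊(X - x) / δ⌋₊ * δ) (by
    rw [Real.dist_eq, abs_lt]
    constructor <;> linarith)
  rw [hg, Real.dist_eq] at h2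
  have h3 : |f X| ≤ |δ - f X| + |δ| := by
    have := abs_sub_abs_le_abs_sub (f X) δ
    rw [abs_sub_comm] at this
    linarith
  rw [abs_of_pos hδ0] at h3
  linarith

/-- Nonnegative solutions on the positive half-line are linear there. -/
theorem Sol.half (h : Sol f) (hf : ∀ x, 0 ≤ x → 0 ≤ f x) : ∃ a, 0 ≤ a ∧ ∀ x, 0 ≤ x → f x = a * x := by
  by_cases hall : ∀ x, 0 ≤ x → f x = 0
  · exact ⟨0, le_rfl, fun x hx => by rw [hall x hx, zero_mul]⟩
  push Not at hall
  obtain ⟨x0, hx0, hfx0⟩ := hall
  have hfx0' : 0 < f x0 := lt_of_le_of_ne (hf x0 hx0) (Ne.symm hfx0)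
  -- no positive zeros
  have hpos : ∀ x, 0 < x → 0 < f x := by
    intro c hc
    by_contra hcon
    push Not at hcon
    have hfc : f c = 0 := le_antisymm hcon (hf c hc.le)
    have hz := h.zero_Icc hc (fun x h0 _ => hf x h0) hfc
    apply hfx0
    apply h.dens _ hx0 le_rfl hfx0'
    intro ε hε
    refine ⟨min (ε / 2) c, by positivity, ?_, ?_⟩
    · exact (min_le_left _ _).trans_lt (by linarith)
    · exact hz _ (by positivity) (min_le_right _ _)
  -- growth
  have hge : ∀ n : ℕ, ∀ x, 0 ≤ x → x ≤ (G f)^[n] x := by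
    intro n
    induction n with
    | zero => exact fun x _ => le_rfl
    | succ n ih =>
      intro x hx
      rw [iter_succ]
      have h1 := ih x hx
      linarith [hf _ (hx.trans h1)]
  have hgrow : ∀ n : ℕ, ∀ x, 0 < x → x + n * f x ≤ (G f)^[n] x := by
    intro n
    induction n with
    | zero => intro x _; simp
    | succ n ih =>
      intro x hx
      rw [iter_succ, h.iter]
      push_cast
      linarith [ih x hx, hge n (f x) (hpos x hx).le]
  -- the odd extension
  let F : ℝ → ℝ := fun x => if 0 ≤ x then f x else -f (-x)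
  have hFc : Continuous F := by
    apply Continuous.if_le h.c (h.c.comp continuous_neg).neg continuous_const continuous_id
    intro x hx
    simp only [id] at hx
    rw [← hx]
    change f 0 = -f (-0)
    rw [neg_zero, h.zero, neg_zero]
  have hF1 : ∀ x, 0 ≤ x → F x = f x := fun x hx => if_pos hx
  have hFodd : ∀ x, F (-x) = -F x := by
    intro x
    rcases lt_trichotomy x 0 with hx | rfl | hx
    · simp only [F, if_pos (neg_pos.2 hx).le, if_neg (not_le.2 hx), neg_neg]
    · simp [F, h.zero]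
    · simp only [F, if_pos hx.le, if_neg (not_le.2 (neg_neg_of_pos hx)), neg_neg]
  have hFpos : ∀ x, 0 < x → 0 < F x := fun x hx => by
    rw [hF1 x hx.le]
    exact hpos x hx
  have hFneg : ∀ x, x < 0 → F x < 0 := fun x hx => by
    have := hFpos (-x) (neg_pos.2 hx)
    rw [hFodd] at this
    linarith
  have hFe : ∀ x, F (x + F x) = F x + F (F x) := by
    have key : ∀ x, 0 ≤ x → F (x + F x) = F x + F (F x) := by
      intro x hx
      rw [hF1 x hx, hF1 _ (add_nonneg hx (hf x hx)), hF1 _ (hf x hx)]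
      exact h.e x
    intro x
    rcases le_total 0 x with hx | hx
    · exact key x hx
    · have := key (-x) (neg_nonneg.2 hx)
      rw [hFodd, ← neg_add, hFodd, hFodd] at this
      linarith
  have hFrel : ∀ x, |x + F x| = |x| + |F x| := by
    intro x
    rcases lt_trichotomy x 0 with hx | rfl | hx
    · rw [abs_of_neg hx, abs_of_neg (hFneg x hx), abs_of_neg (by linarith [hFneg x hx])]
      ring
    · simp
    · rw [abs_of_pos hx, abs_of_pos (hFpos x hx), abs_of_pos (by linarith [hFpos x hx])]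
  have hF0 : F 0 = 0 := by rw [hF1 0 le_rfl, h.zero]
  have honto_pos : ∀ y, 0 ≤ y → ∃ x, 0 ≤ x ∧ F x = y := by
    intro y hy
    have h1 := hpos 1 one_pos
    have h2 := hpos _ h1
    obtain ⟨n, hn⟩ := exists_nat_gt (y / f (f 1))
    rw [div_lt_iff₀ h2] at hn
    have h3 : y ≤ f ((G f)^[n] 1) := by
      rw [h.iter]
      linarith [hgrow n (f 1) h1]
    have h4 : (0 : ℝ) ≤ (G f)^[n] 1 := zero_le_one.trans (hge n 1 zero_le_one)
    obtain ⟨x, hx, hxy⟩ := intermediate_value_Icc h4 hFc.continuousOn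
      (show y ∈ Set.Icc (F 0) (F ((G f)^[n] 1)) by
        rw [hF0, hF1 _ h4]
        exact ⟨hy, h3⟩)
    exact ⟨x, hx.1, hxy⟩
  have hsa : Surjective F := by
    intro y
    rcases le_total 0 y with hy | hy
    · obtain ⟨x, -, hx⟩ := honto_pos y hy
      exact ⟨x, hx⟩
    · obtain ⟨x, -, hx⟩ := honto_pos (-y) (neg_nonneg.2 hy)
      exact ⟨-x, by rw [hFodd, hx, neg_neg]⟩
  have hsb_pos : ∀ y, 0 ≤ y → ∃ x, x + F x = y := by
    intro y hy
    have hc2 : Continuous fun x => x + F x := continuous_id.add hFc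
    obtain ⟨x, hx, hxy⟩ := intermediate_value_Icc hy hc2.continuousOn
      (show y ∈ Set.Icc (0 + F 0) (y + F y) by
        rw [hF0]
        exact ⟨by linarith, by linarith [hf y hy, hF1 y hy]⟩)
    exact ⟨x, hxy⟩
  have hsb : Surjective fun x => x + F x := by
    intro y
    rcases le_total 0 y with hy | hy
    · exact hsb_pos y hy
    · obtain ⟨x, hx⟩ := hsb_pos (-y) (neg_nonneg.2 hy)
      refine ⟨-x, ?_⟩
      simp only [hFodd]
      linarith
  have hP : Pair F (fun x => x + F x) :=
    { ca := hFc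
      cb := continuous_id.add hFc
      za := by
        intro x hx
        rcases lt_trichotomy x 0 with h1 | h1 | h1
        · exact absurd hx (hFneg x h1).ne
        · exact h1
        · exact absurd hx (hFpos x h1).ne'
      b0 := by simp [hF0]
      sa := hsa
      sb := hsb
      comm := fun x => hFe x
      rel := hFrel }
  obtain ⟨z, hz0, hz⟩ := hP.linear (Or.inl fun x => ⟨hFodd x, by simp only [hFodd]; ring⟩)
  refine ⟨z, hz0, fun x hx => ?_⟩
  have := hz x
  rw [hF1 x hx, abs_of_nonneg (hf x hx), abs_of_nonneg hx] at this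
  exact this

theorem Sol.half' (h : Sol f) (hf : ∀ x, x ≤ 0 → f x ≤ 0) :
    ∃ b, 0 ≤ b ∧ ∀ x, x ≤ 0 → f x = b * x := by
  obtain ⟨b, hb, h1⟩ := h.mirror.half (fun x hx => by
    linarith [hf (-x) (by linarith)])
  refine ⟨b, hb, fun x hx => ?_⟩
  have := h1 (-x) (by linarith)
  simp only [neg_neg] at this
  linarith

/-- Orbits ending in a linear negative part. -/
theorem Sol.orbit (h : Sol f) {b t : ℝ} (hb : 0 ≤ b) (hneg : ∀ x, x ≤ 0 → f x = b * x)
    (ht : f t < 0) (n : ℕ) : f ((G f)^[n] t) = f t + b * ((G f)^[n] t - t) ∧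
      f ((G f)^[n] t) ≤ f t ∧ (G f)^[n] t ≤ t + n * f t := by
  induction n with
  | zero => simp
  | succ n ih =>
    obtain ⟨h1, h2, h3⟩ := ih
    have h4 : f ((G f)^[n + 1] t) = f ((G f)^[n] t) + b * f ((G f)^[n] t) := by
      rw [iter_succ, h.e, hneg (f ((G f)^[n] t)) (by linarith)]
    refine ⟨?_, ?_, ?_⟩
    · rw [h4, iter_succ]
      linarith
    · rw [h4]
      nlinarith
    · rw [iter_succ]
      push_cast
      linarith

/-- A solution that is nonnegative near `0` on the right is nonnegative on the right. -/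
theorem Sol.germ (h : Sol f) {c0 : ℝ} (hc0 : 0 < c0) (hf : ∀ x, 0 ≤ x → x ≤ c0 → 0 ≤ f x) :
    ∀ x, 0 ≤ x → 0 ≤ f x := by
  by_contra hcon
  push Not at hcon
  obtain ⟨t0, ht0, hft0⟩ := hcon
  let C : Set ℝ := {t | 0 ≤ t ∧ f t < 0}
  have hCne : C.Nonempty := ⟨t0, ht0, hft0⟩
  have hCb : BddBelow C := ⟨0, fun t ht => ht.1⟩
  have hc1 : c0 ≤ sInf C := le_csInf hCne fun t ht => by
    by_contra h1
    push Not at h1
    linarith [hf t ht.1 h1.le, ht.2]
  set c := sInf C with hcdef
  have hc : 0 < c := hc0.trans_le hc1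
  have hlt : ∀ x, 0 ≤ x → x < c → 0 ≤ f x := by
    intro x h0 h1
    by_contra h2
    push Not at h2
    exact absurd (csInf_le hCb (show x ∈ C from ⟨h0, h2⟩)) (not_le.2 h1)
  have hcl : c ∈ closure C := csInf_mem_closure hCne hCb
  have hfc_le : f c ≤ 0 := by
    have : IsClosed {x | f x ≤ 0} := isClosed_le h.c continuous_const
    exact (this.closure_subset_iff.2 fun x hx => hx.2.le) hcl
  have hfc_ge : 0 ≤ f c := by
    have hcl2 : IsClosed {x | 0 ≤ f x} := isClosed_le continuous_const h.c
    have h3 : closure (Set.Ico 0 c) ⊆ {x | 0 ≤ f x} :=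
      hcl2.closure_subset_iff.2 fun x hx => hlt x hx.1 hx.2
    rw [closure_Ico hc.ne] at h3
    exact h3 ⟨hc.le, le_rfl⟩
  have hfc : f c = 0 := le_antisymm hfc_le hfc_ge
  have hle : ∀ x, 0 ≤ x → x ≤ c → 0 ≤ f x := by
    intro x h0 h1
    rcases h1.lt_or_eq with h1 | h1
    · exact hlt x h0 h1
    · rw [h1]
      exact hfc_ge
  have hz := h.zero_Icc hc hle hfc
  -- the negative side
  have hneg : ∀ x, x ≤ 0 → f x ≤ 0 := by
    intro y hy
    by_contra h1
    push Not at h1
    obtain ⟨x, hx, hfx⟩ := intermediate_value_uIcc (a := y) (b := 0) h.c.continuousOn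
      (show min (f y) (c / 2) ∈ Set.uIcc (f y) (f 0) by
        rw [h.zero, Set.mem_uIcc]
        exact Or.inr ⟨by positivity, min_le_left _ _⟩)
    have hδ : 0 < min (f y) (c / 2) := by positivity
    have hδc : min (f y) (c / 2) < c := (min_le_right _ _).trans_lt (by linarith)
    set δ := min (f y) (c / 2) with hδdef
    have hx0 : x ≤ 0 := by
      rw [Set.mem_uIcc] at hx
      rcases hx with hx | hx
      · exact hx.2
      · exact hx.2.trans hy
    have hg := h.grid hfx (hz δ hδ.le hδc.le) ⌈(-x) / δ⌉₊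
    have h2 := Nat.le_ceil ((-x) / δ)
    have h3 := Nat.ceil_lt_add_one (div_nonneg (neg_nonneg.2 hx0) hδ.le)
    rw [div_le_iff₀ hδ] at h2
    have h3' : (⌈(-x) / δ⌉₊ : ℝ) * δ < -x + δ := by
      have := mul_lt_mul_of_pos_right h3 hδ
      rw [add_mul, div_mul_cancel₀ _ hδ.ne', one_mul] at this
      exact this
    rw [hz _ (by linarith) (by linarith)] at hg
    linarith
  obtain ⟨b, hb, hlin⟩ := h.half' hneg
  -- a point close to `c`
  have hφ : Continuous fun t => -f t + b * (t - c) :=
    h.c.neg.add (continuous_const.mul (continuous_id.sub continuous_const))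
  have hnb : {t | -f t + b * (t - c) < c} ∈ 𝓝 c := by
    apply (isOpen_lt hφ continuous_const).mem_nhds
    simp only [Set.mem_ofPred_eq, hfc, sub_self, mul_zero, neg_zero, add_zero]
    exact hc
  obtain ⟨t, ht1, ht2⟩ := mem_closure_iff_nhds.1 hcl _ hnb
  have htc : c ≤ t := csInf_le hCb ht2
  have htne : c ≠ t := by
    rintro h1
    rw [← h1] at ht2
    linarith [ht2.2]
  have hft : f t < 0 := ht2.2
  have hS : ∀ n, c < (G f)^[n] t := by
    intro n
    induction n with
    | zero => exact lt_of_le_of_ne htc htne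
    | succ n ih =>
      obtain ⟨h1, h2, h3⟩ := h.orbit hb hlin hft n
      obtain ⟨-, h5, -⟩ := h.orbit hb hlin hft (n + 1)
      by_contra h6
      push Not at h6
      have h7 : 0 ≤ (G f)^[n + 1] t := by
        rw [iter_succ, h1]
        have : -f t + b * (t - c) < c := ht1
        nlinarith
      rw [hz _ h7 h6] at h5
      linarith
  obtain ⟨n, hn⟩ := exists_nat_gt (t / (-f t))
  rw [div_lt_iff₀ (by linarith)] at hn
  obtain ⟨-, -, h3⟩ := h.orbit hb hlin hft n
  linarith [hS n]

theorem Sol.germ' (h : Sol f) {c0 : ℝ} (hc0 : 0 < c0) (hf : ∀ x, -c0 ≤ x → x ≤ 0 → f x ≤ 0) :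
    ∀ x, x ≤ 0 → f x ≤ 0 := by
  intro x hx
  have := h.mirror.germ hc0 (fun x h0 h1 => by
    linarith [hf (-x) (by linarith) (by linarith)]) (-x) (by linarith)
  simp only [neg_neg] at this
  linarith

/-- If the negative side is good, so is the positive side. -/
theorem Sol.mix (h : Sol f) (hf : ∀ x, x ≤ 0 → f x ≤ 0) : ∀ x, 0 ≤ x → 0 ≤ f x := by
  obtain ⟨b, hb, hlin⟩ := h.half' hf
  intro x hx
  by_contra hcon
  push Not at hcon
  obtain ⟨n, hn⟩ := exists_nat_gt (x / (-f x))
  rw [div_lt_iff₀ (by linarith)] at hn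
  obtain ⟨h1, -, h3⟩ := h.orbit hb hlin hcon n
  rw [hlin _ (by linarith)] at h1
  nlinarith

theorem Sol.mix' (h : Sol f) (hf : ∀ x, 0 ≤ x → 0 ≤ f x) : ∀ x, x ≤ 0 → f x ≤ 0 := by
  intro x hx
  have := h.mirror.mix (fun x h0 => by
    linarith [hf (-x) (by linarith)]) (-x) (by linarith)
  simp only [neg_neg] at this
  linarith

end Pool.Agent.V11189.FE
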