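import Pool.Agent.V11189.KChains

set_option autoImplicit false
set_option linter.unusedSectionVars false

open Set Topology Pool.Agent.V11189.KChains

namespace Pool.Agent.V11189.Johnstone

variable {L : Type} [LinearOrder L] [WellFoundedLT L] [NoMaxOrder L] [Nonempty L]

/-! ### The dcpo -/

/-- The underlying set `L × (L + 1)`. -/
@[ext] structure P (L : Type) : Type where
  /-- the column -/
  c : L
  /-- the level -/
  l : WithTop L

instance : LE (P L) := ⟨fun p q => (p.c = q.c ∧ p.l ≤ q.l) ∨ (q.l = ⊤ ∧ p.l ≤ (q.c : WithTop L))⟩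

theorem le_def {p q : P L} :
    p ≤ q ↔ (p.c = q.c ∧ p.l ≤ q.l) ∨ (q.l = ⊤ ∧ p.l ≤ (q.c : WithTop L)) := Iff.rfl

theorem not_top_le {a : L} : ¬ (⊤ : WithTop L) ≤ a := not_le.2 (WithTop.coe_lt_top a)

noncomputable instance : PartialOrder (P L) where
  le_refl p := Or.inl ⟨rfl, le_rfl⟩
  le_trans p q r := by
    rintro (⟨h1, h2⟩ | ⟨h1, h2⟩) (⟨h3, h4⟩ | ⟨h3, h4⟩)
    · exact Or.inl ⟨h1.trans h3, h2.trans h4⟩
    · exact Or.inr ⟨h3, h2.trans h4⟩
    · rw [h1] at h4
      refine Or.inr ⟨top_le_iff.1 h4, ?_⟩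
      rw [← h3]
      exact h2
    · rw [h1] at h4
      exact absurd h4 not_top_le
  le_antisymm p q := by
    rintro (⟨h1, h2⟩ | ⟨h1, h2⟩) (⟨h3, h4⟩ | ⟨h3, h4⟩)
    · exact P.ext h1 (le_antisymm h2 h4)
    · rw [h3] at h2
      have h5 := top_le_iff.1 h2
      exact P.ext h1 (h3.trans h5.symm)
    · rw [h1] at h4
      have h5 := top_le_iff.1 h4
      exact P.ext h3.symm (h5.trans h1.symm)
    · rw [h1] at h4
      exact absurd h4 not_top_le

/-- Elements of level `⊤` are maximal. -/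
theorem maximal_top {p q : P L} (hp : p.l = ⊤) (h : p ≤ q) : q = p := by
  rcases h with ⟨h1, h2⟩ | ⟨h1, h2⟩
  · rw [hp] at h2
    exact P.ext h1.symm ((top_le_iff.1 h2).trans hp.symm)
  · rw [hp] at h2
    exact absurd h2 not_top_le

/-- `P` is directed complete. -/
theorem dcpo (d : Set (P L)) (hne : d.Nonempty) (hd : DirectedOn (· ≤ ·) d) : ∃ x : P L, IsLUB d x := by
  classical
  by_cases htop : ∃ p ∈ d, p.l = ⊤
  · obtain ⟨p, hp, hpt⟩ := htop
    refine ⟨p, ?_, fun q hq => hq hp⟩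
    intro q hq
    obtain ⟨r, hr, h1, h2⟩ := hd p hp q hq
    have := maximal_top hpt h1
    rw [this] at h2
    exact h2
  · push Not at htop
    obtain ⟨p, hp⟩ := hne
    -- all elements are in one column
    have hcol : ∀ q ∈ d, q.c = p.c := by
      intro q hq
      obtain ⟨r, hr, h1, h2⟩ := hd p hp q hq
      have hr' := htop r hr
      rcases h1 with ⟨h1, _⟩ | ⟨h1, _⟩
      · rcases h2 with ⟨h2, _⟩ | ⟨h2, _⟩
        · rw [h2, h1]
        · exact absurd h2 hr'
      · exact absurd h1 hr'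
    -- the supremum of the levels
    obtain ⟨s, hs1, hs2⟩ : ∃ s : WithTop L, (∀ q ∈ d, q.l ≤ s) ∧
        ∀ z : WithTop L, (∀ q ∈ d, q.l ≤ z) → s ≤ z := by
      have hne : ({z : WithTop L | ∀ q ∈ d, q.l ≤ z}).Nonempty := ⟨⊤, fun q _ => le_top⟩
      refine ⟨WellFounded.min (wellFounded_lt (α := WithTop L)) _ hne,
        WellFounded.min_mem (wellFounded_lt (α := WithTop L)) _ hne, ?_⟩
      intro z hz
      exact not_lt.1 (WellFounded.not_lt_min (wellFounded_lt (α := WithTop L))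
        {z : WithTop L | ∀ q ∈ d, q.l ≤ z} hz)
    refine ⟨⟨p.c, s⟩, ?_, ?_⟩
    · intro q hq
      exact Or.inl ⟨hcol q hq, hs1 q hq⟩
    · intro z hz
      by_cases hz' : z.c = p.c
      · by_cases hzt : z.l = ⊤
        · exact Or.inl ⟨hz'.symm, by rw [hzt]; exact le_top⟩
        · refine Or.inl ⟨hz'.symm, hs2 _ ?_⟩
          intro q hq
          rcases hz hq with ⟨_, h⟩ | ⟨h, _⟩
          · exact h
          · exact absurd h hzt
      · have h1 : z.l = ⊤ := by
          rcases hz hp with ⟨h, _⟩ | ⟨h, _⟩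
          · exact absurd h.symm hz'
          · exact h
        refine Or.inr ⟨h1, hs2 _ ?_⟩
        intro q hq
        rcases hz hq with ⟨h, _⟩ | ⟨_, h⟩
        · exact absurd ((hcol q hq).symm.trans h).symm hz'
        · exact h

/-! ### The topology -/

/-- The (Scott) topology: upper sets whose columns are open. -/
instance : TopologicalSpace (P L) where
  IsOpen U := IsUpperSet U ∧ ∀ a : L, IsOpen {x : Up (WithTop L) | (⟨a, x.v⟩ : P L) ∈ U}
  isOpen_univ := ⟨isUpperSet_univ, fun _ => isOpen_univ⟩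
  isOpen_inter := fun U V hU hV => ⟨hU.1.inter hV.1, fun a => (hU.2 a).inter (hV.2 a)⟩
  isOpen_sUnion := by
    intro T hT
    refine ⟨isUpperSet_sUnion fun U hU => (hT U hU).1, fun a => ?_⟩
    have : {x : Up (WithTop L) | (⟨a, x.v⟩ : P L) ∈ ⋃₀ T} =
        ⋃ U ∈ T, {x : Up (WithTop L) | (⟨a, x.v⟩ : P L) ∈ U} := by
      ext x
      simp
    rw [this]
    exact isOpen_biUnion fun U hU => (hT U hU).2 a

theorem isOpen_P {U : Set (P L)} : IsOpen U ↔ IsUpperSet U ∧
    ∀ a : L, IsOpen {x : Up (WithTop L) | (⟨a, x.v⟩ : P L) ∈ U} := Iff.rfl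

theorem isClosed_P {C : Set (P L)} : IsClosed C ↔ IsLowerSet C ∧
    ∀ a : L, IsClosed {x : Up (WithTop L) | (⟨a, x.v⟩ : P L) ∈ C} := by
  rw [← isOpen_compl_iff, isOpen_P]
  constructor
  · rintro ⟨h1, h2⟩
    exact ⟨isUpperSet_compl.1 h1, fun a => ⟨h2 a⟩⟩
  · rintro ⟨h1, h2⟩
    exact ⟨isUpperSet_compl.2 h1, fun a => (h2 a).isOpen_compl⟩

/-- A sufficient condition for closedness. -/
theorem isClosed_of {C : Set (P L)} (h1 : IsLowerSet C) (h2 : ∀ a : L,
    (∀ x, (⟨a, x⟩ : P L) ∈ C) ∨ (∀ x, (⟨a, x⟩ : P L) ∉ C) ∨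
      ∃ s, ∀ x, (⟨a, x⟩ : P L) ∈ C ↔ x ≤ s) : IsClosed C := by
  rw [isClosed_P]
  refine ⟨h1, fun a => ?_⟩
  rcases h2 a with h | h | ⟨s, h⟩
  · have : {x : Up (WithTop L) | (⟨a, x.v⟩ : P L) ∈ C} = Set.univ :=
      eq_univ_of_forall fun x => h x.v
    rw [this]
    exact isClosed_univ
  · have : {x : Up (WithTop L) | (⟨a, x.v⟩ : P L) ∈ C} = ∅ :=
      eq_empty_of_forall_notMem fun x => h x.v
    rw [this]
    exact isClosed_empty
  · have : {x : Up (WithTop L) | (⟨a, x.v⟩ : P L) ∈ C} = closure {⟨s⟩} := by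
      ext x
      rw [mem_closure_singleton_up]
      exact h x.v
    rw [this]
    exact isClosed_closure

/-- The possible columns of a closed set. -/
theorem column_cases {C : Set (P L)} (hC : IsClosed C) {a : L} (hne : ∃ x, (⟨a, x⟩ : P L) ∈ C) :
    (∀ x, (⟨a, x⟩ : P L) ∈ C) ∨ ∃ s, ∀ x, (⟨a, x⟩ : P L) ∈ C ↔ x ≤ s := by
  obtain ⟨x, hx⟩ := hne
  rcases closed_cases ((isClosed_P.1 hC).2 a) ⟨⟨x⟩, hx⟩ with h | ⟨s, hs⟩
  · left
    intro y
    have : (⟨y⟩ : Up (WithTop L)) ∈ {x : Up (WithTop L) | (⟨a, x.v⟩ : P L) ∈ C} := by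
      rw [h]
      trivial
    exact this
  · right
    refine ⟨s.v, fun y => ?_⟩
    have : (⟨y⟩ : Up (WithTop L)) ∈ {x : Up (WithTop L) | (⟨a, x.v⟩ : P L) ∈ C} ↔
        (⟨y⟩ : Up (WithTop L)) ∈ closure {s} := by rw [hs]
    rw [mem_closure_singleton_up] at this
    exact this

theorem isClosed_Iic (p : P L) : IsClosed (Iic p) := by
  apply isClosed_of (isLowerSet_Iic p)
  intro a
  by_cases ha : a = p.c
  · right; right
    refine ⟨p.l, fun x => ?_⟩
    constructor
    · rintro (⟨_, h⟩ | ⟨h, _⟩)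
      · exact h
      · rw [h]
        exact le_top
    · intro h
      exact Or.inl ⟨ha, h⟩
  · by_cases hp : p.l = ⊤
    · right; right
      refine ⟨(p.c : WithTop L), fun x => ?_⟩
      constructor
      · rintro (⟨h, _⟩ | ⟨_, h⟩)
        · exact absurd h ha
        · exact h
      · intro h
        exact Or.inr ⟨hp, h⟩
    · right; left
      rintro x (⟨h, _⟩ | ⟨h, _⟩)
      · exact ha h
      · exact hp h

theorem closure_singleton (p : P L) : closure {p} = Iic p := by
  apply Subset.antisymm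
  · exact closure_minimal (singleton_subset_iff.2 (show p ≤ p from le_rfl)) (isClosed_Iic p)
  · intro q hq
    have h1 := (isClosed_P.1 (isClosed_closure (s := ({p} : Set (P L))))).1
    exact h1 hq (subset_closure rfl)

theorem t0 : T0Space (P L) := by
  constructor
  intro p q h
  have h1 : p ∈ closure {q} := specializes_iff_mem_closure.1 h.specializes'
  have h2 : q ∈ closure {p} := specializes_iff_mem_closure.1 h.specializes
  rw [closure_singleton] at h1 h2
  exact le_antisymm h1 h2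

/-! ### Rudin's lemma -/

theorem rudin {X : Type} [TopologicalSpace X] {𝒦 : Set (Set X)} (hc : ∀ K ∈ 𝒦, IsCompact K)
    {C : Set X} (hC : IsClosed C) (hKC : ∀ K ∈ 𝒦, (K ∩ C).Nonempty) :
    ∃ D ⊆ C, IsClosed D ∧ (∀ K ∈ 𝒦, (K ∩ D).Nonempty) ∧
      ∀ E, IsClosed E → E ⊆ D → (∀ K ∈ 𝒦, (K ∩ E).Nonempty) → E = D := by
  obtain ⟨D, hDC, hD⟩ := zorn_superset_nonempty
    {D : Set X | IsClosed D ∧ ∀ K ∈ 𝒦, (K ∩ D).Nonempty}
    (by
      intro c hcs hchain hne
      refine ⟨⋂₀ c, ⟨isClosed_sInter fun t ht => (hcs ht).1, ?_⟩,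
        fun s hs => sInter_subset_of_mem hs⟩
      intro K hK
      rw [sInter_eq_iInter]
      by_contra hemp
      rw [not_nonempty_iff_eq_empty] at hemp
      have : Nonempty c := hne.to_subtype
      obtain ⟨i, hi⟩ := (hc K hK).elim_directed_family_closed (fun i : c => (i : Set X))
        (fun i => (hcs i.2).1) hemp (by
          intro i j
          rcases hchain.total i.2 j.2 with h | h
          · exact ⟨i, Subset.rfl, h⟩
          · exact ⟨j, h, Subset.rfl⟩)
      exact ((hcs i.2).2 K hK).ne_empty hi) C ⟨hC, hKC⟩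
  refine ⟨D, hDC, hD.prop.1, hD.prop.2, ?_⟩
  intro E hE hED hQE
  exact Subset.antisymm hED (hD.le_of_le ⟨hE, hQE⟩ hED)

theorem rudin_irreducible {X : Type} [TopologicalSpace X] {𝒦 : Set (Set X)} (hne : 𝒦.Nonempty)
    (hdir : DirectedOn (· ⊇ ·) 𝒦) {D : Set X} (hD : IsClosed D)
    (hKD : ∀ K ∈ 𝒦, (K ∩ D).Nonempty)
    (hmin : ∀ E, IsClosed E → E ⊆ D → (∀ K ∈ 𝒦, (K ∩ E).Nonempty) → E = D) :
    IsIrreducible D := by
  constructor
  · obtain ⟨K, hK⟩ := hne
    obtain ⟨x, _, hx⟩ := hKD K hK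
    exact ⟨x, hx⟩
  · intro U V hU hV hDU hDV
    by_contra hno
    have key : ∀ U : Set X, IsOpen U → (D ∩ U).Nonempty →
        ∃ K ∈ 𝒦, ¬ (K ∩ (D \ U)).Nonempty := by
      intro U hU hDU
      by_contra hall
      push Not at hall
      have h1 := hmin (D \ U) (hD.sdiff hU) sdiff_subset hall
      obtain ⟨x, hx, hxU⟩ := hDU
      rw [← h1] at hx
      exact hx.2 hxU
    obtain ⟨K, hK, hKU⟩ := key U hU hDU
    obtain ⟨L, hL, hLV⟩ := key V hV hDV
    obtain ⟨M, hM, hMK, hML⟩ := hdir K hK L hL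
    obtain ⟨x, hxM, hxD⟩ := hKD M hM
    apply hno
    refine ⟨x, hxD, ?_, ?_⟩
    · by_contra hxU
      exact hKU ⟨x, hMK hxM, hxD, hxU⟩
    · by_contra hxV
      exact hLV ⟨x, hML hxM, hxD, hxV⟩

/-- Decreasing sequences of closed sets meeting a compact set. -/
theorem compact_seq {X : Type} [TopologicalSpace X] {K : Set X} (hK : IsCompact K)
    {C : ℕ → Set X} (hC : ∀ k, IsClosed (C k)) (hanti : ∀ k l, k ≤ l → C l ⊆ C k)
    (hne : ∀ k, (K ∩ C k).Nonempty) : ∃ x ∈ K, ∀ k, x ∈ C k := by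
  by_contra hno
  push Not at hno
  have hemp : K ∩ ⋂ k, C k = ∅ := by
    apply eq_empty_of_forall_notMem
    rintro x ⟨hx, hx'⟩
    obtain ⟨k, hk⟩ := hno x hx
    exact hk (mem_iInter.1 hx' k)
  obtain ⟨k, hk⟩ := hK.elim_directed_family_closed C hC hemp (by
    intro i j
    exact ⟨max i j, hanti _ _ (le_max_left i j), hanti _ _ (le_max_right i j)⟩)
  exact (hne k).ne_empty hk

/-! ### Irreducible closed sets -/

theorem irreducible_cases {D : Set (P L)} (hD : IsClosed D) (hirr : IsIrreducible D) :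
    D = Set.univ ∨ ∃ p, D = Iic p := by
  classical
  have hlow := (isClosed_P.1 hD).1
  by_cases hunb : ∀ β : L, ∃ γ, β ≤ γ ∧ (⟨γ, ⊤⟩ : P L) ∈ D
  · left
    have hfin : ∀ (a x : L), (⟨a, (x : WithTop L)⟩ : P L) ∈ D := by
      intro a x
      obtain ⟨γ, hγ, hγD⟩ := hunb x
      exact hlow (Or.inr ⟨rfl, WithTop.coe_le_coe.2 hγ⟩) hγD
    apply eq_univ_of_forall
    rintro ⟨a, x⟩
    rcases column_cases hD (a := a) ⟨_, hfin a (Classical.arbitrary _)⟩ with h | ⟨s, hs⟩
    · exact h x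
    · have hst : s = ⊤ := by
        by_contra hst
        obtain ⟨t, rfl⟩ := WithTop.ne_top_iff_exists.1 hst
        obtain ⟨u, hu⟩ := exists_gt t
        have := (hs u).1 (hfin a u)
        exact absurd (WithTop.coe_le_coe.1 this) (not_le.2 hu)
      rw [hs, hst]
      exact le_top
  · right
    push Not at hunb
    obtain ⟨w, hw⟩ := hunb
    -- the open sets separating columns
    have hO : ∀ (α : L) (p : WithTop L → Prop),
        (∀ x y, x ≤ y → p x → p y) → IsOpen {x : Up (WithTop L) | p x.v} →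
        (∀ b x, (⟨b, ⊤⟩ : P L) ∈ D → p x → ¬ x ≤ (b : WithTop L)) →
        IsOpen ({q : P L | q.c = α ∧ p q.l} ∪ Dᶜ) := by
      intro α p hp hp' hpD
      rw [isOpen_P]
      constructor
      · rintro q r hqr (⟨h1, h2⟩ | h1)
        · rcases hqr with ⟨h3, h4⟩ | ⟨h3, h4⟩
          · exact Or.inl ⟨h3.symm.trans h1, hp _ _ h4 h2⟩
          · right
            intro hr
            apply hpD r.c q.l _ h2 h4
            have : r = ⟨r.c, ⊤⟩ := P.ext rfl h3
            rwa [← this]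
        · exact Or.inr fun hr => h1 (hlow hqr hr)
      · intro a
        by_cases ha : a = α
        · have : {x : Up (WithTop L) | (⟨a, x.v⟩ : P L) ∈ {q : P L | q.c = α ∧ p q.l} ∪ Dᶜ} =
              {x : Up (WithTop L) | p x.v} ∪
              {x : Up (WithTop L) | (⟨a, x.v⟩ : P L) ∈ Dᶜ} := by
            ext x
            constructor
            · rintro (⟨_, h⟩ | h)
              · exact Or.inl h
              · exact Or.inr h
            · rintro (h | h)
              · exact Or.inl ⟨ha, h⟩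
              · exact Or.inr h
          rw [this]
          exact hp'.union ((isOpen_P.1 hD.isOpen_compl).2 a)
        · have : {x : Up (WithTop L) | (⟨a, x.v⟩ : P L) ∈ {q : P L | q.c = α ∧ p q.l} ∪ Dᶜ} =
              {x : Up (WithTop L) | (⟨a, x.v⟩ : P L) ∈ Dᶜ} := by
            ext x
            constructor
            · rintro (⟨h, _⟩ | h)
              · exact absurd h ha
              · exact h
            · intro h
              exact Or.inr h
          rw [this]
          exact (isOpen_P.1 hD.isOpen_compl).2 a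
    have hray : ∀ α, IsOpen ({q : P L | q.c = α ∧ (w : WithTop L) < q.l} ∪ Dᶜ) := by
      intro α
      apply hO α (fun x => (w : WithTop L) < x) (fun x y h1 h2 => h2.trans_le h1)
        (isOpen_ray _)
      intro b x hb hx hxb
      have h1 : w < b := WithTop.coe_lt_coe.1 (hx.trans_le hxb)
      exact hw b h1.le hb
    by_cases hT : ∃ γ, (⟨γ, ⊤⟩ : P L) ∈ D
    · obtain ⟨γ, hγ⟩ := hT
      refine ⟨⟨γ, ⊤⟩, ?_⟩
      apply Subset.antisymm
      · intro q hq
        by_contra hq'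
        obtain ⟨r, hr, hr1, hr2⟩ := hirr.2 _ (Iic (⟨γ, ⊤⟩ : P L))ᶜ (hray γ)
          (isClosed_Iic _).isOpen_compl ⟨⟨γ, ⊤⟩, hγ, Or.inl ⟨rfl, WithTop.coe_lt_top w⟩⟩
          ⟨q, hq, hq'⟩
        rcases hr1 with ⟨h1, h2⟩ | h1
        · exact hr2 (Or.inl ⟨h1, le_top⟩)
        · exact h1 hr
      · intro q hq
        exact hlow hq hγ
    · push Not at hT
      -- all columns are open in `D`
      have hcol : ∀ α, IsOpen ({q : P L | q.c = α ∧ True} ∪ Dᶜ) := by
        intro α
        exact hO α (fun _ => True) (fun _ _ _ _ => trivial) isOpen_univ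
          (fun b x hb _ => absurd hb (hT b))
      obtain ⟨p, hp⟩ := hirr.1
      have hone : ∀ q ∈ D, q.c = p.c := by
        intro q hq
        by_contra hne
        obtain ⟨r, hr, hr1, hr2⟩ := hirr.2 _ _ (hcol q.c) (hcol p.c)
          ⟨q, hq, Or.inl ⟨rfl, trivial⟩⟩ ⟨p, hp, Or.inl ⟨rfl, trivial⟩⟩
        rcases hr1 with ⟨h1, _⟩ | h1
        · rcases hr2 with ⟨h2, _⟩ | h2
          · exact hne (h1.symm.trans h2)
          · exact h2 hr
        · exact h1 hr
      rcases column_cases hD (a := p.c) ⟨p.l, hp⟩ with h | ⟨s, hs⟩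
      · exact absurd (h ⊤) (hT _)
      · refine ⟨⟨p.c, s⟩, ?_⟩
        have hst : s ≠ ⊤ := by
          intro hst
          exact hT p.c ((hs ⊤).2 hst.symm.le)
        apply Subset.antisymm
        · intro q hq
          have h1 := hone q hq
          have h2 : (⟨p.c, q.l⟩ : P L) ∈ D := by
            rw [← h1]
            exact hq
          exact Or.inl ⟨h1, (hs _).1 h2⟩
        · rintro q (⟨h1, h2⟩ | ⟨h1, _⟩)
          · have h3 : (⟨p.c, q.l⟩ : P L) ∈ D := (hs _).2 h2
            have h4 : q = ⟨p.c, q.l⟩ := P.ext h1 rfl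
            rwa [h4]
          · exact absurd h1 hst


end Pool.Agent.V11189.Johnstone
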