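import Pool.Agent.V11189.KChains

set_option autoImplicit false

open Set Topology Pool.Agent.V11189.KChains

namespace Pool.Agent.V11189.JU

/-! ### The dcpo -/

/-- The underlying set `ω₁ × (ω₁ + 1)`. -/
@[ext] structure P : Type where
  /-- the column -/
  c : W 0
  /-- the level -/
  l : WithTop (W 0)

instance : LE P := ⟨fun p q => (p.c = q.c ∧ p.l ≤ q.l) ∨ (q.l = ⊤ ∧ p.l ≤ (q.c : WithTop (W 0)))⟩

theorem le_def {p q : P} :
    p ≤ q ↔ (p.c = q.c ∧ p.l ≤ q.l) ∨ (q.l = ⊤ ∧ p.l ≤ (q.c : WithTop (W 0))) := Iff.rfl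

theorem not_top_le {a : W 0} : ¬ (⊤ : WithTop (W 0)) ≤ a := not_le.2 (WithTop.coe_lt_top a)

noncomputable instance : PartialOrder P where
  le_refl p := Or.inl ⟨rfl, le_rfl⟩
  le_trans p q r := by
    rintro (⟨h1, h2⟩ | ⟨h1, h2⟩) (⟨h3, h4⟩ | ⟨h3, h4⟩)
    · exact Or.inl ⟨h1.trans h3, h2.trans h4⟩
    · exact Or.inr ⟨h3, h2.trans h4⟩
    · rw [h1] at h4
      refine Or.inr ⟨top_le_iff.1 h4, ?_⟩
      rw [← h3]
      exact h2
    · rw [h1] at h4
      exact absurd h4 not_top_le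
  le_antisymm p q := by
    rintro (⟨h1, h2⟩ | ⟨h1, h2⟩) (⟨h3, h4⟩ | ⟨h3, h4⟩)
    · exact P.ext h1 (le_antisymm h2 h4)
    · rw [h3] at h2
      have h5 := top_le_iff.1 h2
      exact P.ext h1 (h3.trans h5.symm)
    · rw [h1] at h4
      have h5 := top_le_iff.1 h4
      exact P.ext h3.symm (h5.trans h1.symm)
    · rw [h1] at h4
      exact absurd h4 not_top_le

/-- Elements of level `⊤` are maximal. -/
theorem maximal_top {p q : P} (hp : p.l = ⊤) (h : p ≤ q) : q = p := by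
  rcases h with ⟨h1, h2⟩ | ⟨h1, h2⟩
  · rw [hp] at h2
    exact P.ext h1.symm ((top_le_iff.1 h2).trans hp.symm)
  · rw [hp] at h2
    exact absurd h2 not_top_le

/-- `P` is directed complete. -/
theorem dcpo (d : Set P) (hne : d.Nonempty) (hd : DirectedOn (· ≤ ·) d) : ∃ x : P, IsLUB d x := by
  classical
  by_cases htop : ∃ p ∈ d, p.l = ⊤
  · obtain ⟨p, hp, hpt⟩ := htop
    refine ⟨p, ?_, fun q hq => hq hp⟩
    intro q hq
    obtain ⟨r, hr, h1, h2⟩ := hd p hp q hq
    have := maximal_top hpt h1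
    rw [this] at h2
    exact h2
  · push Not at htop
    obtain ⟨p, hp⟩ := hne
    -- all elements are in one column
    have hcol : ∀ q ∈ d, q.c = p.c := by
      intro q hq
      obtain ⟨r, hr, h1, h2⟩ := hd p hp q hq
      have hr' := htop r hr
      rcases h1 with ⟨h1, _⟩ | ⟨h1, _⟩
      · rcases h2 with ⟨h2, _⟩ | ⟨h2, _⟩
        · rw [h2, h1]
        · exact absurd h2 hr'
      · exact absurd h1 hr'
    -- the supremum of the levels
    obtain ⟨s, hs1, hs2⟩ : ∃ s : WithTop (W 0), (∀ q ∈ d, q.l ≤ s) ∧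
        ∀ z : WithTop (W 0), (∀ q ∈ d, q.l ≤ z) → s ≤ z := by
      have hne : ({z : WithTop (W 0) | ∀ q ∈ d, q.l ≤ z}).Nonempty := ⟨⊤, fun q _ => le_top⟩
      refine ⟨WellFounded.min (wellFounded_lt (α := WithTop (W 0))) _ hne,
        WellFounded.min_mem (wellFounded_lt (α := WithTop (W 0))) _ hne, ?_⟩
      intro z hz
      exact not_lt.1 (WellFounded.not_lt_min (wellFounded_lt (α := WithTop (W 0)))
        {z : WithTop (W 0) | ∀ q ∈ d, q.l ≤ z} hz)
    refine ⟨⟨p.c, s⟩, ?_, ?_⟩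
    · intro q hq
      exact Or.inl ⟨hcol q hq, hs1 q hq⟩
    · intro z hz
      by_cases hz' : z.c = p.c
      · by_cases hzt : z.l = ⊤
        · exact Or.inl ⟨hz'.symm, by rw [hzt]; exact le_top⟩
        · refine Or.inl ⟨hz'.symm, hs2 _ ?_⟩
          intro q hq
          rcases hz hq with ⟨_, h⟩ | ⟨h, _⟩
          · exact h
          · exact absurd h hzt
      · have h1 : z.l = ⊤ := by
          rcases hz hp with ⟨h, _⟩ | ⟨h, _⟩
          · exact absurd h.symm hz'
          · exact h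
        refine Or.inr ⟨h1, hs2 _ ?_⟩
        intro q hq
        rcases hz hq with ⟨h, _⟩ | ⟨_, h⟩
        · exact absurd ((hcol q hq).symm.trans h).symm hz'
        · exact h

/-! ### The topology -/

/-- The (Scott) topology: upper sets whose columns are open. -/
instance : TopologicalSpace P where
  IsOpen U := IsUpperSet U ∧ ∀ a : W 0, IsOpen {x : Up (WithTop (W 0)) | (⟨a, x.v⟩ : P) ∈ U}
  isOpen_univ := ⟨isUpperSet_univ, fun _ => isOpen_univ⟩
  isOpen_inter := fun U V hU hV => ⟨hU.1.inter hV.1, fun a => (hU.2 a).inter (hV.2 a)⟩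
  isOpen_sUnion := by
    intro T hT
    refine ⟨isUpperSet_sUnion fun U hU => (hT U hU).1, fun a => ?_⟩
    have : {x : Up (WithTop (W 0)) | (⟨a, x.v⟩ : P) ∈ ⋃₀ T} =
        ⋃ U ∈ T, {x : Up (WithTop (W 0)) | (⟨a, x.v⟩ : P) ∈ U} := by
      ext x
      simp
    rw [this]
    exact isOpen_biUnion fun U hU => (hT U hU).2 a

theorem isOpen_P {U : Set P} : IsOpen U ↔ IsUpperSet U ∧
    ∀ a : W 0, IsOpen {x : Up (WithTop (W 0)) | (⟨a, x.v⟩ : P) ∈ U} := Iff.rfl

theorem isClosed_P {C : Set P} : IsClosed C ↔ IsLowerSet C ∧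
    ∀ a : W 0, IsClosed {x : Up (WithTop (W 0)) | (⟨a, x.v⟩ : P) ∈ C} := by
  rw [← isOpen_compl_iff, isOpen_P]
  constructor
  · rintro ⟨h1, h2⟩
    exact ⟨isUpperSet_compl.1 h1, fun a => ⟨h2 a⟩⟩
  · rintro ⟨h1, h2⟩
    exact ⟨isUpperSet_compl.2 h1, fun a => (h2 a).isOpen_compl⟩

/-- A sufficient condition for closedness. -/
theorem isClosed_of {C : Set P} (h1 : IsLowerSet C) (h2 : ∀ a : W 0,
    (∀ x, (⟨a, x⟩ : P) ∈ C) ∨ (∀ x, (⟨a, x⟩ : P) ∉ C) ∨
      ∃ s, ∀ x, (⟨a, x⟩ : P) ∈ C ↔ x ≤ s) : IsClosed C := by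
  rw [isClosed_P]
  refine ⟨h1, fun a => ?_⟩
  rcases h2 a with h | h | ⟨s, h⟩
  · have : {x : Up (WithTop (W 0)) | (⟨a, x.v⟩ : P) ∈ C} = Set.univ :=
      eq_univ_of_forall fun x => h x.v
    rw [this]
    exact isClosed_univ
  · have : {x : Up (WithTop (W 0)) | (⟨a, x.v⟩ : P) ∈ C} = ∅ :=
      eq_empty_of_forall_notMem fun x => h x.v
    rw [this]
    exact isClosed_empty
  · have : {x : Up (WithTop (W 0)) | (⟨a, x.v⟩ : P) ∈ C} = closure {⟨s⟩} := by
      ext x
      rw [mem_closure_singleton_up]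
      exact h x.v
    rw [this]
    exact isClosed_closure

/-- The possible columns of a closed set. -/
theorem column_cases {C : Set P} (hC : IsClosed C) {a : W 0} (hne : ∃ x, (⟨a, x⟩ : P) ∈ C) :
    (∀ x, (⟨a, x⟩ : P) ∈ C) ∨ ∃ s, ∀ x, (⟨a, x⟩ : P) ∈ C ↔ x ≤ s := by
  obtain ⟨x, hx⟩ := hne
  rcases closed_cases ((isClosed_P.1 hC).2 a) ⟨⟨x⟩, hx⟩ with h | ⟨s, hs⟩
  · left
    intro y
    have : (⟨y⟩ : Up (WithTop (W 0))) ∈ {x : Up (WithTop (W 0)) | (⟨a, x.v⟩ : P) ∈ C} := by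
      rw [h]
      trivial
    exact this
  · right
    refine ⟨s.v, fun y => ?_⟩
    have : (⟨y⟩ : Up (WithTop (W 0))) ∈ {x : Up (WithTop (W 0)) | (⟨a, x.v⟩ : P) ∈ C} ↔
        (⟨y⟩ : Up (WithTop (W 0))) ∈ closure {s} := by rw [hs]
    rw [mem_closure_singleton_up] at this
    exact this

theorem isClosed_Iic (p : P) : IsClosed (Iic p) := by
  apply isClosed_of (isLowerSet_Iic p)
  intro a
  by_cases ha : a = p.c
  · right; right
    refine ⟨p.l, fun x => ?_⟩
    constructor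
    · rintro (⟨_, h⟩ | ⟨h, _⟩)
      · exact h
      · rw [h]
        exact le_top
    · intro h
      exact Or.inl ⟨ha, h⟩
  · by_cases hp : p.l = ⊤
    · right; right
      refine ⟨(p.c : WithTop (W 0)), fun x => ?_⟩
      constructor
      · rintro (⟨h, _⟩ | ⟨_, h⟩)
        · exact absurd h ha
        · exact h
      · intro h
        exact Or.inr ⟨hp, h⟩
    · right; left
      rintro x (⟨h, _⟩ | ⟨h, _⟩)
      · exact ha h
      · exact hp h

theorem closure_singleton (p : P) : closure {p} = Iic p := by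
  apply Subset.antisymm
  · exact closure_minimal (singleton_subset_iff.2 (show p ≤ p from le_rfl)) (isClosed_Iic p)
  · intro q hq
    have h1 := (isClosed_P.1 (isClosed_closure (s := ({p} : Set P)))).1
    exact h1 hq (subset_closure rfl)

theorem t0 : T0Space P := by
  constructor
  intro p q h
  have h1 : p ∈ closure {q} := specializes_iff_mem_closure.1 h.specializes'
  have h2 : q ∈ closure {p} := specializes_iff_mem_closure.1 h.specializes
  rw [closure_singleton] at h1 h2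
  exact le_antisymm h1 h2

/-! ### Rudin's lemma -/

theorem rudin {X : Type} [TopologicalSpace X] {𝒦 : Set (Set X)} (hc : ∀ K ∈ 𝒦, IsCompact K)
    {C : Set X} (hC : IsClosed C) (hKC : ∀ K ∈ 𝒦, (K ∩ C).Nonempty) :
    ∃ D ⊆ C, IsClosed D ∧ (∀ K ∈ 𝒦, (K ∩ D).Nonempty) ∧
      ∀ E, IsClosed E → E ⊆ D → (∀ K ∈ 𝒦, (K ∩ E).Nonempty) → E = D := by
  obtain ⟨D, hDC, hD⟩ := zorn_superset_nonempty
    {D : Set X | IsClosed D ∧ ∀ K ∈ 𝒦, (K ∩ D).Nonempty}
    (by
      intro c hcs hchain hne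
      refine ⟨⋂₀ c, ⟨isClosed_sInter fun t ht => (hcs ht).1, ?_⟩,
        fun s hs => sInter_subset_of_mem hs⟩
      intro K hK
      rw [sInter_eq_iInter]
      by_contra hemp
      rw [not_nonempty_iff_eq_empty] at hemp
      have : Nonempty c := hne.to_subtype
      obtain ⟨i, hi⟩ := (hc K hK).elim_directed_family_closed (fun i : c => (i : Set X))
        (fun i => (hcs i.2).1) hemp (by
          intro i j
          rcases hchain.total i.2 j.2 with h | h
          · exact ⟨i, Subset.rfl, h⟩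
          · exact ⟨j, h, Subset.rfl⟩)
      exact ((hcs i.2).2 K hK).ne_empty hi) C ⟨hC, hKC⟩
  refine ⟨D, hDC, hD.prop.1, hD.prop.2, ?_⟩
  intro E hE hED hQE
  exact Subset.antisymm hED (hD.le_of_le ⟨hE, hQE⟩ hED)

theorem rudin_irreducible {X : Type} [TopologicalSpace X] {𝒦 : Set (Set X)} (hne : 𝒦.Nonempty)
    (hdir : DirectedOn (· ⊇ ·) 𝒦) {D : Set X} (hD : IsClosed D)
    (hKD : ∀ K ∈ 𝒦, (K ∩ D).Nonempty)
    (hmin : ∀ E, IsClosed E → E ⊆ D → (∀ K ∈ 𝒦, (K ∩ E).Nonempty) → E = D) :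
    IsIrreducible D := by
  constructor
  · obtain ⟨K, hK⟩ := hne
    obtain ⟨x, _, hx⟩ := hKD K hK
    exact ⟨x, hx⟩
  · intro U V hU hV hDU hDV
    by_contra hno
    have key : ∀ U : Set X, IsOpen U → (D ∩ U).Nonempty →
        ∃ K ∈ 𝒦, ¬ (K ∩ (D \ U)).Nonempty := by
      intro U hU hDU
      by_contra hall
      push Not at hall
      have h1 := hmin (D \ U) (hD.sdiff hU) sdiff_subset hall
      obtain ⟨x, hx, hxU⟩ := hDU
      rw [← h1] at hx
      exact hx.2 hxU
    obtain ⟨K, hK, hKU⟩ := key U hU hDU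
    obtain ⟨L, hL, hLV⟩ := key V hV hDV
    obtain ⟨M, hM, hMK, hML⟩ := hdir K hK L hL
    obtain ⟨x, hxM, hxD⟩ := hKD M hM
    apply hno
    refine ⟨x, hxD, ?_, ?_⟩
    · by_contra hxU
      exact hKU ⟨x, hMK hxM, hxD, hxU⟩
    · by_contra hxV
      exact hLV ⟨x, hML hxM, hxD, hxV⟩

/-- Decreasing sequences of closed sets meeting a compact set. -/
theorem compact_seq {X : Type} [TopologicalSpace X] {K : Set X} (hK : IsCompact K)
    {C : ℕ → Set X} (hC : ∀ k, IsClosed (C k)) (hanti : ∀ k l, k ≤ l → C l ⊆ C k)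
    (hne : ∀ k, (K ∩ C k).Nonempty) : ∃ x ∈ K, ∀ k, x ∈ C k := by
  by_contra hno
  push Not at hno
  have hemp : K ∩ ⋂ k, C k = ∅ := by
    apply eq_empty_of_forall_notMem
    rintro x ⟨hx, hx'⟩
    obtain ⟨k, hk⟩ := hno x hx
    exact hk (mem_iInter.1 hx' k)
  obtain ⟨k, hk⟩ := hK.elim_directed_family_closed C hC hemp (by
    intro i j
    exact ⟨max i j, hanti _ _ (le_max_left i j), hanti _ _ (le_max_right i j)⟩)
  exact (hne k).ne_empty hk

/-! ### Irreducible closed sets -/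

theorem irreducible_cases {D : Set P} (hD : IsClosed D) (hirr : IsIrreducible D) :
    D = Set.univ ∨ ∃ p, D = Iic p := by
  classical
  have hlow := (isClosed_P.1 hD).1
  by_cases hunb : ∀ β : W 0, ∃ γ, β ≤ γ ∧ (⟨γ, ⊤⟩ : P) ∈ D
  · left
    have hfin : ∀ (a x : W 0), (⟨a, (x : WithTop (W 0))⟩ : P) ∈ D := by
      intro a x
      obtain ⟨γ, hγ, hγD⟩ := hunb x
      exact hlow (Or.inr ⟨rfl, WithTop.coe_le_coe.2 hγ⟩) hγD
    apply eq_univ_of_forall
    rintro ⟨a, x⟩
    rcases column_cases hD (a := a) ⟨_, hfin a (Classical.arbitrary _)⟩ with h | ⟨s, hs⟩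
    · exact h x
    · have hst : s = ⊤ := by
        by_contra hst
        obtain ⟨t, rfl⟩ := WithTop.ne_top_iff_exists.1 hst
        obtain ⟨u, hu⟩ := exists_gt' t
        have := (hs u).1 (hfin a u)
        exact absurd (WithTop.coe_le_coe.1 this) (not_le.2 hu)
      rw [hs, hst]
      exact le_top
  · right
    push Not at hunb
    obtain ⟨w, hw⟩ := hunb
    -- the open sets separating columns
    have hO : ∀ (α : W 0) (p : WithTop (W 0) → Prop),
        (∀ x y, x ≤ y → p x → p y) → IsOpen {x : Up (WithTop (W 0)) | p x.v} →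
        (∀ b x, (⟨b, ⊤⟩ : P) ∈ D → p x → ¬ x ≤ (b : WithTop (W 0))) →
        IsOpen ({q : P | q.c = α ∧ p q.l} ∪ Dᶜ) := by
      intro α p hp hp' hpD
      rw [isOpen_P]
      constructor
      · rintro q r hqr (⟨h1, h2⟩ | h1)
        · rcases hqr with ⟨h3, h4⟩ | ⟨h3, h4⟩
          · exact Or.inl ⟨h3.symm.trans h1, hp _ _ h4 h2⟩
          · right
            intro hr
            apply hpD r.c q.l _ h2 h4
            have : r = ⟨r.c, ⊤⟩ := P.ext rfl h3
            rwa [← this]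
        · exact Or.inr fun hr => h1 (hlow hqr hr)
      · intro a
        by_cases ha : a = α
        · have : {x : Up (WithTop (W 0)) | (⟨a, x.v⟩ : P) ∈ {q : P | q.c = α ∧ p q.l} ∪ Dᶜ} =
              {x : Up (WithTop (W 0)) | p x.v} ∪
              {x : Up (WithTop (W 0)) | (⟨a, x.v⟩ : P) ∈ Dᶜ} := by
            ext x
            constructor
            · rintro (⟨_, h⟩ | h)
              · exact Or.inl h
              · exact Or.inr h
            · rintro (h | h)
              · exact Or.inl ⟨ha, h⟩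
              · exact Or.inr h
          rw [this]
          exact hp'.union ((isOpen_P.1 hD.isOpen_compl).2 a)
        · have : {x : Up (WithTop (W 0)) | (⟨a, x.v⟩ : P) ∈ {q : P | q.c = α ∧ p q.l} ∪ Dᶜ} =
              {x : Up (WithTop (W 0)) | (⟨a, x.v⟩ : P) ∈ Dᶜ} := by
            ext x
            constructor
            · rintro (⟨h, _⟩ | h)
              · exact absurd h ha
              · exact h
            · intro h
              exact Or.inr h
          rw [this]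
          exact (isOpen_P.1 hD.isOpen_compl).2 a
    have hray : ∀ α, IsOpen ({q : P | q.c = α ∧ (w : WithTop (W 0)) < q.l} ∪ Dᶜ) := by
      intro α
      apply hO α (fun x => (w : WithTop (W 0)) < x) (fun x y h1 h2 => h2.trans_le h1)
        (isOpen_ray _)
      intro b x hb hx hxb
      have h1 : w < b := WithTop.coe_lt_coe.1 (hx.trans_le hxb)
      exact hw b h1.le hb
    by_cases hT : ∃ γ, (⟨γ, ⊤⟩ : P) ∈ D
    · obtain ⟨γ, hγ⟩ := hT
      refine ⟨⟨γ, ⊤⟩, ?_⟩
      apply Subset.antisymm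
      · intro q hq
        by_contra hq'
        obtain ⟨r, hr, hr1, hr2⟩ := hirr.2 _ (Iic (⟨γ, ⊤⟩ : P))ᶜ (hray γ)
          (isClosed_Iic _).isOpen_compl ⟨⟨γ, ⊤⟩, hγ, Or.inl ⟨rfl, WithTop.coe_lt_top w⟩⟩
          ⟨q, hq, hq'⟩
        rcases hr1 with ⟨h1, h2⟩ | h1
        · exact hr2 (Or.inl ⟨h1, le_top⟩)
        · exact h1 hr
      · intro q hq
        exact hlow hq hγ
    · push Not at hT
      -- all columns are open in `D`
      have hcol : ∀ α, IsOpen ({q : P | q.c = α ∧ True} ∪ Dᶜ) := by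
        intro α
        exact hO α (fun _ => True) (fun _ _ _ _ => trivial) isOpen_univ
          (fun b x hb _ => absurd hb (hT b))
      obtain ⟨p, hp⟩ := hirr.1
      have hone : ∀ q ∈ D, q.c = p.c := by
        intro q hq
        by_contra hne
        obtain ⟨r, hr, hr1, hr2⟩ := hirr.2 _ _ (hcol q.c) (hcol p.c)
          ⟨q, hq, Or.inl ⟨rfl, trivial⟩⟩ ⟨p, hp, Or.inl ⟨rfl, trivial⟩⟩
        rcases hr1 with ⟨h1, _⟩ | h1
        · rcases hr2 with ⟨h2, _⟩ | h2
          · exact hne (h1.symm.trans h2)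
          · exact h2 hr
        · exact h1 hr
      rcases column_cases hD (a := p.c) ⟨p.l, hp⟩ with h | ⟨s, hs⟩
      · exact absurd (h ⊤) (hT _)
      · refine ⟨⟨p.c, s⟩, ?_⟩
        have hst : s ≠ ⊤ := by
          intro hst
          exact hT p.c ((hs ⊤).2 hst.symm.le)
        apply Subset.antisymm
        · intro q hq
          have h1 := hone q hq
          have h2 : (⟨p.c, q.l⟩ : P) ∈ D := by
            rw [← h1]
            exact hq
          exact Or.inl ⟨h1, (hs _).1 h2⟩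
        · rintro q (⟨h1, h2⟩ | ⟨h1, _⟩)
          · have h3 : (⟨p.c, q.l⟩ : P) ∈ D := (hs _).2 h2
            have h4 : q = ⟨p.c, q.l⟩ := P.ext h1 rfl
            rwa [h4]
          · exact absurd h1 hst

/-! ### Compact sets -/

/-- A compact set has points of finite level only in finitely many columns. -/
theorem finite_cols {K : Set P} (hK : IsCompact K) :
    {a : W 0 | ∃ x : W 0, (⟨a, x⟩ : P) ∈ K}.Finite := by
  by_contra hinf
  have hinf' : {a : W 0 | ∃ x : W 0, (⟨a, x⟩ : P) ∈ K}.Infinite := hinf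
  let f := hinf'.natEmbedding
  choose x hx using fun n => (f n).2
  let C : ℕ → Set P := fun k => {q | ∃ n, k ≤ n ∧ q.c = f n ∧ q.l ≤ x n}
  have hinj : ∀ n m, ((f n : {a : W 0 | ∃ x : W 0, (⟨a, x⟩ : P) ∈ K}) : W 0) = f m → n = m :=
    fun n m h => f.injective (Subtype.ext h)
  have hC : ∀ k, IsClosed (C k) := by
    intro k
    apply isClosed_of
    · rintro q r hrq ⟨n, hn, h1, h2⟩
      rcases hrq with ⟨h3, h4⟩ | ⟨h3, _⟩
      · exact ⟨n, hn, h3.trans h1, h4.trans h2⟩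
      · rw [h3] at h2
        exact absurd h2 not_top_le
    · intro a
      by_cases ha : ∃ n, k ≤ n ∧ a = f n
      · obtain ⟨n, hn, hn'⟩ := ha
        right; right
        refine ⟨x n, fun y => ?_⟩
        constructor
        · rintro ⟨m, _, h1, h2⟩
          have h3 : n = m := hinj n m (hn'.symm.trans h1)
          rw [h3]
          exact h2
        · intro h
          exact ⟨n, hn, hn', h⟩
      · right; left
        rintro y ⟨n, hn, h1, _⟩
        exact ha ⟨n, hn, h1⟩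
  obtain ⟨q, _, hq⟩ := compact_seq hK hC
    (fun k l hkl q ⟨n, hn, h⟩ => ⟨n, hkl.trans hn, h⟩)
    (fun k => ⟨⟨f k, x k⟩, hx k, k, le_rfl, rfl, le_rfl⟩)
  obtain ⟨n, _, h1, _⟩ := hq 0
  obtain ⟨m, hm, h2, _⟩ := hq (n + 1)
  have := hinj n m (h1.symm.trans h2)
  omega

/-- A compact set consisting of points of level `⊤` is finite. -/
theorem finite_tops {K : Set P} (hK : IsCompact K) (htop : ∀ q ∈ K, q.l = ⊤) :
    {a : W 0 | (⟨a, ⊤⟩ : P) ∈ K}.Finite := by
  by_contra hinf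
  have hinf' : {a : W 0 | (⟨a, ⊤⟩ : P) ∈ K}.Infinite := hinf
  let f := hinf'.natEmbedding
  obtain ⟨w, hw⟩ := bdd_nat (fun n => (f n : W 0))
  let C : ℕ → Set P := fun k => {q | (∃ n, k ≤ n ∧ q.c = f n) ∨ q.l ≤ (w : WithTop (W 0))}
  have hinj : ∀ n m, ((f n : {a : W 0 | (⟨a, ⊤⟩ : P) ∈ K}) : W 0) = f m → n = m :=
    fun n m h => f.injective (Subtype.ext h)
  have hC : ∀ k, IsClosed (C k) := by
    intro k
    apply isClosed_of
    · rintro q r hrq (⟨n, hn, h1⟩ | h1)
      · rcases hrq with ⟨h3, h4⟩ | ⟨h3, h4⟩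
        · exact Or.inl ⟨n, hn, h3.trans h1⟩
        · right
          refine h4.trans ?_
          rw [h1]
          exact WithTop.coe_le_coe.2 (hw n).le
      · rcases hrq with ⟨h3, h4⟩ | ⟨h3, h4⟩
        · exact Or.inr (h4.trans h1)
        · rw [h3] at h1
          exact absurd h1 not_top_le
    · intro a
      by_cases ha : ∃ n, k ≤ n ∧ a = f n
      · left
        intro x
        exact Or.inl ha
      · right; right
        refine ⟨w, fun y => ?_⟩
        constructor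
        · rintro (⟨n, hn, h1⟩ | h)
          · exact absurd ⟨n, hn, h1⟩ ha
          · exact h
        · intro h
          exact Or.inr h
  obtain ⟨q, hqK, hq⟩ := compact_seq hK hC
    (by
      rintro k l hkl q (⟨n, hn, h⟩ | h)
      · exact Or.inl ⟨n, hkl.trans hn, h⟩
      · exact Or.inr h)
    (fun k => ⟨⟨f k, ⊤⟩, (f k).2, Or.inl ⟨k, le_rfl, rfl⟩⟩)
  have hql := htop q hqK
  have hq' : ∀ k, ∃ n, k ≤ n ∧ q.c = f n := by
    intro k
    rcases hq k with h | h
    · exact h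
    · rw [hql] at h
      exact absurd h not_top_le
  obtain ⟨n, _, h1⟩ := hq' 0
  obtain ⟨m, hm, h2⟩ := hq' (n + 1)
  have := hinj n m (h1.symm.trans h2)
  omega

/-- The space `P` is well-filtered. -/
theorem wellFiltered (𝒦 : Set (Set P)) (hne : 𝒦.Nonempty) (hdir : DirectedOn (· ⊇ ·) 𝒦)
    (hK : ∀ K ∈ 𝒦, IsCompact K ∧ IsUpperSet K) (U : Set P) (hU : IsOpen U) (hsub : ⋂₀ 𝒦 ⊆ U) :
    ∃ K ∈ 𝒦, K ⊆ U := by
  by_contra hno
  push Not at hno
  obtain ⟨D, hDU, hD, hKD, hmin⟩ := rudin (fun K h => (hK K h).1) hU.isClosed_compl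
    (fun K h => by
      obtain ⟨x, hx, hxU⟩ := not_subset.1 (hno K h)
      exact ⟨x, hx, hxU⟩)
  have hirr := rudin_irreducible hne hdir hD hKD hmin
  rcases irreducible_cases hD hirr with huniv | ⟨p, hp⟩
  · -- every proper closed set misses some member of the family
    have hmiss : ∀ E, IsClosed E → E ≠ Set.univ → ∃ K ∈ 𝒦, K ∩ E = ∅ := by
      intro E hE hEne
      by_contra hall
      push Not at hall
      have h1 := hmin E hE (by rw [huniv]; exact subset_univ _) hall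
      exact hEne (h1.trans huniv)
    have hEcl : ∀ β : W 0, IsClosed {q : P | q.c ≤ β ∨ q.l ≤ (β : WithTop (W 0))} := by
      intro β
      apply isClosed_of
      · rintro q r hrq (h1 | h1)
        · rcases hrq with ⟨h3, _⟩ | ⟨_, h4⟩
          · exact Or.inl (h3.le.trans h1)
          · exact Or.inr (h4.trans (WithTop.coe_le_coe.2 h1))
        · rcases hrq with ⟨_, h4⟩ | ⟨h3, _⟩
          · exact Or.inr (h4.trans h1)
          · rw [h3] at h1
            exact absurd h1 not_top_le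
      · intro a
        by_cases ha : a ≤ β
        · exact Or.inl fun x => Or.inl ha
        · right; right
          refine ⟨β, fun y => ?_⟩
          constructor
          · rintro (h | h)
            · exact absurd h ha
            · exact h
          · intro h
            exact Or.inr h
    have hEne : ∀ β : W 0, {q : P | q.c ≤ β ∨ q.l ≤ (β : WithTop (W 0))} ≠ Set.univ := by
      intro β h
      obtain ⟨γ, hγ⟩ := exists_gt' β
      have h1 : (⟨γ, ⊤⟩ : P) ∈ {q : P | q.c ≤ β ∨ q.l ≤ (β : WithTop (W 0))} := by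
        rw [h]
        trivial
      rcases h1 with h1 | h1
      · exact absurd h1 (not_le.2 hγ)
      · exact absurd h1 not_top_le
    obtain ⟨K₀, hK₀⟩ := hne
    obtain ⟨β, hβ⟩ := (finite_cols (hK K₀ hK₀).1).bddAbove
    obtain ⟨K₁, hK₁, hK₁'⟩ := hmiss _ (hEcl β) (hEne β)
    obtain ⟨K₂, hK₂, h20, h21⟩ := hdir K₀ hK₀ K₁ hK₁
    have htops : ∀ q ∈ K₂, q.l = ⊤ := by
      intro q hq
      by_contra hql
      obtain ⟨x, hx⟩ := WithTop.ne_top_iff_exists.1 hql
      have h1 : q.c ≤ β := by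
        apply hβ
        refine ⟨x, ?_⟩
        have : (⟨q.c, (x : WithTop (W 0))⟩ : P) = q := P.ext rfl hx
        rw [this]
        exact h20 hq
      have h2 : q ∈ K₁ ∩ {q : P | q.c ≤ β ∨ q.l ≤ (β : WithTop (W 0))} := ⟨h21 hq, Or.inl h1⟩
      rw [hK₁'] at h2
      exact h2
    obtain ⟨β', hβ'⟩ := (finite_tops (hK K₂ hK₂).1 htops).bddAbove
    obtain ⟨K₃, hK₃, hK₃'⟩ := hmiss _ (hEcl β') (hEne β')
    obtain ⟨K₄, hK₄, h42, h43⟩ := hdir K₂ hK₂ K₃ hK₃
    obtain ⟨q, hq, _⟩ := hKD K₄ hK₄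
    have h1 : q.c ≤ β' := by
      apply hβ'
      have : (⟨q.c, ⊤⟩ : P) = q := P.ext rfl (htops q (h42 hq)).symm
      show (⟨q.c, ⊤⟩ : P) ∈ K₂
      rw [this]
      exact h42 hq
    have h2 : q ∈ K₃ ∩ {q : P | q.c ≤ β' ∨ q.l ≤ (β' : WithTop (W 0))} := ⟨h43 hq, Or.inl h1⟩
    rw [hK₃'] at h2
    exact h2
  · have h1 : p ∈ ⋂₀ 𝒦 := by
      intro K hKm
      obtain ⟨q, hqK, hqD⟩ := hKD K hKm
      rw [hp] at hqD
      exact (hK K hKm).2 hqD hqK
    have h2 : p ∈ D := by
      rw [hp]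
      exact (show p ≤ p from le_rfl)
    exact hDU h2 (hsub h1)

/-! ### No compatible sober topology -/

theorem not_sober (t : TopologicalSpace P) (ht : ∀ x : P, @closure P t {x} = Set.Iic x)
    (hs : @QuasiSober P t) : False := by
  have hup : ∀ U : Set P, IsOpen[t] U → IsUpperSet U := by
    intro U hU p q hpq hp
    have h1 : p ∈ @closure P t {q} := by
      rw [ht]
      exact hpq
    obtain ⟨z, hz, hz'⟩ := (@mem_closure_iff P t p (Singleton.singleton q : Set P)).1 h1 U hU hp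
    have hzq : z = q := hz'
    rw [← hzq]
    exact hz
  -- every open set containing a point of level `⊤` contains a point of finite level below it
  have hbelow : ∀ U : Set P, IsOpen[t] U → ∀ a : W 0, (⟨a, ⊤⟩ : P) ∈ U →
      ∃ x : W 0, (⟨a, x⟩ : P) ∈ U := by
    intro U hU a haU
    let f : W 0 → P := fun x => ⟨a, x⟩
    have hirr : @IsIrreducible P t (range f) := by
      refine ⟨range_nonempty f, ?_⟩
      rintro V V' hV hV' ⟨_, ⟨x, rfl⟩, hx⟩ ⟨_, ⟨y, rfl⟩, hy⟩
      refine ⟨f (max x y), ⟨_, rfl⟩, ?_, ?_⟩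
      · exact hup V hV (show f x ≤ f (max x y) from
          Or.inl ⟨rfl, WithTop.coe_le_coe.2 (le_max_left x y)⟩) hx
      · exact hup V' hV' (show f y ≤ f (max x y) from
          Or.inl ⟨rfl, WithTop.coe_le_coe.2 (le_max_right x y)⟩) hy
    obtain ⟨p, hp⟩ := @QuasiSober.sober P t hs _ (@IsIrreducible.closure P t _ hirr)
      (@isClosed_closure P t _)
    have hp' : Iic p = @closure P t (range f) := by
      rw [← ht p]
      exact hp
    have hpa : p = ⟨a, ⊤⟩ := by
      have h1 : ∀ x : W 0, f x ≤ p := by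
        intro x
        have : f x ∈ Iic p := by
          rw [hp']
          exact @subset_closure P t _ _ ⟨x, rfl⟩
        exact this
      have h2 : p.l = ⊤ := by
        by_contra hpl
        obtain ⟨y, hy⟩ := WithTop.ne_top_iff_exists.1 hpl
        obtain ⟨z, hz⟩ := exists_gt' y
        rcases h1 z with ⟨_, h3⟩ | ⟨h3, _⟩
        · rw [← hy] at h3
          exact absurd (WithTop.coe_le_coe.1 h3) (not_le.2 hz)
        · exact hpl h3
      have h3 : p.c = a := by
        by_contra hpc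
        obtain ⟨z, hz⟩ := exists_gt' p.c
        rcases h1 z with ⟨h4, _⟩ | ⟨_, h4⟩
        · exact hpc h4.symm
        · exact absurd (WithTop.coe_le_coe.1 h4) (not_le.2 hz)
      exact P.ext h3 h2
    have h1 : (⟨a, ⊤⟩ : P) ∈ @closure P t (range f) := by
      rw [← hp', hpa]
      exact (show (⟨a, ⊤⟩ : P) ≤ ⟨a, ⊤⟩ from le_rfl)
    obtain ⟨_, hz, ⟨x, rfl⟩⟩ := (@mem_closure_iff P t _ _).1 h1 U hU haU
    exact ⟨x, hz⟩
  -- hence nonempty open sets contain all points of level `⊤` in large columns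
  have hlarge : ∀ U : Set P, IsOpen[t] U → U.Nonempty → ∃ β : W 0, ∀ γ, β ≤ γ →
      (⟨γ, ⊤⟩ : P) ∈ U := by
    rintro U hU ⟨p, hp⟩
    obtain ⟨x, hx⟩ := hbelow U hU p.c
      (hup U hU (show p ≤ ⟨p.c, ⊤⟩ from Or.inl ⟨rfl, le_top⟩) hp)
    exact ⟨x, fun γ hγ => hup U hU (show (⟨p.c, x⟩ : P) ≤ ⟨γ, ⊤⟩ from
      Or.inr ⟨rfl, WithTop.coe_le_coe.2 hγ⟩) hx⟩
  have hirr : @IsIrreducible P t Set.univ := by
    refine ⟨⟨⟨Classical.arbitrary _, ⊤⟩, trivial⟩, ?_⟩
    rintro U V hU hV ⟨x, _, hx⟩ ⟨y, _, hy⟩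
    obtain ⟨β, hβ⟩ := hlarge U hU ⟨x, hx⟩
    obtain ⟨γ, hγ⟩ := hlarge V hV ⟨y, hy⟩
    exact ⟨⟨max β γ, ⊤⟩, trivial, hβ _ (le_max_left _ _), hγ _ (le_max_right _ _)⟩
  obtain ⟨p, hp⟩ := @QuasiSober.sober P t hs _ hirr (@isClosed_univ P t)
  have hp' : Iic p = Set.univ := by
    rw [← ht p]
    exact hp
  obtain ⟨z, hz⟩ := exists_gt' p.c
  have h1 : (⟨z, ⊤⟩ : P) ∈ Iic p := by
    rw [hp']
    trivial
  have h2 := maximal_top rfl h1
  have h3 : p.c = z := congrArg P.c h2
  exact absurd h3 (ne_of_lt hz)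

end Pool.Agent.V11189.JU
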