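import Pool.Agent.V11189.KChains

set_option autoImplicit false

open Set Topology

namespace Pool.Agent.V11189.KChains

/-- The set of closed `K`-determined subsets of `X`, written exactly as in the frozen statement. -/
def PH (X : Type) [TopologicalSpace X] : Type :=
  {A : Set X // IsClosed A ∧ ∀ (Y : Type) [TopologicalSpace Y], K Y →
            ∀ f : X → Y, Continuous f → ∃! y : Y, closure (f '' A) = closure {y}}

variable {X : Type} [TopologicalSpace X]

/-- The generating sets. -/
def gens (X : Type) [TopologicalSpace X] : Set (Set (PH X)) :=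
  {S | ∃ U : Set X, IsOpen U ∧ S = {A | (A.1 ∩ U).Nonempty}}

instance : TopologicalSpace (PH X) := TopologicalSpace.generateFrom (gens X)

theorem isOpen_dia {U : Set X} (hU : IsOpen U) : IsOpen {A : PH X | (A.1 ∩ U).Nonempty} :=
  TopologicalSpace.isOpen_generateFrom_of_mem ⟨U, hU, rfl⟩

theorem spec_PH {A B : PH X} : A ⤳ B ↔ B.1 ⊆ A.1 := by
  constructor
  · intro h x hx
    by_contra hxA
    have h1 := h.mem_open (isOpen_dia A.2.1.isOpen_compl) ⟨x, hx, hxA⟩
    obtain ⟨y, hy, hy'⟩ := h1
    exact hy' hy
  · intro h
    rw [specializes_iff_forall_open]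
    intro s hs hB
    induction hs with
    | basic s hs =>
      obtain ⟨U, hU, rfl⟩ := hs
      obtain ⟨x, hx, hxU⟩ := hB
      exact ⟨x, h hx, hxU⟩
    | univ => trivial
    | inter s t _ _ ihs iht => exact ⟨ihs hB.1, iht hB.2⟩
    | sUnion S _ ih =>
      obtain ⟨t, ht, hBt⟩ := hB
      exact ⟨t, ht, ih t ht hBt⟩

theorem K_PH : K (PH X) := by
  constructor
  · constructor
    intro A B h
    exact Subtype.ext (Subset.antisymm (spec_PH.1 h.specializes') (spec_PH.1 h.specializes))
  · intro n f hf
    have hmono : ∀ a b, a ≤ b → (f a).1 ⊆ (f b).1 := fun a b hab => spec_PH.1 (hf a b hab)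
    have hdet : ∀ (Y : Type) [TopologicalSpace Y], K Y → ∀ g : X → Y, Continuous g →
        ∃! y : Y, closure (g '' closure (⋃ a, (f a).1)) = closure {y} := by
      intro Y _ hY g hg
      have hT0 := hY.1
      choose y hy _ using fun a => (f a).2.2 Y hY g hg
      have hchain : IsChn y := by
        intro a b hab
        rw [specializes_iff_mem_closure, ← hy b]
        apply closure_mono (image_mono (hmono a b hab))
        rw [hy a]
        exact subset_closure rfl
      obtain ⟨z, hz⟩ := hY.2 n y hchain
      have hz' := hz.closure_eq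
      have h1 : closure (g '' closure (⋃ a, (f a).1)) = closure {z} := by
        rw [closure_image_closure hg, ← hz']
        apply Subset.antisymm
        · apply closure_minimal _ isClosed_closure
          rw [image_iUnion]
          apply iUnion_subset
          intro a
          have h2 : g '' (f a).1 ⊆ closure {y a} := by
            rw [← hy a]
            exact subset_closure
          exact h2.trans (closure_mono (singleton_subset_iff.2 ⟨a, rfl⟩))
        · apply closure_minimal _ isClosed_closure
          rintro _ ⟨a, rfl⟩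
          apply closure_mono (image_mono (subset_iUnion (fun a => (f a).1) a))
          rw [hy a]
          exact subset_closure rfl
      exact ⟨z, h1, fun w hw => closure_inj (hw.symm.trans h1)⟩
    let A : PH X := ⟨closure (⋃ a, (f a).1), isClosed_closure, hdet⟩
    have hA : A.1 = closure (⋃ a, (f a).1) := rfl
    refine ⟨A, fun a => spec_PH.2 ((subset_iUnion (fun a => (f a).1) a).trans subset_closure), ?_⟩
    have key : ∀ o : Set (PH X), IsOpen o → A ∈ o → ∃ a, ∀ b, a ≤ b → f b ∈ o := by
      intro o ho hAo
      induction ho with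
      | basic s hs =>
        obtain ⟨U, hU, rfl⟩ := hs
        have h2 : (A.1 ∩ U).Nonempty := hAo
        obtain ⟨x, hx, hxU⟩ := h2
        rw [hA] at hx
        obtain ⟨z, hzU, hz⟩ := mem_closure_iff.1 hx U hU hxU
        obtain ⟨a, ha⟩ := mem_iUnion.1 hz
        exact ⟨a, fun b hab => ⟨z, hmono a b hab ha, hzU⟩⟩
      | univ => exact ⟨Classical.arbitrary _, fun b _ => trivial⟩
      | inter s t _ _ ihs iht =>
        obtain ⟨a, ha⟩ := ihs hAo.1
        obtain ⟨b, hb⟩ := iht hAo.2
        exact ⟨max a b, fun d hd => ⟨ha d ((le_max_left a b).trans hd),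
          hb d ((le_max_right a b).trans hd)⟩⟩
      | sUnion S _ ih =>
        obtain ⟨t, ht, hAt⟩ := hAo
        obtain ⟨a, ha⟩ := ih t ht hAt
        exact ⟨a, fun b hb => ⟨t, ht, ha b hb⟩⟩
    rw [mem_closure_iff]
    intro o ho hAo
    obtain ⟨a, ha⟩ := key o ho hAo
    exact ⟨f a, ha a le_rfl, ⟨a, rfl⟩⟩

end Pool.Agent.V11189.KChains
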