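import Mathlib

set_option autoImplicit false

open Set Topology Cardinal

namespace Pool.Agent.V11189.KChains

/-! ### Well-ordered types of regular order type -/

/-- The regular cardinals `ℵ_{n+1}`. -/
noncomputable def c : ℕ → Cardinal.{0}
  | 0 => Order.succ ℵ₀
  | n + 1 => Order.succ (c n)

theorem aleph0_le_c (n : ℕ) : ℵ₀ ≤ c n := by
  induction n with
  | zero => exact Order.le_succ _
  | succ n ih => exact ih.trans (Order.le_succ _)

theorem regular_c (n : ℕ) : (c n).IsRegular := by
  cases n with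
  | zero => exact isRegular_succ le_rfl
  | succ n => exact isRegular_succ (aleph0_le_c n)

theorem aleph0_lt_c (n : ℕ) : ℵ₀ < c n := by
  cases n with
  | zero => exact Order.lt_succ _
  | succ n => exact lt_of_le_of_lt (aleph0_le_c n) (Order.lt_succ _)

theorem c_lt {m n : ℕ} (h : m < n) : c m < c n :=
  strictMono_nat_of_lt_succ (fun n => Order.lt_succ (c n)) h

/-- The well-ordered set of order type `ω_{n+1}`. -/
def W (n : ℕ) : Type := (c n).ord.ToType

noncomputable instance (n : ℕ) : LinearOrder (W n) := inferInstanceAs (LinearOrder (c n).ord.ToType)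
instance (n : ℕ) : WellFoundedLT (W n) := inferInstanceAs (WellFoundedLT (c n).ord.ToType)

theorem mk_W (n : ℕ) : #(W n) = c n := by
  show #((c n).ord.ToType) = c n
  simp

theorem cof_W (n : ℕ) : Order.cof (W n) = c n := by
  show Order.cof ((c n).ord.ToType) = c n
  rw [Ordinal.cof_toType]
  exact (regular_c n).cof_ord

/-- Small families are strictly bounded. -/
theorem bdd {n : ℕ} {ι : Type} (hι : #ι < c n) (d : ι → W n) : ∃ w, ∀ i, d i < w := by
  by_contra hcon
  push Not at hcon
  have hcof : IsCofinal (range d) := by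
    intro w
    obtain ⟨i, hi⟩ := hcon w
    exact ⟨d i, ⟨i, rfl⟩, hi⟩
  have h1 := Order.cof_le hcof
  rw [cof_W] at h1
  exact absurd (h1.trans mk_range_le) (not_le.2 hι)

theorem bdd_nat {n : ℕ} (d : ℕ → W n) : ∃ w, ∀ i, d i < w :=
  bdd (by rw [mk_nat]; exact aleph0_lt_c n) d

theorem exists_gt' {n : ℕ} (a : W n) : ∃ w, a < w := by
  obtain ⟨w, hw⟩ := bdd_nat (fun _ => a)
  exact ⟨w, hw 0⟩

instance (n : ℕ) : Nonempty (W n) := by
  rw [← mk_ne_zero_iff, mk_W]
  exact (regular_c n).ne_zero

/-! ### Linear orders with the upper topology -/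

/-- A linear order with the topology generated by the rays `{y | a < y}`. -/
structure Up (L : Type) : Type where
  /-- the underlying element -/
  v : L

variable {L : Type} [LinearOrder L]

instance : TopologicalSpace (Up L) where
  IsOpen U := ∀ x ∈ U, (∀ y, y ∈ U) ∨ ∃ a : L, a < x.v ∧ ∀ y : Up L, a < y.v → y ∈ U
  isOpen_univ := fun _ _ => Or.inl fun _ => trivial
  isOpen_inter := by
    rintro U V hU hV x ⟨hxU, hxV⟩
    rcases hU x hxU with h1 | ⟨a, ha, ha'⟩ <;> rcases hV x hxV with h2 | ⟨b, hb, hb'⟩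
    · exact Or.inl fun y => ⟨h1 y, h2 y⟩
    · exact Or.inr ⟨b, hb, fun y hy => ⟨h1 y, hb' y hy⟩⟩
    · exact Or.inr ⟨a, ha, fun y hy => ⟨ha' y hy, h2 y⟩⟩
    · exact Or.inr ⟨max a b, max_lt ha hb, fun y hy => ⟨ha' y ((le_max_left a b).trans_lt hy),
        hb' y ((le_max_right a b).trans_lt hy)⟩⟩
  isOpen_sUnion := by
    rintro T hT x ⟨U, hU, hx⟩
    rcases hT U hU x hx with h1 | ⟨a, ha, ha'⟩
    · exact Or.inl fun y => ⟨U, hU, h1 y⟩
    · exact Or.inr ⟨a, ha, fun y hy => ⟨U, hU, ha' y hy⟩⟩

theorem isOpen_up {U : Set (Up L)} : IsOpen U ↔ ∀ x ∈ U, (∀ y, y ∈ U) ∨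
    ∃ a : L, a < x.v ∧ ∀ y : Up L, a < y.v → y ∈ U := Iff.rfl

theorem isOpen_ray (a : L) : IsOpen {y : Up L | a < y.v} :=
  fun _ hx => Or.inr ⟨a, hx, fun _ hy => hy⟩

theorem spec_up {x y : Up L} : x ⤳ y ↔ y.v ≤ x.v := by
  rw [specializes_iff_forall_open]
  constructor
  · intro h
    by_contra hlt
    exact lt_irrefl x.v (h {z : Up L | x.v < z.v} (isOpen_ray x.v) (not_le.1 hlt))
  · intro h U hU hy
    rcases isOpen_up.1 hU y hy with h1 | ⟨a, ha, ha'⟩
    · exact h1 x
    · exact ha' x (ha.trans_le h)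

instance : T0Space (Up L) := by
  constructor
  intro x y h
  have h1 := spec_up.1 h.specializes
  have h2 := spec_up.1 h.specializes'
  obtain ⟨x⟩ := x
  obtain ⟨y⟩ := y
  exact congrArg Up.mk (le_antisymm h2 h1)

theorem mem_closure_singleton_up {x y : Up L} : y ∈ closure {x} ↔ y.v ≤ x.v := by
  rw [← specializes_iff_mem_closure, spec_up]

/-- In a well-order a closed set is empty, everything, or the closure of a point. -/
theorem closed_cases [WellFoundedLT L] {C : Set (Up L)} (hC : IsClosed C) (hne : C.Nonempty) :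
    C = Set.univ ∨ ∃ a : Up L, C = closure {a} := by
  classical
  by_cases huniv : C = Set.univ
  · exact Or.inl huniv
  · right
    have hUne : ∃ v : L, Up.mk v ∉ C := by
      by_contra hno
      push Not at hno
      exact huniv (eq_univ_of_forall fun x => hno x.v)
    obtain ⟨m, hm, hmin⟩ := WellFounded.has_min (wellFounded_lt (α := L)) {v : L | Up.mk v ∉ C}
      hUne
    have hm' : Up.mk m ∈ Cᶜ := hm
    rcases isOpen_up.1 hC.isOpen_compl _ hm' with h1 | ⟨a, ha, ha'⟩
    · obtain ⟨x, hx⟩ := hne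
      exact absurd hx (h1 x)
    · refine ⟨⟨a⟩, ?_⟩
      ext y
      rw [mem_closure_singleton_up]
      constructor
      · intro hy
        by_contra hlt
        exact ha' y (not_le.1 hlt) hy
      · intro hy
        by_contra hyC
        exact hmin y.v hyC (hy.trans_lt ha)

/-! ### Limits of chains and the class `K` -/

/-- `y` is the limit (in the specialization order: supremum, to which the chain converges) of
the family `f`. -/
def IsLim {Y : Type} [TopologicalSpace Y] {ι : Type} (f : ι → Y) (y : Y) : Prop :=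
  (∀ a, y ⤳ f a) ∧ y ∈ closure (range f)

theorem IsLim.map {Y Z ι : Type} [TopologicalSpace Y] [TopologicalSpace Z] {f : ι → Y} {y : Y}
    (h : IsLim f y) {g : Y → Z} (hg : Continuous g) : IsLim (g ∘ f) (g y) := by
  refine ⟨fun a => (h.1 a).map hg, ?_⟩
  rw [range_comp]
  exact image_closure_subset_closure_image hg (mem_image_of_mem g h.2)

theorem IsLim.closure_eq {Y ι : Type} [TopologicalSpace Y] {f : ι → Y} {y : Y}
    (h : IsLim f y) : closure (range f) = closure {y} := by
  apply Subset.antisymm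
  · apply closure_minimal _ isClosed_closure
    rintro _ ⟨a, rfl⟩
    exact specializes_iff_mem_closure.1 (h.1 a)
  · apply closure_minimal _ isClosed_closure
    exact singleton_subset_iff.2 h.2

theorem isLim_iff {Y ι : Type} [TopologicalSpace Y] {f : ι → Y} {y : Y} :
    IsLim f y ↔ closure (range f) = closure {y} := by
  constructor
  · exact IsLim.closure_eq
  · intro h
    constructor
    · intro a
      rw [specializes_iff_mem_closure, ← h]
      exact subset_closure ⟨a, rfl⟩
    · rw [h]
      exact subset_closure rfl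

theorem closure_inj {Y : Type} [TopologicalSpace Y] [T0Space Y] {x y : Y}
    (h : closure {x} = closure ({y} : Set Y)) : x = y := by
  apply Inseparable.eq
  rw [inseparable_iff_specializes_and, specializes_iff_mem_closure, specializes_iff_mem_closure]
  exact ⟨by rw [h]; exact subset_closure rfl, by rw [← h]; exact subset_closure rfl⟩

theorem IsLim.unique {Y ι : Type} [TopologicalSpace Y] [T0Space Y] {f : ι → Y} {x y : Y}
    (hx : IsLim f x) (hy : IsLim f y) : x = y :=
  closure_inj (hx.closure_eq.symm.trans hy.closure_eq)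

/-- A chain indexed by `W n`. -/
def IsChn {Y : Type} [TopologicalSpace Y] {n : ℕ} (f : W n → Y) : Prop :=
  ∀ a b, a ≤ b → f b ⤳ f a

theorem IsChn.map {Y Z : Type} [TopologicalSpace Y] [TopologicalSpace Z] {n : ℕ} {f : W n → Y}
    (h : IsChn f) {g : Y → Z} (hg : Continuous g) : IsChn (g ∘ f) :=
  fun a b hab => (h a b hab).map hg

/-- The class `K`: the `T₀` spaces in which every chain of length `ω_{n+1}`, `n ≥ 0`, has a
limit. -/
def K (Y : Type) [TopologicalSpace Y] : Prop :=
  T0Space Y ∧ ∀ (n : ℕ) (f : W n → Y), IsChn f → ∃ y, IsLim f y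

theorem K_of_sober (Y : Type) [TopologicalSpace Y] [T0Space Y] [QuasiSober Y] : K Y := by
  refine ⟨inferInstance, fun n f hf => ?_⟩
  have hirr : IsIrreducible (range f) := by
    refine ⟨range_nonempty f, ?_⟩
    rintro U V hU hV ⟨_, ⟨a, rfl⟩, ha⟩ ⟨_, ⟨b, rfl⟩, hb⟩
    exact ⟨f (max a b), ⟨max a b, rfl⟩, (hf _ _ (le_max_left a b)).mem_open hU ha,
      (hf _ _ (le_max_right a b)).mem_open hV hb⟩
  obtain ⟨y, hy⟩ := QuasiSober.sober hirr.closure isClosed_closure
  exact ⟨y, isLim_iff.2 hy.symm⟩

theorem K_homeo {X Y : Type} [TopologicalSpace X] [TopologicalSpace Y] (e : X ≃ₜ Y) (hX : K X) :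
    K Y := by
  have := hX.1
  refine ⟨e.symm.isEmbedding.t0Space, fun n f hf => ?_⟩
  obtain ⟨x, hx⟩ := hX.2 n (e.symm ∘ f) (hf.map e.symm.continuous)
  refine ⟨e x, ?_⟩
  have h1 := hx.map e.continuous
  have h2 : e ∘ (e.symm ∘ f) = f := by
    funext a
    simp
  rwa [h2] at h1

theorem isLim_subtype {S : Type} [TopologicalSpace S] {A : Set S} {ι : Type} {f : ι → A} {y : A} :
    IsLim f y ↔ IsLim (fun a => (f a : S)) (y : S) := by
  constructor
  · intro h
    exact h.map continuous_subtype_val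
  · intro h
    refine ⟨fun a => (subtype_specializes_iff _ _).2 (h.1 a), ?_⟩
    rw [closure_subtype]
    have : Subtype.val '' range f = range (fun a => (f a : S)) := by
      rw [← range_comp]
      rfl
    rw [this]
    exact h.2

/-- Criterion for subspaces of a member of `K`. -/
theorem K_subtype {S : Type} [TopologicalSpace S] (hS : K S) {A : Set S} :
    K A ↔ ∀ (n : ℕ) (f : W n → S), IsChn f → (∀ a, f a ∈ A) → ∀ y, IsLim f y → y ∈ A := by
  have hT0 := hS.1
  constructor
  · intro hA n f hf hfA y hy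
    obtain ⟨z, hz⟩ := hA.2 n (fun a => (⟨f a, hfA a⟩ : A))
      (fun a b hab => (subtype_specializes_iff _ _).2 (hf a b hab))
    have h1 : IsLim f (z : S) := isLim_subtype.1 hz
    rw [hy.unique h1]
    exact z.2
  · intro h
    refine ⟨inferInstance, fun n f hf => ?_⟩
    have hch : IsChn (fun a => (f a : S)) := hf.map continuous_subtype_val
    obtain ⟨y, hy⟩ := hS.2 n (fun a => (f a : S)) hch
    exact ⟨⟨y, h n _ hch (fun a => (f a).2) y hy⟩, isLim_subtype.2 hy⟩

theorem K_sInter {Y : Type} [TopologicalSpace Y] [T0Space Y] [QuasiSober Y] (S : Set (Set Y))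
    (h : ∀ A ∈ S, K A) : K (⋂₀ S) := by
  have hY := K_of_sober Y
  rw [K_subtype hY]
  intro n f hf hfA y hy A hA
  exact (K_subtype hY).1 (h A hA) n f hf (fun a => hfA a A hA) y hy

theorem K_preimage {X Y : Type} [TopologicalSpace X] [TopologicalSpace Y] [T0Space X]
    [QuasiSober X] [T0Space Y] [QuasiSober Y] (f : X → Y) (hf : Continuous f) (B : Set Y)
    (hB : K B) : K (f ⁻¹' B) := by
  rw [K_subtype (K_of_sober X)]
  intro n g hg hgB y hy
  exact (K_subtype (K_of_sober Y)).1 hB n (f ∘ g) (hg.map hf) hgB (f y) (hy.map hf)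

theorem isLim_pi {I : Type} {Y : I → Type} [∀ i, TopologicalSpace (Y i)] {n : ℕ}
    {f : W n → ∀ i, Y i} (hf : IsChn f) {y : ∀ i, Y i}
    (h : ∀ i, IsLim (fun a => f a i) (y i)) : IsLim f y := by
  classical
  constructor
  · intro a
    rw [specializes_pi]
    exact fun i => (h i).1 a
  · rw [mem_closure_iff]
    intro U hU hy
    obtain ⟨s, u, hu, hsub⟩ := isOpen_pi_iff.1 hU y hy
    have hex : ∀ i : I, ∃ a : W n, i ∈ s → f a i ∈ u i := by
      intro i
      by_cases hi : i ∈ s
      · obtain ⟨_, hz, ⟨a, rfl⟩⟩ := mem_closure_iff.1 (h i).2 (u i) (hu i hi).1 (hu i hi).2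
        exact ⟨a, fun _ => hz⟩
      · exact ⟨Classical.arbitrary _, fun h => absurd h hi⟩
    choose a ha using hex
    obtain ⟨w, hw⟩ : ∃ w, ∀ i ∈ s, a i ≤ w := by
      obtain ⟨w, hw⟩ := (s.image a).bddAbove
      exact ⟨w, fun i hi => hw (Finset.mem_coe.2 (Finset.mem_image_of_mem a hi))⟩
    refine ⟨f w, hsub ?_, ⟨w, rfl⟩⟩
    intro i hi
    exact ((hf _ _ (hw i hi)).map (continuous_apply i)).mem_open (hu i hi).1 (ha i hi)

theorem K_pi {I : Type} {Y : I → Type} [∀ i, TopologicalSpace (Y i)] (h : ∀ i, K (Y i)) :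
    K (∀ i, Y i) := by
  have hT0 : ∀ i, T0Space (Y i) := fun i => (h i).1
  refine ⟨inferInstance, fun n f hf => ?_⟩
  choose y hy using fun i => (h i).2 n (fun a => f a i) (hf.map (continuous_apply i))
  exact ⟨y, isLim_pi hf hy⟩

/-! ### The spaces -/

/-- The space `ω_{n+1}`. -/
abbrev X (n : ℕ) : Type := Up (W n)

/-- The space `ω_{n+1} + 1`. -/
abbrev T (n : ℕ) : Type := Up (WithTop (W n))

/-- The top point. -/
def top (n : ℕ) : T n := ⟨⊤⟩

/-- The inclusion. -/
def η (n : ℕ) (x : X n) : T n := ⟨(x.v : WithTop (W n))⟩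

theorem continuous_η (n : ℕ) : Continuous (η n) := by
  rw [continuous_def]
  intro U hU
  rw [isOpen_up]
  intro x hx
  rcases isOpen_up.1 hU (η n x) hx with h1 | ⟨a, ha, ha'⟩
  · exact Or.inl fun y => h1 _
  · right
    induction a using WithTop.recTopCoe with
    | top => exact absurd ha (not_lt.2 le_top)
    | coe a => exact ⟨a, WithTop.coe_lt_coe.1 ha, fun y hy => ha' _ (WithTop.coe_lt_coe.2 hy)⟩

instance (n : ℕ) : QuasiSober (T n) := by
  constructor
  intro S hS hS'
  rcases closed_cases hS' hS.1 with h | ⟨a, ha⟩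
  · refine ⟨top n, ?_⟩
    show closure {top n} = S
    rw [h]
    apply eq_univ_of_forall
    intro y
    rw [mem_closure_singleton_up]
    exact le_top
  · exact ⟨a, ha.symm⟩

theorem K_T (n : ℕ) : K (T n) := K_of_sober _

theorem isLim_top (n : ℕ) : IsLim (η n) (top n) := by
  constructor
  · intro a
    rw [spec_up]
    exact le_top
  · rw [mem_closure_iff]
    intro U hU hy
    rcases isOpen_up.1 hU _ hy with h1 | ⟨a, ha, ha'⟩
    · obtain ⟨w⟩ := (inferInstance : Nonempty (W n))
      exact ⟨_, h1 _, ⟨⟨w⟩, rfl⟩⟩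
    · obtain ⟨w, rfl⟩ := WithTop.ne_top_iff_exists.1 (ne_of_lt (show a < ⊤ from ha))
      obtain ⟨w', hw'⟩ := exists_gt' w
      exact ⟨_, ha' (η n ⟨w'⟩) (WithTop.coe_lt_coe.2 hw'), ⟨⟨w'⟩, rfl⟩⟩

/-- If `t` dominates all of `W n`, then `t` is the top point. -/
theorem eq_top {n : ℕ} {t : T n} (h : ∀ a : X n, t ⤳ η n a) : t = top n := by
  obtain ⟨t⟩ := t
  induction t using WithTop.recTopCoe with
  | top => rfl
  | coe t =>
    obtain ⟨w, hw⟩ := exists_gt' t
    have h1 := spec_up.1 (h ⟨w⟩)
    exact absurd (WithTop.coe_le_coe.1 h1) (not_le.2 hw)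

/-- A shorter chain with limit the top point attains the top point. -/
theorem attained {m n : ℕ} (hmn : m < n) {f : W m → T n} (hf : IsLim f (top n)) :
    ∃ b, f b = top n := by
  by_contra hcon
  push Not at hcon
  have hex : ∀ b, ∃ d : W n, (d : WithTop (W n)) = (f b).v := by
    intro b
    apply WithTop.ne_top_iff_exists.1
    intro h
    apply hcon b
    obtain ⟨v, hv⟩ : ∃ v, f b = Up.mk v := ⟨(f b).v, rfl⟩
    rw [hv] at h ⊢
    exact congrArg Up.mk h
  choose d hd using hex
  obtain ⟨w, hw⟩ := bdd (n := n) (by rw [mk_W]; exact c_lt hmn) d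
  obtain ⟨_, hz, ⟨a, rfl⟩⟩ := mem_closure_iff.1 hf.2 {y : T n | (w : WithTop (W n)) < y.v}
    (isOpen_ray _) (WithTop.coe_lt_top w)
  have h1 : (w : WithTop (W n)) < (f a).v := hz
  rw [← hd a, WithTop.coe_lt_coe] at h1
  exact lt_asymm h1 (hw a)

/-- The points of the product with finitely many coordinates equal to the top point. -/
def A : Set (∀ n, T n) := {x | {n | x n = top n}.Finite}

theorem K_A : K A := by
  rw [K_subtype (K_pi K_T)]
  intro m f hf hfA y hy
  show {n | y n = top n}.Finite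
  by_contra hinf
  have hinf' : {n | y n = top n}.Infinite := hinf
  classical
  have hex : ∀ n, ∃ b : W m, y n = top n → m < n → f b n = top n := by
    intro n
    by_cases h : y n = top n ∧ m < n
    · have h1 : IsLim (fun a => f a n) (y n) := hy.map (continuous_apply n)
      rw [h.1] at h1
      obtain ⟨b, hb⟩ := attained h.2 h1
      exact ⟨b, fun _ _ => hb⟩
    · exact ⟨Classical.arbitrary _, fun h1 h2 => absurd ⟨h1, h2⟩ h⟩
  choose b hb using hex
  obtain ⟨w, hw⟩ := bdd_nat b
  have hsub : {n | y n = top n} \ Iic m ⊆ {n | f w n = top n} := by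
    rintro n ⟨hn, hmn⟩
    have h1 := hb n hn (not_le.1 hmn)
    have h2 : f w n ⤳ f (b n) n := (hf _ _ (hw n).le).map (continuous_apply n)
    rw [h1] at h2
    have h3 := spec_up.1 h2
    show f w n = top n
    obtain ⟨v, hv⟩ : ∃ v, f w n = Up.mk v := ⟨(f w n).v, rfl⟩
    rw [hv] at h3 ⊢
    exact congrArg Up.mk (top_le_iff.1 h3)
  exact (hinf'.sdiff (finite_Iic m)).mono hsub (hfA w)

/-- The inclusion of the product of the `X n` in `A`. -/
def g (x : ∀ n, X n) : A := ⟨fun n => η n (x n), by
  have : {n | η n (x n) = top n} = ∅ := by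
    apply eq_empty_of_forall_notMem
    intro n hn
    have := congrArg Up.v (show η n (x n) = top n from hn)
    exact WithTop.coe_ne_top this
  show {n | η n (x n) = top n}.Finite
  rw [this]
  exact finite_empty⟩

theorem continuous_g : Continuous g :=
  Continuous.subtype_mk (continuous_pi fun n => (continuous_η n).comp (continuous_apply n)) _

/-- No point of `A` dominates the image of `g`. -/
theorem no_bound (z : A) (h : ∀ x, z ⤳ g x) : False := by
  have h1 : ∀ n, z.1 n = top n := by
    intro n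
    apply eq_top
    intro a
    classical
    have h2 := h (Function.update (fun n => (⟨Classical.arbitrary _⟩ : X n)) n a)
    have h3 := (h2.map continuous_subtype_val).map (continuous_apply n)
    have h4 : (g (Function.update (fun n => (⟨Classical.arbitrary _⟩ : X n)) n a)).1 n = η n a := by
      show η n (Function.update (fun n => (⟨Classical.arbitrary _⟩ : X n)) n a n) = η n a
      rw [Function.update_self]
    rwa [h4] at h3
  have h5 : {n | z.1 n = top n} = Set.univ := eq_univ_of_forall h1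
  have h6 : {n | z.1 n = top n}.Finite := z.2
  rw [h5] at h6
  exact infinite_univ h6

/-- A continuous map from `X n` to a member of `K` is a chain. -/
theorem chain_of_continuous {n : ℕ} {Y : Type} [TopologicalSpace Y] {f : X n → Y}
    (hf : Continuous f) : IsChn (fun a : W n => f ⟨a⟩) := by
  intro a b hab
  exact (spec_up.2 (show (Up.mk a).v ≤ (Up.mk b).v from hab)).map hf

theorem range_mk {n : ℕ} {Y : Type} (f : X n → Y) : range (fun a : W n => f ⟨a⟩) = range f := by
  ext y
  constructor
  · rintro ⟨a, rfl⟩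
    exact ⟨_, rfl⟩
  · rintro ⟨a, rfl⟩
    exact ⟨a.v, rfl⟩

/-- `X n` is `K`-determined. -/
theorem determined {n : ℕ} {Y : Type} [TopologicalSpace Y] (hY : K Y) {f : X n → Y}
    (hf : Continuous f) : ∃! y : Y, closure (range f) = closure {y} := by
  have := hY.1
  obtain ⟨y, hy⟩ := hY.2 n _ (chain_of_continuous hf)
  have h1 := hy.closure_eq
  rw [range_mk] at h1
  exact ⟨y, h1, fun z hz => closure_inj (hz.symm.trans h1)⟩

/-- `η n : X n → T n` is a `K`-reflection. -/
theorem reflection {n : ℕ} {Z : Type} [TopologicalSpace Z] (hZ : K Z) (f : X n → Z)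
    (hf : Continuous f) : ∃! h : T n → Z, Continuous h ∧ h ∘ η n = f := by
  have hT0 := hZ.1
  obtain ⟨z, hz⟩ := hZ.2 n _ (chain_of_continuous hf)
  have hz1 : ∀ a : X n, z ⤳ f a := fun a => hz.1 a.v
  let h : T n → Z := fun t => WithTop.recTopCoe z (fun a => f ⟨a⟩) t.v
  have hη : ∀ a : X n, h (η n a) = f a := fun a => rfl
  have htop : h (top n) = z := rfl
  have hcases : ∀ t : T n, t = top n ∨ ∃ a : X n, t = η n a := by
    rintro ⟨t⟩
    induction t using WithTop.recTopCoe with
    | top => exact Or.inl rfl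
    | coe a => exact Or.inr ⟨⟨a⟩, rfl⟩
  refine ⟨h, ⟨?_, funext hη⟩, ?_⟩
  · rw [continuous_def]
    intro V hV
    have hVo : IsOpen (f ⁻¹' V) := hV.preimage hf
    rw [isOpen_up]
    intro t ht
    -- some point of the chain below `t` is mapped into `V`
    have hkey : ∀ a : X n, f a ∈ V → (∀ y, y ∈ h ⁻¹' V) ∨ ∃ b : WithTop (W n),
        b < (a.v : WithTop (W n)) ∧ ∀ y : T n, b < y.v → y ∈ h ⁻¹' V := by
      intro a ha
      rcases isOpen_up.1 hVo a ha with h1 | ⟨b, hb, hb'⟩
      · left
        intro y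
        rcases hcases y with rfl | ⟨y, rfl⟩
        · exact (hz1 a).mem_open hV ha
        · exact h1 y
      · right
        refine ⟨b, WithTop.coe_lt_coe.2 hb, ?_⟩
        intro y hy
        rcases hcases y with rfl | ⟨y, rfl⟩
        · exact (hz1 a).mem_open hV ha
        · exact hb' y (WithTop.coe_lt_coe.1 hy)
    rcases hcases t with rfl | ⟨a, rfl⟩
    · have hzV : z ∈ V := ht
      obtain ⟨_, hv, ⟨a, rfl⟩⟩ := mem_closure_iff.1 hz.2 V hV hzV
      rcases hkey ⟨a⟩ hv with h1 | ⟨b, hb, hb'⟩
      · exact Or.inl h1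
      · exact Or.inr ⟨b, hb.trans (WithTop.coe_lt_top a), hb'⟩
    · exact hkey a ht
  · rintro h' ⟨hc, hh'⟩
    funext t
    rcases hcases t with rfl | ⟨a, rfl⟩
    · have h1 := (isLim_top n).map hc
      rw [hh'] at h1
      have h2 : IsLim f z := by
        rw [isLim_iff, ← range_mk]
        exact hz.closure_eq
      rw [htop]
      exact h1.unique h2
    · rw [hη]
      exact congrFun hh' a

theorem irreducible_pi : IsIrreducible (Set.univ : Set (∀ n, X n)) := by
  refine ⟨⟨fun n => ⟨Classical.arbitrary _⟩, trivial⟩, ?_⟩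
  rintro U V hU hV ⟨x, _, hx⟩ ⟨y, _, hy⟩
  refine ⟨fun n => ⟨max (x n).v (y n).v⟩, trivial, ?_, ?_⟩
  · apply Specializes.mem_open _ hU hx
    rw [specializes_pi]
    intro n
    rw [spec_up]
    exact le_max_left _ _
  · apply Specializes.mem_open _ hV hy
    rw [specializes_pi]
    intro n
    rw [spec_up]
    exact le_max_right _ _

end Pool.Agent.V11189.KChains
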